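import Mathlib

/-!
Definitions for the fractional `t`-dimension of the two-layer Boolean orders.
-/

namespace Pool.Agent.P.MP_654fb7_co

open Finset

/-- The poset of all singletons and all `k`-subsets of an `n`-element set, ordered by inclusion
(the order is Mathlib's subtype order on finite sets). -/
abbrev Q (n k : ℕ) : Type := {s : Finset (Fin n) // s.card = 1 ∨ s.card = k}

/-- A fractional `t`-realiser of a finite poset `P`: a nonnegative weighting of the maps from `P`
to the `t`-element chain, supported on the monotone (total) maps, such that for every ordered pair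
`(x, y)` for which `x ≥ y` fails, the maps with `f x < f y` have total weight at least one. -/
def IsFracRealiser {P : Type} [Fintype P] [PartialOrder P] [DecidableEq P] (t : ℕ)
    (w : (P → Fin t) → ℝ) : Prop :=
  (∀ f, 0 ≤ w f) ∧ (∀ f, ¬ Monotone f → w f = 0) ∧
    ∀ x y : P, ¬ x ≥ y → 1 ≤ ∑ f ∈ univ.filter (fun f : P → Fin t => f x < f y), w f

/-- The fractional `t`-dimension: the infimum of the total weight of a fractional `t`-realiser. -/
noncomputable def fdim (t : ℕ) (P : Type) [Fintype P] [PartialOrder P] [DecidableEq P] : ℝ :=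
  sInf {c : ℝ | ∃ w : (P → Fin t) → ℝ, IsFracRealiser t w ∧ c = ∑ f, w f}

/-- The explicit recursion. `fdValue k j` is the value attached to `t = j + 2`. -/
noncomputable def fdValue (k : ℕ) : ℕ → ℝ
  | 0 => ((k : ℝ) + 1) ^ (k + 1) / (k : ℝ) ^ k
  | j + 1 => ((k : ℝ) + 1) ^ (k + 1) / (k : ℝ) ^ k * (1 - 1 / fdValue k j) ^ k

end Pool.Agent.P.MP_654fb7_co
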