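import Pool.Agent.P.MP_654fb7_co.LLim

/-!
Asymptotics of the balanced critical point as `k` grows.
-/

namespace Pool.Agent.P.MP_654fb7_co

open Finset Filter Topology

lemma gSeq_bounds (j : ℕ) : 0 ≤ gSeq j ∧ gSeq j < 1 := by
  induction j with
  | zero => simp [gSeq]
  | succ j ih => exact ⟨(Real.exp_pos _).le, Real.exp_lt_one_iff.mpr (by linarith [ih.2])⟩

lemma gSeq_pos (j : ℕ) : 0 < gSeq (j + 1) := Real.exp_pos _

lemma kappa_bounds (m : ℕ) : 0 ≤ kappaSeq m ∧ kappaSeq m ≤ 1 / 2 := by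
  induction m with
  | zero => simp [kappaSeq]
  | succ m ih =>
    obtain ⟨h1, h2⟩ := gSeq_bounds (m + 1)
    simp only [kappaSeq]
    constructor
    · have := ih.1
      have : 0 ≤ 1 - gSeq (m + 1) := by linarith
      positivity
    · nlinarith [ih.2, sq_nonneg (1 - gSeq (m + 1)), sq_nonneg (gSeq (m + 1))]

/-- Products of the constants `gSeq`. -/
noncomputable def pp (s j : ℕ) : ℝ := ∏ i ∈ Ico j s, gSeq i

lemma pp_self (s : ℕ) : pp s s = 1 := by simp [pp]

lemma pp_pos (s j : ℕ) : 0 < pp s (j + 1) := prod_pos (fun i hi => by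
  obtain ⟨m, rfl⟩ : ∃ m, i = m + 1 := ⟨i - 1, by have := (mem_Ico.mp hi).1; omega⟩
  exact gSeq_pos m)

lemma kappa_eq (m : ℕ) : kappaSeq m
    = ∑ a ∈ range m, pp (m + 1) (a + 1) * (pp (m + 1) (a + 2) - pp (m + 1) (a + 1)) := by
  induction m with
  | zero => simp [kappaSeq]
  | succ m ih =>
    have h : ∀ j, j ≤ m + 1 → pp (m + 1 + 1) j = pp (m + 1) j * gSeq (m + 1) :=
      fun j hj => prod_Ico_succ_top hj _
    rw [sum_range_succ, h _ le_rfl, pp_self, pp_self, kappaSeq, ih, mul_sum, add_comm, one_mul]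
    congr 1
    apply sum_congr rfl
    intro a ha
    have := mem_range.mp ha
    rw [h _ (by omega), h _ (by omega)]
    ring

section
variable {k s : ℕ} {z : ℕ → ℝ}

lemma Crit.le_one (h : Crit k s z) {j : ℕ} (hj : j ≤ s + 1) : z j ≤ 1 :=
  le_trans (h.monotone hj) h.top

lemma Crit.gap (h : Crit k s z) (j : ℕ) : k * (z (j + 2) - z (j + 1)) ≤ z (j + 1) := by
  rw [h.stat]
  have h0 := h.pos j
  have h1 := h.pos (j + 1)
  have : 0 ≤ (z j / z (j + 1)) ^ k := by positivity
  nlinarith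

lemma Crit.spread (h : Crit k s z) (j : ℕ) (hj : j ≤ s) : k * (z (j + 1) - z 1) ≤ j := by
  induction j with
  | zero => simp
  | succ j ih =>
    have h1 := ih (by omega)
    have h2 := h.gap j
    have h3 := h.le_one (j := j + 1) (by omega)
    push_cast
    linarith

lemma Crit.pow_ratio (hk : 1 ≤ k) (h : Crit k s z) (j : ℕ) :
    z (j + 1) ^ k ≤ Real.exp j * z 1 ^ k := by
  have hk' : (0 : ℝ) < k := by exact_mod_cast hk
  induction j with
  | zero => simp
  | succ j ih =>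
    have h1 := h.pos (j + 1)
    have h2 : z (j + 2) ≤ Real.exp (1 / k) * z (j + 1) := by
      have h3 := h.gap j
      have h4 : z (j + 2) ≤ (1 / k + 1) * z (j + 1) := by
        have : (1 / k + 1) * z (j + 1) = (z (j + 1) + k * z (j + 1)) / k := by field_simp
        rw [this, le_div_iff₀ hk']
        linarith
      exact le_trans h4 (mul_le_mul_of_nonneg_right (Real.add_one_le_exp _) h1.le)
    have h5 := pow_le_pow_left₀ (h.pos _).le h2 k
    rw [mul_pow, ← Real.exp_nat_mul, mul_one_div_cancel hk'.ne'] at h5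
    push_cast
    rw [Real.exp_add]
    nlinarith [Real.exp_pos 1]

lemma Crit.c_pos (h : Crit k s z) : 0 < z s ^ k := pow_pos (h.pos s) k

lemma Crit.c_le (hk : 1 ≤ k) (hs : 1 ≤ s) (h : Crit k s z) :
    z s ^ k ≤ Real.exp s * Real.exp (-(k * z s ^ k)) := by
  have hk' : (0 : ℝ) < k := by exact_mod_cast hk
  obtain ⟨m, rfl⟩ : ∃ m, s = m + 1 := ⟨s - 1, by omega⟩
  have h1 := h.spread m (by omega)
  have h2 : z (m + 1) ≤ Real.exp ((m + 1 : ℕ) / k - z (m + 1) ^ k) := by
    refine le_trans ?_ (Real.add_one_le_exp _)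
    have : z (m + 1) - z 1 ≤ (m + 1 : ℕ) / k := by
      rw [le_div_iff₀ hk']; push_cast; linarith
    linarith [h.bal]
  have h3 := pow_le_pow_left₀ (h.pos _).le h2 k
  rw [← Real.exp_nat_mul] at h3
  rw [← Real.exp_add]
  refine le_trans h3 (le_of_eq ?_)
  congr 1
  field_simp
  ring

lemma Crit.neg_log_le (h : Crit k s z) {j : ℕ} : -Real.log (z j ^ k) ≤ k * (1 - z j) / z j := by
  have h0 := h.pos j
  have h1 := Real.one_sub_inv_le_log_of_pos h0
  have h2 : (k : ℝ) * (1 - z j) / z j = -(k * (1 - (z j)⁻¹)) := by field_simp; ring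
  rw [Real.log_pow, h2]
  have := mul_le_mul_of_nonneg_left h1 (Nat.cast_nonneg (α := ℝ) k)
  linarith

lemma Crit.le_neg_log (h : Crit k s z) {j : ℕ} : k * (1 - z j) ≤ -Real.log (z j ^ k) := by
  have h1 := Real.log_le_sub_one_of_pos (h.pos j)
  rw [Real.log_pow]
  have := mul_le_mul_of_nonneg_left h1 (Nat.cast_nonneg (α := ℝ) k)
  linarith

lemma Crit.lam_bounds (h : Crit k s z) :
    z 1 * (z s ^ k - z 0 ^ k) ≤ k * (z 0 ^ k * z s ^ k) ∧
      k * (z 0 ^ k * z s ^ k) ≤ z s ^ k - z 0 ^ k := by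
  have e : ∀ j, k * ((z (j + 2) - z (j + 1)) * z (j + 1) ^ k)
      = z (j + 1) * (z (j + 1) ^ k - z j ^ k) := by
    intro j
    have h1 := h.pos (j + 1)
    rw [← mul_assoc, h.stat, div_pow]
    field_simp
  have hd : ∀ j, 0 ≤ z (j + 1) ^ k - z j ^ k := fun j =>
    sub_nonneg.mpr (pow_le_pow_left₀ (h.pos j).le (h.mono j) k)
  rw [← h.riem_z, riem, mul_sum, ← sum_range_sub (fun j => z j ^ k), mul_sum]
  simp only [e]
  exact ⟨sum_le_sum (fun j _ => mul_le_mul_of_nonneg_right (h.monotone (by omega)) (hd j)),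
    sum_le_sum (fun j hj => mul_le_of_le_one_left (hd j)
      (h.le_one (by have := mem_range.mp hj; omega)))⟩

lemma Crit.pow_div (h : Crit k s z) {j m : ℕ} (hjm : j ≤ m) :
    z j ^ k / z m ^ k = ∏ i ∈ Ico j m, (z i / z (i + 1)) ^ k := by
  induction m, hjm using Nat.le_induction with
  | base => simp [(h.pos j).ne']
  | succ m hm ih =>
    rw [prod_Ico_succ_top hm, ← ih, div_pow]
    have := h.pos m
    have := h.pos (m + 1)
    field_simp

end

section
variable {s : ℕ} {Z : ℕ → ℕ → ℝ}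

/-- A choice of balanced critical points for all `k`. -/
def Crits (s : ℕ) (Z : ℕ → ℕ → ℝ) : Prop := 1 ≤ s ∧ ∀ k, 1 ≤ k → Crit k s (Z k)

lemma exists_crits (hs : 1 ≤ s) : ∃ Z, Crits s Z := by
  have : ∀ k, ∃ z, 1 ≤ k → Crit k s z := by
    intro k
    by_cases hk : 1 ≤ k
    · obtain ⟨z, h⟩ := exists_crit hk hs
      exact ⟨z, fun _ => h⟩
    · exact ⟨fun _ => 0, fun h => absurd h hk⟩
  choose Z hZ using this
  exact ⟨Z, hs, hZ⟩

lemma Crits.ev (H : Crits s Z) : ∀ᶠ k : ℕ in atTop, 1 ≤ k ∧ (0 : ℝ) < k ∧ Crit k s (Z k) := by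
  filter_upwards [eventually_ge_atTop 1] with k hk
  exact ⟨hk, by exact_mod_cast hk, H.2 k hk⟩

lemma Crits.c_zero (H : Crits s Z) : Tendsto (fun k => Z k s ^ k) atTop (𝓝 0) := by
  have h1 : Tendsto (fun k : ℕ => √(Real.exp s / k)) atTop (𝓝 0) := by
    simpa using (tendsto_const_div_atTop_nhds_zero_nat (Real.exp s)).sqrt
  apply squeeze_zero' (H.ev.mono (fun k hk => hk.2.2.c_pos.le)) _ h1
  filter_upwards [H.ev] with k ⟨hk, hk', h⟩
  apply Real.le_sqrt_of_sq_le
  rw [le_div_iff₀ hk']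
  have h2 := h.c_le hk H.1
  have h3 := Real.add_one_le_exp (k * Z k s ^ k)
  have h4 := h.c_pos
  rw [Real.exp_neg, ← div_eq_mul_inv, le_div_iff₀ (Real.exp_pos _)] at h2
  nlinarith

lemma Crits.z_one (H : Crits s Z) {j : ℕ} (h1 : 1 ≤ j) (h2 : j ≤ s + 1) :
    Tendsto (fun k => Z k j) atTop (𝓝 1) := by
  have h3 : Tendsto (fun k => 1 - Z k s ^ k) atTop (𝓝 1) := by
    simpa using H.c_zero.const_sub 1
  apply tendsto_of_tendsto_of_tendsto_of_le_of_le' h3 tendsto_const_nhds
  · filter_upwards [H.ev] with k ⟨_, _, h⟩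
    linarith [h.bal, h.monotone h1]
  · filter_upwards [H.ev] with k ⟨_, _, h⟩ using h.le_one h2

lemma Crits.neg_log_top (H : Crits s Z) :
    Tendsto (fun k => -Real.log (Z k s ^ k)) atTop atTop := by
  apply tendsto_neg_atBot_atTop.comp
  apply Real.tendsto_log_nhdsGT_zero.comp
  exact tendsto_nhdsWithin_iff.mpr ⟨H.c_zero, H.ev.mono (fun k hk => hk.2.2.c_pos)⟩

lemma Crits.kc_top (H : Crits s Z) : Tendsto (fun k : ℕ => k * Z k s ^ k) atTop atTop := by
  apply tendsto_atTop_mono' _ _ (H.neg_log_top.atTop_div_const two_pos)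
  filter_upwards [H.ev, (H.z_one le_rfl (by omega)).eventually (lt_mem_nhds one_half_lt_one)]
    with k ⟨_, hk', h⟩ h1
  have h2 := h.neg_log_le (j := 1)
  have h3 : Real.log (Z k 1 ^ k) ≤ Real.log (Z k s ^ k) :=
    Real.log_le_log (pow_pos (h.pos 1) k) (pow_le_pow_left₀ (h.pos 1).le (h.monotone H.1) k)
  rw [h.bal] at h2
  have h4 : k * Z k s ^ k / Z k 1 ≤ 2 * (k * Z k s ^ k) := by
    rw [div_le_iff₀ (h.pos 1)]
    have : 0 < k * Z k s ^ k := mul_pos hk' h.c_pos
    nlinarith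
  linarith

lemma Crits.kc2_zero (H : Crits s Z) :
    Tendsto (fun k : ℕ => k * Z k s ^ k * Z k s ^ k) atTop (𝓝 0) := by
  have h1 := ((Real.tendsto_pow_mul_exp_neg_atTop_nhds_zero 1).comp H.kc_top).const_mul
    (Real.exp s)
  rw [mul_zero] at h1
  apply squeeze_zero' _ _ h1
  · filter_upwards [H.ev] with k ⟨_, hk', h⟩
    have := h.c_pos
    positivity
  · filter_upwards [H.ev] with k ⟨hk, hk', h⟩
    have h2 := mul_le_mul_of_nonneg_left (h.c_le hk H.1) (mul_pos hk' h.c_pos).le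
    simp only [Function.comp, pow_one]
    linarith

lemma Crits.lam_div (H : Crits s Z) : Tendsto (fun k => Z k 0 ^ k / Z k s ^ k) atTop (𝓝 0) := by
  apply squeeze_zero' _ _ H.kc_top.inv_tendsto_atTop
  · filter_upwards [H.ev] with k ⟨_, _, h⟩
    exact div_nonneg (pow_pos (h.pos 0) k).le h.c_pos.le
  · filter_upwards [H.ev] with k ⟨_, hk', h⟩
    have h1 := h.lam_bounds.2
    have h2 := h.c_pos
    have h3 := pow_pos (h.pos 0) k
    have h4 : k * Z k 0 ^ k ≤ 1 := by
      apply le_of_mul_le_mul_right _ h2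
      linarith
    simp only [Pi.inv_apply]
    rw [inv_eq_one_div, div_le_div_iff₀ h2 (by positivity)]
    nlinarith

lemma Crits.klam (H : Crits s Z) : Tendsto (fun k : ℕ => k * Z k 0 ^ k) atTop (𝓝 1) := by
  have h1 : Tendsto (fun k => 1 - Z k 0 ^ k / Z k s ^ k) atTop (𝓝 1) := by
    simpa using H.lam_div.const_sub 1
  have h2 := (H.z_one le_rfl (by omega)).mul h1
  rw [mul_one] at h2
  apply tendsto_of_tendsto_of_tendsto_of_le_of_le' h2 h1
  · filter_upwards [H.ev] with k ⟨_, _, h⟩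
    have h3 := h.c_pos
    apply le_of_mul_le_mul_right _ h3
    have := h.lam_bounds.1
    field_simp
    linarith
  · filter_upwards [H.ev] with k ⟨_, _, h⟩
    have h3 := h.c_pos
    apply le_of_mul_le_mul_right _ h3
    have := h.lam_bounds.2
    field_simp
    linarith

lemma Crits.u_lim (H : Crits s Z) (j : ℕ) :
    Tendsto (fun k => (Z k j / Z k (j + 1)) ^ k) atTop (𝓝 (gSeq j)) := by
  induction j with
  | zero =>
    have h1 := H.lam_div.const_mul (Real.exp (s - 1 : ℕ))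
    rw [mul_zero] at h1
    apply squeeze_zero' _ _ h1
    · filter_upwards [H.ev] with k ⟨_, _, h⟩
      exact pow_nonneg (div_pos (h.pos _) (h.pos _)).le k
    · filter_upwards [H.ev] with k ⟨hk, _, h⟩
      have h2 := h.pow_ratio hk (s - 1)
      rw [Nat.sub_add_cancel H.1] at h2
      rw [div_pow, zero_add, ← mul_div_assoc, div_le_div_iff₀ (pow_pos (h.pos 1) k) h.c_pos]
      nlinarith [pow_pos (h.pos 0) k]
  | succ j ih =>
    have h1 : Tendsto (fun k : ℕ => k * ((1 - (Z k j / Z k (j + 1)) ^ k) / k)) atTop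
        (𝓝 (1 - gSeq j)) := by
      apply (ih.const_sub 1).congr'
      filter_upwards [H.ev] with k ⟨_, hk', _⟩
      field_simp
    have h2 := (Real.tendsto_one_add_pow_exp_of_tendsto h1).inv₀ (Real.exp_pos _).ne'
    rw [← Real.exp_neg, neg_sub] at h2
    apply h2.congr'
    filter_upwards [H.ev] with k ⟨_, hk', h⟩
    rw [← inv_pow]
    congr 1
    have h3 := h.stat j
    have h4 := h.pos (j + 1)
    have h5 := h.pos (j + 2)
    have : 1 + (1 - (Z k j / Z k (j + 1)) ^ k) / k = Z k (j + 2) / Z k (j + 1) := by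
      field_simp
      linarith
    rw [this, inv_div]

lemma Crits.gap_lim (H : Crits s Z) {j : ℕ} (hj : j ≤ s) :
    Tendsto (fun k : ℕ => k * (Z k (j + 2) - Z k (j + 1))) atTop (𝓝 (1 - gSeq j)) := by
  have h1 := (H.z_one (j := j + 1) (by omega) (by omega)).mul ((H.u_lim j).const_sub 1)
  rw [one_mul] at h1
  apply h1.congr'
  filter_upwards [H.ev] with k ⟨_, _, h⟩ using (h.stat j).symm

lemma Crits.pi_lim (H : Crits s Z) {j : ℕ} (hj : j ≤ s) :
    Tendsto (fun k => Z k j ^ k / Z k s ^ k) atTop (𝓝 (pp s j)) := by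
  apply (tendsto_finsetProd (Ico j s) (fun i _ => H.u_lim i)).congr'
  filter_upwards [H.ev] with k ⟨_, _, h⟩ using (h.pow_div hj).symm

lemma Crits.mu_div (H : Crits s Z) :
    Tendsto (fun k => (1 - Z k (s + 1)) / Z k s ^ k) atTop (𝓝 1) := by
  have h1 : Tendsto (fun k : ℕ => 1 - s / (k * Z k s ^ k)) atTop (𝓝 1) := by
    simpa using (H.kc_top.const_div_atTop (s : ℝ)).const_sub 1
  apply tendsto_of_tendsto_of_tendsto_of_le_of_le' h1 tendsto_const_nhds
  · filter_upwards [H.ev] with k ⟨_, hk', h⟩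
    have h2 := h.spread s le_rfl
    have h3 := h.c_pos
    rw [le_div_iff₀ h3]
    have : (1 - s / (k * Z k s ^ k)) * Z k s ^ k = Z k s ^ k - s / k := by field_simp
    rw [this]
    have : Z k (s + 1) - Z k 1 ≤ s / k := by rw [le_div_iff₀ hk']; linarith
    linarith [h.bal]
  · filter_upwards [H.ev] with k ⟨_, _, h⟩
    rw [div_le_one h.c_pos]
    linarith [h.bal, h.monotone (show 1 ≤ s + 1 by omega)]

lemma Crits.ell_c (H : Crits s Z) :
    Tendsto (fun k => ellValue (s + 1) k * Z k s ^ k) atTop (𝓝 1) := by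
  have h1 := (H.lam_div.add H.mu_div).inv₀ (by norm_num)
  rw [zero_add, inv_one] at h1
  apply h1.congr'
  filter_upwards [H.ev] with k ⟨hk, _, h⟩
  rw [h.ell hk H.1, ← add_div, inv_div]
  ring

lemma Crits.log_beta (H : Crits s Z) :
    Tendsto (fun k : ℕ => -Real.log (Z k s ^ k) - k * (1 - Z k s)) atTop (𝓝 0) := by
  have h1 := H.kc2_zero.div (H.z_one H.1 (by omega)) one_ne_zero
  rw [zero_div] at h1
  apply squeeze_zero' _ _ h1
  · filter_upwards [H.ev] with k ⟨_, _, h⟩
    linarith [h.le_neg_log (j := s)]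
  · filter_upwards [H.ev] with k ⟨_, hk', h⟩
    have h2 := h.neg_log_le (j := s)
    have h3 := h.pos s
    have h4 : 1 - Z k s ≤ Z k s ^ k := by linarith [h.bal, h.monotone H.1]
    have h5 : 0 ≤ 1 - Z k s := by linarith [h.le_one (j := s) (by omega)]
    have h6 : k * (1 - Z k s) / Z k s - k * (1 - Z k s) = k * (1 - Z k s) * (1 - Z k s) / Z k s := by
      field_simp
    have h7 : k * (1 - Z k s) * (1 - Z k s) / Z k s ≤ k * Z k s ^ k * Z k s ^ k / Z k s := by
      gcongr
    simp only [Pi.div_apply]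
    linarith

lemma Crits.ell_beta (H : Crits s Z) :
    Tendsto (fun k : ℕ => k / ellValue (s + 1) k - k * (1 - Z k s)) atTop (𝓝 (gSeq (s - 1))) := by
  have h1 := H.klam.sub (H.gap_lim (Nat.sub_le s 1))
  rw [sub_sub_cancel] at h1
  apply h1.congr'
  filter_upwards [H.ev] with k ⟨hk, _, h⟩
  have e1 : s - 1 + 1 = s := Nat.sub_add_cancel H.1
  have e2 : s - 1 + 2 = s + 1 := by have := H.1; omega
  rw [h.ell hk H.1, e1, e2, div_div_eq_mul_div, div_one]
  ring

lemma Crits.beta_log (H : Crits s Z) : Tendsto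
    (fun k : ℕ => k * (1 - Z k s) - Real.log k + Real.log (Real.log k)) atTop (𝓝 0) := by
  have h1 : Tendsto (fun k : ℕ => k * (1 - Z k s) / (k * Z k s ^ k)) atTop (𝓝 1) := by
    apply tendsto_of_tendsto_of_tendsto_of_le_of_le' H.mu_div tendsto_const_nhds
    · filter_upwards [H.ev] with k ⟨_, hk', h⟩
      rw [mul_div_mul_left _ _ hk'.ne']
      exact div_le_div_of_nonneg_right (by linarith [h.mono s]) h.c_pos.le
    · filter_upwards [H.ev] with k ⟨_, hk', h⟩
      rw [mul_div_mul_left _ _ hk'.ne', div_le_one h.c_pos]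
      linarith [h.bal, h.monotone H.1]
  have h2 : Tendsto (fun k : ℕ => Real.log (k * Z k s ^ k) / (k * Z k s ^ k)) atTop (𝓝 0) := by
    have := (Real.tendsto_pow_log_div_mul_add_atTop 1 0 1 one_ne_zero).comp H.kc_top
    simpa [Function.comp_def] using this
  have h3 := H.log_beta.div_atTop H.kc_top
  have h4 : Tendsto (fun k : ℕ => Real.log k / (k * Z k s ^ k)) atTop (𝓝 1) := by
    have := (h1.add h2).add h3
    simp only [add_zero] at this
    apply this.congr'
    filter_upwards [H.ev] with k ⟨_, hk', h⟩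
    rw [Real.log_mul hk'.ne' h.c_pos.ne', ← add_div, ← add_div]
    congr 1
    ring
  have h5 := (h4.log one_ne_zero).sub H.log_beta
  rw [Real.log_one, sub_zero] at h5
  apply h5.congr'
  filter_upwards [H.ev, eventually_ge_atTop 2] with k ⟨_, hk', h⟩ hk2
  have h6 : 0 < Real.log k := Real.log_pos (by exact_mod_cast hk2)
  rw [Real.log_div h6.ne' (mul_pos hk' h.c_pos).ne', Real.log_mul hk'.ne' h.c_pos.ne']
  ring

lemma ell_asymp (hs : 1 ≤ s) : Tendsto
    (fun k : ℕ => k / ellValue (s + 1) k - Real.log k + Real.log (Real.log k)) atTop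
      (𝓝 (gSeq (s - 1))) := by
  obtain ⟨Z, H⟩ := exists_crits hs
  have := H.ell_beta.add H.beta_log
  rw [add_zero] at this
  exact this.congr (fun k => by ring)

end

end Pool.Agent.P.MP_654fb7_co
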