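import Pool.Agent.P.MP_654fb7_co.Defs

/-!
Definitions for the fractional local `t`-dimension of the two-layer Boolean orders.
-/

namespace Pool.Agent.P.MP_654fb7_co

open Finset

/-- A map `f : P → Option (Fin t)` is read as a map to the `t`-element chain defined on the set of
points where its value is not `none`.  It is monotone if it is monotone on that set. -/
def PMono {P : Type} [PartialOrder P] {t : ℕ} (f : P → Option (Fin t)) : Prop :=
  ∀ (x y : P) (a b : Fin t), x ≤ y → f x = some a → f y = some b → a ≤ b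

/-- Both values are defined and the first is smaller than the second. -/
def PLt {t : ℕ} (u v : Option (Fin t)) : Prop :=
  ∃ a b : Fin t, u = some a ∧ v = some b ∧ a < b

open Classical in
/-- A fractional local `t`-realiser of a finite poset `P`: a nonnegative weighting of the monotone
maps from subsets of `P` to the `t`-element chain such that for every ordered pair `(x, y)` for
which `x ≥ y` fails, the maps defined at `x` and `y` with `f x < f y` have total weight at least
one. -/
def IsLocRealiser {P : Type} [Fintype P] [PartialOrder P] [DecidableEq P] (t : ℕ)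
    (w : (P → Option (Fin t)) → ℝ) : Prop :=
  (∀ f, 0 ≤ w f) ∧ (∀ f, ¬ PMono f → w f = 0) ∧
    ∀ x y : P, ¬ x ≥ y →
      1 ≤ ∑ f ∈ univ.filter (fun f : P → Option (Fin t) => PLt (f x) (f y)), w f

/-- The fractional local `t`-dimension: the infimum of the numbers `c` such that some fractional
local `t`-realiser gives, for every point `x`, total weight at most `c` to the maps defined
at `x`. -/
noncomputable def fldim (t : ℕ) (P : Type) [Fintype P] [PartialOrder P] [DecidableEq P] : ℝ :=
  sInf {c : ℝ | ∃ w : (P → Option (Fin t)) → ℝ, IsLocRealiser t w ∧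
    ∀ x : P, ∑ f ∈ univ.filter (fun f : P → Option (Fin t) => f x ≠ none), w f ≤ c}

/-- The number `L_t(k)`: the infimum of `max (1 - z_1, z_(t-1) ^ k)` divided by the lower Riemann
sum `∑_(1 ≤ j < t) (z_(j+1) - z_j) z_j ^ k`, over `0 ≤ z_1 ≤ ... ≤ z_t = 1` with positive sum. -/
noncomputable def ellValue (t k : ℕ) : ℝ :=
  sInf {c : ℝ | ∃ z : ℕ → ℝ, 0 ≤ z 1 ∧ (∀ j, 1 ≤ j → j < t → z j ≤ z (j + 1)) ∧ z t = 1 ∧
    0 < ∑ j ∈ Ico 1 t, (z (j + 1) - z j) * z j ^ k ∧
    c = max (1 - z 1) (z (t - 1) ^ k) / ∑ j ∈ Ico 1 t, (z (j + 1) - z j) * z j ^ k}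

/-- The sequence `g_0 = 0`, `g_(m+1) = exp (g_m - 1)`. -/
noncomputable def gSeq : ℕ → ℝ
  | 0 => 0
  | m + 1 => Real.exp (gSeq m - 1)

/-- The sequence `κ_0 = 0`, `κ_(m+1) = g_(m+1) (1 - g_(m+1)) + g_(m+1) ^ 2 κ_m`. -/
noncomputable def kappaSeq : ℕ → ℝ
  | 0 => 0
  | m + 1 => gSeq (m + 1) * (1 - gSeq (m + 1)) + gSeq (m + 1) ^ 2 * kappaSeq m

end Pool.Agent.P.MP_654fb7_co
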