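import Pool.Agent.P.MP_654fb7_co.LTy

/-!
The value `ellValue` in terms of the balanced critical point.
-/

namespace Pool.Agent.P.MP_654fb7_co

open Finset

/-- The lower Riemann sum. -/
noncomputable def riem (k s : ℕ) (x : ℕ → ℝ) : ℝ :=
  ∑ j ∈ range s, (x (j + 2) - x (j + 1)) * x (j + 1) ^ k

lemma riem_eq (k s : ℕ) (x : ℕ → ℝ) :
    ∑ j ∈ Ico 1 (s + 1), (x (j + 1) - x j) * x j ^ k = riem k s x := by
  rw [sum_Ico_eq_sum_range]
  simp only [Nat.add_sub_cancel, riem]
  apply sum_congr rfl
  intro j _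
  rw [add_comm 1 j]

variable {k s : ℕ} {z : ℕ → ℝ}

lemma Crit.monotone (h : Crit k s z) : Monotone z := monotone_nat_of_le_succ h.mono

lemma Crit.riem_z (h : Crit k s z) : riem k s z = z 0 ^ k * z s ^ k := by
  have := h.tight
  rw [sum_range_succ'] at this
  simp only [riem]
  rw [← h.bal]
  simp only [zero_add] at this
  linarith

lemma Crit.lam_pos (h : Crit k s z) : 0 < z 0 ^ k + (1 - z (s + 1)) := by
  have := pow_pos (h.pos 0) k
  linarith [h.top]

lemma riem_update (hs : 1 ≤ s) (x : ℕ → ℝ) (y : ℝ) :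
    riem k s (Function.update x (s + 1) y) = riem k s x + (y - x (s + 1)) * x s ^ k := by
  obtain ⟨m, rfl⟩ : ∃ m, s = m + 1 := ⟨s - 1, by omega⟩
  simp only [riem]
  rw [sum_range_succ, sum_range_succ, Function.update_self,
    Function.update_of_ne (by omega : m + 1 ≠ m + 1 + 1)]
  have : ∑ j ∈ range m, (Function.update x (m + 1 + 1) y (j + 2)
      - Function.update x (m + 1 + 1) y (j + 1)) * Function.update x (m + 1 + 1) y (j + 1) ^ k
      = ∑ j ∈ range m, (x (j + 2) - x (j + 1)) * x (j + 1) ^ k := by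
    apply sum_congr rfl
    intro j hj
    have := mem_range.mp hj
    rw [Function.update_of_ne (by omega), Function.update_of_ne (by omega)]
  rw [this]
  ring

lemma riem_le_dual (hk : 1 ≤ k) (hs : 1 ≤ s) (h : Crit k s z) {x : ℕ → ℝ} (h0 : 0 ≤ x 1)
    (hm : ∀ j, 1 ≤ j → j < s + 1 → x j ≤ x (j + 1)) (ht : x (s + 1) = 1) :
    riem k s x ≤ z 0 ^ k * (1 - x 1) + (1 - z (s + 1)) * x s ^ k := by
  let y : ℕ → ℝ := fun a => x (min (a + 1) (s + 1))
  have hy : Monotone y := by
    apply monotone_nat_of_le_succ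
    intro a
    simp only [y]
    rcases lt_or_ge a s with ha | ha
    · rw [min_eq_left (by omega), min_eq_left (by omega)]
      exact hm _ (by omega) (by omega)
    · rw [min_eq_right (by omega), min_eq_right (by omega)]
  have hy0 : y 0 = x 1 := by simp [y]
  have hys : ∀ a, s ≤ a → y a = 1 := fun a ha => by
    simp only [y]; rw [min_eq_right (by omega), ht]
  have hyn : ∀ a, 0 ≤ y a := fun a => le_trans (hy0 ▸ h0) (hy (Nat.zero_le a))
  have hy1 : ∀ a, y a ≤ 1 := fun a => by
    rw [← hys (max a s) (le_max_right _ _)]; exact hy (le_max_left _ _)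
  let v : ℕ → ℝ := fun a => if a = 0 then 0 else y (min a s - 1) ^ k
  have hv : ∀ a, v a ≤ v (a + 1) := by
    intro a
    simp only [v]
    rw [if_neg (Nat.succ_ne_zero a)]
    split_ifs with ha
    · exact pow_nonneg (hyn _) _
    · exact pow_le_pow_left₀ (hyn _) (hy (by omega)) _
  have hcum : ∀ a, cumX (fun b => v (b + 1) - v b) a = v a := by
    intro a
    simp only [cumX]
    rw [sum_range_sub]
    simp [v]
  have hT : Ty k s (fun b => v (b + 1) - v b) (fun a => 1 - y a) (1 - x 1) := by
    refine ⟨fun a => sub_nonneg.mpr (hv a), fun a => sub_nonneg.mpr (hy1 a),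
      fun a => by linarith [hyn a], fun a => by linarith [hy (Nat.le_succ a)],
      by simp [hys s le_rfl], by rw [hy0], fun a => ?_⟩
    rw [hcum]
    simp only [v]
    rw [if_neg (Nat.succ_ne_zero a), sub_sub_cancel]
    exact pow_le_pow_left₀ (hyn _) (hy (by omega)) _
  have hd := defi_nonneg hk h hT
  simp only [defi] at hd
  rw [hcum] at hd
  have e1 : v (s + 1) = x s ^ k := by
    simp only [v, y]
    rw [if_neg (Nat.succ_ne_zero s)]
    congr 2
    omega
  have e2 : RR s (fun b => v (b + 1) - v b) (fun a => 1 - y a) = riem k s x := by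
    have := abel_cum (fun b => v (b + 1) - v b) (fun a => 1 - y a) s
    simp only [hys s le_rfl, sub_self, sub_zero] at this
    simp only [RR, riem]
    rw [this]
    apply sum_congr rfl
    intro a ha
    have := mem_range.mp ha
    rw [hcum]
    simp only [v, y]
    rw [if_neg (Nat.succ_ne_zero a), min_eq_left (by omega : a + 1 ≤ s),
      min_eq_left (by omega : a + 1 ≤ s + 1), min_eq_left (by omega : a + 1 + 1 ≤ s + 1),
      Nat.add_sub_cancel, min_eq_left (by omega : a + 1 ≤ s + 1)]
    ring
  rw [e1, e2] at hd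
  linarith

lemma Crit.ell (hk : 1 ≤ k) (hs : 1 ≤ s) (h : Crit k s z) :
    ellValue (s + 1) k = 1 / (z 0 ^ k + (1 - z (s + 1))) := by
  have hp := h.lam_pos
  apply IsLeast.csInf_eq
  constructor
  · have hc : 0 < z s ^ k := pow_pos (h.pos s) k
    have e : riem k s (Function.update z (s + 1) 1) = (z 0 ^ k + (1 - z (s + 1))) * z s ^ k := by
      rw [riem_update hs, h.riem_z]; ring
    refine ⟨Function.update z (s + 1) 1, ?_, ?_, Function.update_self _ _ _, ?_, ?_⟩
    · rw [Function.update_of_ne (by omega)]; exact (h.pos 1).le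
    · intro j _ hj
      rw [Function.update_of_ne (by omega)]
      rcases eq_or_ne j s with rfl | hne
      · rw [Function.update_self]; exact le_trans (h.mono j) h.top
      · rw [Function.update_of_ne (by omega)]; exact h.mono j
    · rw [riem_eq, e]; positivity
    · rw [riem_eq, e, Nat.add_sub_cancel, Function.update_of_ne (by omega),
        Function.update_of_ne (by omega), h.bal, max_self]
      field_simp
  · rintro c ⟨x, h0, hm, ht, hpos, rfl⟩
    rw [riem_eq] at hpos ⊢
    have h1 := riem_le_dual hk hs h h0 hm ht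
    rw [Nat.add_sub_cancel, div_le_div_iff₀ hp hpos, one_mul]
    have h2 := le_max_left (1 - x 1) (x s ^ k)
    have h3 := le_max_right (1 - x 1) (x s ^ k)
    have h4 : 0 ≤ z 0 ^ k := pow_nonneg (h.pos 0).le k
    have h5 : 0 ≤ 1 - z (s + 1) := by linarith [h.top]
    nlinarith

end Pool.Agent.P.MP_654fb7_co
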