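import Pool.Agent.P.MP_654fb7_co.LPush

/-!
The families of random maps used for the upper bounds.
-/

namespace Pool.Agent.P.MP_654fb7_co

open Finset

lemma q_cases {n k : ℕ} (hk : 2 ≤ k) (x : Q n k) :
    (∃ i, x = sing k i) ∨ (x.1.card = k ∧ x.1.card ≠ 1) := by
  rcases x.2 with h | h
  · obtain ⟨i, hi⟩ := card_eq_one.mp h
    exact Or.inl ⟨i, Subtype.ext hi⟩
  · exact Or.inr ⟨h, by omega⟩

lemma q_lt {n k : ℕ} (hk : 2 ≤ k) {x y : Q n k} (hxy : x ≤ y) (hne : x ≠ y) :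
    x.1.card = 1 ∧ y.1.card ≠ 1 := by
  have h1 : x.1 ⊂ y.1 := ssubset_of_ne_of_subset (fun h => hne (Subtype.ext h)) hxy
  have h2 := card_lt_card h1
  rcases x.2 with h | h <;> rcases y.2 with h' | h' <;> omega

lemma sing_card {n k : ℕ} (i : Fin n) : (sing k i).1.card = 1 := card_singleton i

lemma indep_family (n s : ℕ) {k : ℕ} (hk : 2 ≤ k) (u v : Fin (s + 1) → ℕ) (hu : ∀ a, u a ≤ s + 1)
    (hv : ∀ a, v a ≤ s + 1) (huv : ∀ a b, 0 < u a → 0 < v b → u a ≤ v b) :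
    ∃ w : (Q n k → Option (Fin (s + 1))) → ℝ, Good w ∧
      (∀ x y : Q n k, x ≠ y → cov w x y =
        (∑ a, ∑ b, ind (0 < (if x.1.card = 1 then u a else v a) ∧
          (if x.1.card = 1 then u a else v a) < (if y.1.card = 1 then u b else v b)))
          / ((s : ℝ) + 1) ^ 2) ∧
      (∀ x, cost w x ≤ 1) ∧
      ∀ x : Q n k, (∀ a, (if x.1.card = 1 then u a else v a) = 0) → cost w x = 0 := by
  have hp : ∑ _r : Fin (s + 1), 1 / ((s : ℝ) + 1) = 1 := by
    simp only [sum_const, card_univ, Fintype.card_fin, nsmul_eq_mul]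
    push_cast
    field_simp
  have hW : ∀ g : Q n k → Fin (s + 1), 0 ≤ ∏ _a : Q n k, 1 / ((s : ℝ) + 1) :=
    fun g => by positivity
  obtain ⟨w, hw, hcov, hcost⟩ := push_code (t := s + 1) (P := Q n k)
    (fun _ : Q n k → Fin (s + 1) => ∏ _a : Q n k, 1 / ((s : ℝ) + 1)) hW
    (fun g x => if x.1.card = 1 then u (g x) else v (g x))
    (fun g x => by split_ifs; exacts [hu _, hv _])
    (fun g x y hxy h1 h2 => by
      rcases eq_or_ne x y with rfl | hne
      · exact le_rfl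
      · obtain ⟨h3, h4⟩ := q_lt hk hxy hne
        rw [if_pos h3] at h1 ⊢
        rw [if_neg h4] at h2 ⊢
        exact huv _ _ h1 h2)
  refine ⟨w, hw, fun x y hne => ?_, fun x => ?_, fun x hx => ?_⟩
  · rw [hcov, prob_pair (fun _ : Fin (s + 1) => 1 / ((s : ℝ) + 1)) hp hne
      (fun a b => ind (0 < (if x.1.card = 1 then u a else v a) ∧
          (if x.1.card = 1 then u a else v a) < (if y.1.card = 1 then u b else v b)))]
    simp only [sum_div]
    refine sum_congr rfl (fun a _ => sum_congr rfl (fun b _ => ?_))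
    field_simp
  · rw [hcost]
    refine le_trans ?_ (prob_total (ι := Q n k) (fun _ : Fin (s + 1) => 1 / ((s : ℝ) + 1)) hp).le
    exact sum_le_sum (fun g _ => mul_le_of_le_one_right (hW g) (ind_le_one _))
  · rw [hcost]
    exact sum_eq_zero (fun g _ => by rw [ind_neg (by rw [hx]; omega), mul_zero])

lemma sum_ind_eq_one {β : Type} [Fintype β] (a : β) : ∑ b, ind (a = b) = 1 := by
  rw [sum_eq_single a (fun r _ hr => ind_neg (Ne.symm hr)) (by simp), ind_pos rfl]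

lemma count_lt (s : ℕ) : (∑ a : Fin (s + 1), ∑ b : Fin (s + 1),
    ind (0 < (a : ℕ) + 1 ∧ (a : ℕ) + 1 < (b : ℕ) + 1)) / ((s : ℝ) + 1) ^ 2
      = s / (2 * ((s : ℝ) + 1)) := by
  set N := ∑ a : Fin (s + 1), ∑ b : Fin (s + 1),
    ind (0 < (a : ℕ) + 1 ∧ (a : ℕ) + 1 < (b : ℕ) + 1) with hN
  have h1 : N + N + ∑ a : Fin (s + 1), ∑ b : Fin (s + 1), ind (a = b)
      = ∑ _a : Fin (s + 1), ∑ _b : Fin (s + 1), (1 : ℝ) := by
    nth_rewrite 2 [hN]
    rw [sum_comm, hN]
    simp only [← sum_add_distrib]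
    refine sum_congr rfl (fun a _ => sum_congr rfl (fun b _ => ?_))
    rcases lt_trichotomy (a : ℕ) b with h | h | h
    · rw [ind_pos (by omega), ind_neg (by omega), ind_neg (by rw [Fin.ext_iff]; omega)]; ring
    · rw [ind_neg (by omega), ind_neg (by omega), ind_pos (by rw [Fin.ext_iff]; omega)]; ring
    · rw [ind_neg (by omega), ind_pos (by omega), ind_neg (by rw [Fin.ext_iff]; omega)]; ring
  simp only [sum_ind_eq_one, sum_const, card_univ, Fintype.card_fin, nsmul_eq_mul] at h1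
  push_cast at h1
  have : N = s * ((s : ℝ) + 1) / 2 := by linarith
  rw [this]
  field_simp

lemma count_pos (s : ℕ) : (∑ _a : Fin (s + 1), ∑ b : Fin (s + 1),
    ind (0 < 1 ∧ 1 < (b : ℕ) + 1)) / ((s : ℝ) + 1) ^ 2 = s / ((s : ℝ) + 1) := by
  have : ∑ b : Fin (s + 1), ind (0 < 1 ∧ 1 < (b : ℕ) + 1) = s := by
    rw [Fin.sum_univ_succ, ind_neg (by simp), zero_add,
      sum_congr rfl (fun b _ => ind_pos (by simp))]
    simp
  simp only [this, sum_const, card_univ, Fintype.card_fin, nsmul_eq_mul]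
  push_cast
  field_simp

section
variable (n s : ℕ) {k : ℕ}

lemma family_D (hk : 2 ≤ k) : ∃ w : (Q n k → Option (Fin (s + 1))) → ℝ, Good w ∧
    (∀ x y : Q n k, x ≠ y → x.1.card ≠ 1 → y.1.card ≠ 1 → cov w x y = s / (2 * ((s : ℝ) + 1))) ∧
    (∀ x, cost w x ≤ 1) ∧ ∀ i, cost w (sing k i) = 0 := by
  obtain ⟨w, hw, h1, h2, h3⟩ := indep_family n s hk (fun _ => 0) (fun b => b + 1) (by simp)
    (fun b => b.2) (by simp)
  refine ⟨w, hw, fun x y hne hx hy => ?_, h2, fun i => h3 _ (fun a => if_pos (sing_card i))⟩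
  rw [h1 x y hne]
  simp only [if_neg hx, if_neg hy]
  exact count_lt s

lemma family_E (hk : 2 ≤ k) : ∃ w : (Q n k → Option (Fin (s + 1))) → ℝ, Good w ∧
    (∀ x y : Q n k, x ≠ y → x.1.card ≠ 1 → y.1.card ≠ 1 → cov w x y = s / (2 * ((s : ℝ) + 1))) ∧
    (∀ i (y : Q n k), y.1.card ≠ 1 → cov w (sing k i) y = s / ((s : ℝ) + 1)) ∧
    ∀ x, cost w x ≤ 1 := by
  obtain ⟨w, hw, h1, h2, _⟩ := indep_family n s hk (fun _ => 1) (fun b => b + 1) (by simp)
    (fun b => b.2) (by simp)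
  refine ⟨w, hw, fun x y hne hx hy => ?_, fun i y hy => ?_, h2⟩
  · rw [h1 x y hne]
    simp only [if_neg hx, if_neg hy]
    exact count_lt s
  · rw [h1 _ y (fun h => hy (h ▸ sing_card i))]
    simp only [if_pos (sing_card i), if_neg hy]
    exact count_pos s

lemma family_S (hk : 2 ≤ k) : ∃ w : (Q n k → Option (Fin (s + 1))) → ℝ, Good w ∧
    (∀ i j, i ≠ j → cov w (sing k i) (sing k j) = s / (2 * ((s : ℝ) + 1))) ∧
    (∀ x, cost w x ≤ 1) ∧ ∀ x : Q n k, x.1.card ≠ 1 → cost w x = 0 := by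
  obtain ⟨w, hw, h1, h2, h3⟩ := indep_family n s hk (fun b => b + 1) (fun _ => 0)
    (fun b => b.2) (by simp) (by simp)
  refine ⟨w, hw, fun i j hne => ?_, h2, fun x hx => h3 _ (fun a => if_neg hx)⟩
  rw [h1 _ _ (fun h => hne (singleton_injective (congrArg Subtype.val h)))]
  simp only [if_pos (sing_card _)]
  exact count_lt s

lemma family_U (hk : 2 ≤ k) (hs : 1 ≤ s) : ∃ w : (Q n k → Option (Fin (s + 1))) → ℝ, Good w ∧
    (∀ i (y : Q n k), y.1.card ≠ 1 → cov w (sing k i) y = 1) ∧ ∀ x, cost w x ≤ 1 := by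
  obtain ⟨w, hw, h1, h2, _⟩ := indep_family n s hk (fun _ => 1) (fun _ => s + 1) (by simp)
    (by simp) (by simp)
  refine ⟨w, hw, fun i y hy => ?_, h2⟩
  rw [h1 _ y (fun h => hy (h ▸ sing_card i))]
  simp only [if_pos (sing_card i), if_neg hy]
  rw [ind_pos (by omega)]
  simp only [sum_const, card_univ, Fintype.card_fin, nsmul_eq_mul]
  push_cast
  field_simp

end

end Pool.Agent.P.MP_654fb7_co
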