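import Pool.Agent.P.MP_654fb7_co.LSharpUp

/-!
Second order asymptotics of the limit.
-/

namespace Pool.Agent.P.MP_654fb7_co

open Finset Filter Topology

theorem log_limit {s : ℕ} (hs : 1 ≤ s) : Tendsto
    (fun k : ℕ => k / FF s k - Real.log k + Real.log (Real.log k)) atTop (𝓝 (gSeq (s - 1))) := by
  obtain ⟨Z, H⟩ := exists_crits hs
  have h1 := (sharp_limit hs).mul (H.kc2_zero.div (H.ell_c.pow 2) (by norm_num))
  rw [zero_div, mul_zero] at h1
  have h2 : Tendsto (fun k : ℕ => k / ellValue (s + 1) k - k / FF s k) atTop (𝓝 0) := by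
    apply squeeze_zero' _ _ h1
    · filter_upwards [H.ev, eventually_ge_atTop 2] with k ⟨hk, hk', h⟩ hk2
      have hL : 0 < ellValue (s + 1) k := by
        rw [h.ell hk hs]; exact one_div_pos.mpr h.lam_pos
      exact sub_nonneg.mpr (div_le_div_of_nonneg_left hk'.le hL (ell_le_FF hk2 hs))
    · filter_upwards [H.ev, eventually_ge_atTop 2] with k ⟨hk, hk', h⟩ hk2
      have hL : 0 < ellValue (s + 1) k := by
        rw [h.ell hk hs]; exact one_div_pos.mpr h.lam_pos
      have h3 := ell_le_FF hk2 hs
      have hF : 0 < FF s k := lt_of_lt_of_le hL h3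
      have hc := h.c_pos
      have e1 : k / ellValue (s + 1) k - k / FF s k
          = (FF s k - ellValue (s + 1) k) * (k / (ellValue (s + 1) k * FF s k)) := by
        field_simp
      have e2 : k * Z k s ^ k * Z k s ^ k / (ellValue (s + 1) k * Z k s ^ k) ^ 2
          = k / (ellValue (s + 1) k * ellValue (s + 1) k) := by
        field_simp
      simp only [Pi.div_apply]
      rw [e1, e2]
      gcongr
  have h3 := (ell_asymp hs).sub h2
  rw [sub_zero] at h3
  exact h3.congr (fun k => by ring)

lemma gam_eq {s : ℕ} : gam s = 2 * ((s + 1 : ℕ) : ℝ) / (((s + 1 : ℕ) : ℝ) - 1) := by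
  rw [gam]
  push_cast
  ring

end Pool.Agent.P.MP_654fb7_co
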