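import Pool.Agent.P.MP_654fb7_co.LUp

/-!
The general upper bound, monotonicity in `n` and the existence of the limit.
-/

namespace Pool.Agent.P.MP_654fb7_co

open Finset Filter Topology

/-- The constant `2 t / (t - 1)` for `t = s + 1`. -/
noncomputable def gam (s : ℕ) : ℝ := 2 * ((s : ℝ) + 1) / s

lemma gam_pos {s : ℕ} (hs : 1 ≤ s) : 0 < gam s := by
  have : (0 : ℝ) < s := by exact_mod_cast hs
  unfold gam
  positivity

/-- The set whose infimum is the fractional local dimension. -/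
def Feas (t : ℕ) (P : Type) [Fintype P] [PartialOrder P] [DecidableEq P] (M : ℝ) : Prop :=
  ∃ w : (P → Option (Fin t)) → ℝ, Good w ∧ (∀ x y : P, ¬ x ≥ y → 1 ≤ cov w x y) ∧
    ∀ x, cost w x ≤ M

lemma upper_general (n : ℕ) {s k : ℕ} (hk : 2 ≤ k) (hs : 1 ≤ s) {x : ℕ → ℝ} (h0 : x 0 = 0)
    (hm : ∀ j, j ≤ s → x j ≤ x (j + 1)) (h1 : x (s + 1) = 1) {ε : ℝ} (hε0 : 0 ≤ ε) (hε1 : ε ≤ 1)
    (hε : 2 ≤ s ∨ ε = 0) {W0 W1 W2 W3 M : ℝ} (hW0 : 0 ≤ W0) (hW1 : 0 ≤ W1) (hW2 : 0 ≤ W2)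
    (hW3 : 0 ≤ W3) (ha : 1 ≤ W0 * (TT k 1 s x - ε * TT k 1 1 x))
    (hb : ∀ r, 1 ≤ r → r ≤ k →
      1 ≤ W0 * ((1 - ε) * (TT k r (s - 1) x + ε * (x 1 ^ k * x 1 ^ r))) + (W1 + W2) / gam s)
    (hc : 1 ≤ W2 * (s / ((s : ℝ) + 1)) + W3)
    (hM1 : W0 * (1 - x 1) + W2 + gam s + W3 ≤ M) (hM2 : W0 * x s ^ k + W1 + W2 + W3 ≤ M) :
    Feas (s + 1) (Q n k) M := by
  obtain ⟨w0, g0, a0, b0, c0, d0⟩ := main_family n hk hs h0 hm h1 hε0 hε1 hε
  obtain ⟨w1, g1, a1, c1, d1⟩ := family_D n s hk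
  obtain ⟨w2, g2, a2, b2, c2⟩ := family_E n s hk
  obtain ⟨w3, g3, a3, c3⟩ := family_U n s hk hs
  obtain ⟨w4, g4, a4, c4, d4⟩ := family_S n s hk
  have hγ := gam_pos hs
  have hs' : (0 : ℝ) < s := by exact_mod_cast hs
  let w := fun f => W0 * w0 f + W1 * w1 f + W2 * w2 f + W3 * w3 f + gam s * w4 f
  have hcov : ∀ a b, cov w a b = W0 * cov w0 a b + W1 * cov w1 a b + W2 * cov w2 a b
      + W3 * cov w3 a b + gam s * cov w4 a b := by
    intro a b
    simp only [cov, w, mul_sum, ← sum_add_distrib]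
    exact sum_congr rfl (fun f _ => by ring)
  have hcost : ∀ a, cost w a = W0 * cost w0 a + W1 * cost w1 a + W2 * cost w2 a
      + W3 * cost w3 a + gam s * cost w4 a := by
    intro a
    simp only [cost, w, mul_sum, ← sum_add_distrib]
    exact sum_congr rfl (fun f _ => by ring)
  refine ⟨w, ⟨fun f => ?_, fun f hf => ?_⟩, fun a b hab => ?_, fun a => ?_⟩
  · have := g0.1 f
    have := g1.1 f
    have := g2.1 f
    have := g3.1 f
    have := g4.1 f
    simp only [w]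
    positivity
  · simp only [w, g0.2 f hf, g1.2 f hf, g2.2 f hf, g3.2 f hf, g4.2 f hf]
    ring
  · have n0 := mul_nonneg hW0 (g0.cov_nonneg a b)
    have n1 := mul_nonneg hW1 (g1.cov_nonneg a b)
    have n2 := mul_nonneg hW2 (g2.cov_nonneg a b)
    have n3 := mul_nonneg hW3 (g3.cov_nonneg a b)
    have n4 := mul_nonneg hγ.le (g4.cov_nonneg a b)
    have hne : a ≠ b := fun h => hab (h ▸ le_rfl)
    rw [hcov]
    rcases q_cases hk a with ⟨i, rfl⟩ | ⟨ha1, ha2⟩ <;>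
      rcases q_cases hk b with ⟨j, rfl⟩ | ⟨hb1, hb2⟩
    · have h2 := a4 i j (fun h => hne (h ▸ rfl))
      have h3 : gam s * cov w4 (sing k i) (sing k j) = 1 := by
        rw [h2, gam]; field_simp
      linarith
    · rw [b2 i b hb2, a3 i b hb2] at *
      linarith
    · have hj : j ∉ a.1 := fun h => hab (show ({j} : Finset (Fin n)) ⊆ a.1 by simpa using h)
      have := mul_le_mul_of_nonneg_left (a0 a j ha2 hj) hW0
      linarith
    · have hr : 1 ≤ (b.1 \ a.1).card := by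
        apply card_pos.mpr
        rw [sdiff_nonempty]
        exact hab
      have hr' : (b.1 \ a.1).card ≤ k := le_trans (card_le_card sdiff_subset) hb1.le
      have h2 := mul_le_mul_of_nonneg_left (b0 a b hne ha2 hb2) hW0
      have h3 := hb _ hr hr'
      have h4 : (W1 + W2) / gam s
          = W1 * (s / (2 * ((s : ℝ) + 1))) + W2 * (s / (2 * ((s : ℝ) + 1))) := by
        rw [gam]; field_simp
      rw [a1 a b hne ha2 hb2, a2 a b hne ha2 hb2]
      linarith
  · rw [hcost]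
    have m1 := mul_le_mul_of_nonneg_left (c1 a) hW1
    have m2 := mul_le_mul_of_nonneg_left (c2 a) hW2
    have m3 := mul_le_mul_of_nonneg_left (c3 a) hW3
    have m4 := mul_le_mul_of_nonneg_left (c4 a) hγ.le
    rcases q_cases hk a with ⟨i, rfl⟩ | ⟨ha1, ha2⟩
    · rw [c0, d1]
      linarith
    · have := mul_le_mul_of_nonneg_left (d0 a ha2) hW0
      rw [d4 a ha2]
      linarith

section
variable {P P' : Type} [Fintype P] [DecidableEq P] [PartialOrder P] [Fintype P'] [DecidableEq P']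
  [PartialOrder P'] {t : ℕ}

lemma fldim_eq : fldim t P = sInf {M | Feas t P M} := by
  unfold fldim
  congr 1
  ext M
  simp only [Set.mem_ofPred_eq, Feas, isLoc_iff, cost_eq, and_assoc]

lemma Feas.nonneg [Nonempty P] {M : ℝ} (h : Feas t P M) : 0 ≤ M := by
  obtain ⟨w, hw, _, hc⟩ := h
  obtain ⟨x⟩ := ‹Nonempty P›
  exact le_trans (hw.cost_nonneg x) (hc x)

lemma Feas.fldim_le [Nonempty P] {M : ℝ} (h : Feas t P M) : fldim t P ≤ M := by
  rw [fldim_eq]
  exact csInf_le ⟨0, fun _ h => h.nonneg⟩ h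

lemma le_fldim {a : ℝ} (hne : ∃ M, Feas t P M) (h : ∀ M, Feas t P M → a ≤ M) :
    a ≤ fldim t P := by
  rw [fldim_eq]
  exact le_csInf hne h

lemma Feas.restrict (ι : P ↪o P') {M : ℝ} (h : Feas t P' M) : Feas t P M := by
  obtain ⟨w, hw, hc, hM⟩ := h
  obtain ⟨w', hw', hG⟩ := push_map (P := P) w hw.1 (fun f x => f (ι x)) (fun f hf => by
    have : PMono f := by
      by_contra h
      exact hf (hw.2 f h)
    intro x y a b hxy ha hb
    exact this _ _ a b (ι.monotone hxy) ha hb)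
  refine ⟨w', hw', fun x y hxy => ?_, fun x => ?_⟩
  · rw [cov, hG]
    exact hc (ι x) (ι y) (fun h => hxy (ι.le_iff_le.mp h))
  · rw [cost, hG]
    exact hM (ι x)

end

/-- The embedding of consecutive posets. -/
def qEmb (n k : ℕ) : Q n k ↪o Q (n + 1) k :=
  OrderEmbedding.ofMapLEIff (fun A => ⟨A.1.map Fin.castSuccEmb, by simpa using A.2⟩)
    (fun _ _ => map_subset_map)

lemma q_nonempty (n k : ℕ) : Nonempty (Q (n + 1) k) := ⟨sing k 0⟩

/-- The scaled critical point, with end values `0` and `1`. -/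
noncomputable def scal (s : ℕ) (θ : ℝ) (z : ℕ → ℝ) (j : ℕ) : ℝ :=
  if j = 0 then 0 else if j ≤ s then θ * z j else 1

section
variable {k s : ℕ} {z : ℕ → ℝ} {θ : ℝ}

lemma scal_zero : scal s θ z 0 = 0 := if_pos rfl

lemma scal_top : scal s θ z (s + 1) = 1 := by
  unfold scal
  rw [if_neg (by omega), if_neg (by omega)]

lemma scal_mid {j : ℕ} (h1 : 1 ≤ j) (h2 : j ≤ s) : scal s θ z j = θ * z j := by
  unfold scal
  rw [if_neg (by omega), if_pos h2]

lemma scal_mono (hs : 1 ≤ s) (h : Crit k s z) (h0 : 0 ≤ θ) (h1 : θ * z s ≤ 1) (j : ℕ)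
    (hj : j ≤ s) : scal s θ z j ≤ scal s θ z (j + 1) := by
  rcases Nat.eq_zero_or_pos j with rfl | hj0
  · rw [scal_zero, scal_mid le_rfl hs]
    exact mul_nonneg h0 (h.pos _).le
  · rw [scal_mid hj0 hj]
    rcases eq_or_lt_of_le hj with rfl | hlt
    · rw [scal_top]; exact h1
    · rw [scal_mid (by omega) hlt]
      exact mul_le_mul_of_nonneg_left (h.mono j) h0

lemma TT_scal (hs : 1 ≤ s) (h : Crit k s z) :
    TT k 1 s (scal s θ z)
      = θ ^ k * z s ^ k * (θ * (z 0 ^ k + (1 - z (s + 1))) - (θ - 1)) := by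
  obtain ⟨m, rfl⟩ : ∃ m, s = m + 1 := ⟨s - 1, by omega⟩
  have h1 := h.riem_z
  simp only [riem, TT] at h1 ⊢
  rw [sum_range_succ] at h1 ⊢
  have h2 : ∑ l ∈ range m, scal (m + 1) θ z (l + 1) ^ k
      * (scal (m + 1) θ z (l + 2) ^ 1 - scal (m + 1) θ z (l + 1) ^ 1)
      = θ ^ (k + 1) * ∑ j ∈ range m, (z (j + 2) - z (j + 1)) * z (j + 1) ^ k := by
    rw [mul_sum]
    apply sum_congr rfl
    intro l hl
    have := mem_range.mp hl
    rw [scal_mid (by omega) (by omega), scal_mid (by omega) (by omega)]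
    ring
  rw [h2, scal_top, scal_mid (by omega) le_rfl, eq_sub_of_add_eq h1]
  ring

lemma TT_nonneg {x : ℕ → ℝ} (h0 : x 0 = 0) (hm : ∀ j, j ≤ s → x j ≤ x (j + 1)) (r m : ℕ)
    (hms : m ≤ s) : 0 ≤ TT k r m x := by
  have hx : ∀ j, j ≤ s + 1 → 0 ≤ x j := by
    intro j
    induction j with
    | zero => intro _; exact h0.ge
    | succ j ih => intro hj; exact le_trans (ih (by omega)) (hm j (by omega))
  apply sum_nonneg
  intro l hl
  have := mem_range.mp hl
  have h1 := hx (l + 1) (by omega)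
  exact mul_nonneg (pow_nonneg h1 _)
    (sub_nonneg.mpr (pow_le_pow_left₀ h1 (hm (l + 1) (by omega)) r))

lemma feas_basic (n : ℕ) (hk : 2 ≤ k) (hs : 1 ≤ s) :
    Feas (s + 1) (Q n k) (ellValue (s + 1) k + 1 + gam s) := by
  obtain ⟨z, h⟩ := exists_crit (k := k) (by omega) hs
  have hc : 0 < z s ^ k := pow_pos (h.pos s) k
  have hl := h.lam_pos
  have hγ := gam_pos hs
  have hm := scal_mono hs h zero_le_one (by rw [one_mul]; exact le_trans (h.mono s) h.top)
  rw [h.ell (by omega) hs]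
  refine upper_general n hk hs scal_zero hm scal_top le_rfl zero_le_one (Or.inr rfl)
    (W0 := 1 / (z s ^ k * (z 0 ^ k + (1 - z (s + 1))))) (W1 := gam s) (W2 := 0) (W3 := 1)
    (by positivity) hγ.le le_rfl zero_le_one ?_ (fun r _ _ => ?_) (by simp) ?_ ?_
  · rw [TT_scal hs h]
    apply le_of_eq
    field_simp
    ring
  · have := TT_nonneg (k := k) scal_zero hm r (s - 1) (Nat.sub_le s 1)
    rw [add_zero, div_self hγ.ne', sub_zero, zero_mul, add_zero, one_mul]
    have : 0 ≤ 1 / (z s ^ k * (z 0 ^ k + (1 - z (s + 1)))) * TT k r (s - 1) (scal s 1 z) := by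
      positivity
    linarith
  · rw [scal_mid le_rfl hs, one_mul, h.bal]
    apply le_of_eq
    field_simp
    ring
  · rw [scal_mid hs le_rfl, one_mul]
    apply le_of_eq
    field_simp
    ring

end

/-- The limit of the fractional local dimensions. -/
noncomputable def FF (s k : ℕ) : ℝ := ⨆ n, fldim (s + 1) (Q (n + 1) k)

section
variable {k s : ℕ}

lemma FF_le {M : ℝ} (h : ∀ n, Feas (s + 1) (Q n k) M) : FF s k ≤ M :=
  ciSup_le (fun n => haveI := q_nonempty n k; (h (n + 1)).fldim_le)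

lemma tendsto_FF (hk : 2 ≤ k) (hs : 1 ≤ s) :
    Tendsto (fun n => fldim (s + 1) (Q n k)) atTop (𝓝 (FF s k)) := by
  rw [← tendsto_add_atTop_iff_nat 1]
  apply tendsto_atTop_ciSup
  · apply monotone_nat_of_le_succ
    intro n
    have := q_nonempty n k
    exact le_fldim ⟨_, feas_basic _ hk hs⟩ (fun M hM => (hM.restrict (qEmb _ _)).fldim_le)
  · refine ⟨ellValue (s + 1) k + 1 + gam s, ?_⟩
    rintro _ ⟨n, rfl⟩
    have := q_nonempty n k
    exact (feas_basic _ hk hs).fldim_le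

lemma tendsto_inv_choose (hk : 1 ≤ k) :
    Tendsto (fun n : ℕ => 1 / (n.choose k : ℝ)) atTop (𝓝 0) := by
  apply tendsto_const_nhds.div_atTop
  apply tendsto_natCast_atTop_atTop.comp
  obtain ⟨m, rfl⟩ : ∃ m, k = m + 1 := ⟨k - 1, by omega⟩
  rw [← tendsto_add_atTop_iff_nat m]
  apply tendsto_atTop_mono _ tendsto_id
  intro n
  induction m with
  | zero => simp
  | succ m ih =>
    rw [← add_assoc, Nat.choose_succ_succ']
    exact le_trans (ih (by omega)) (Nat.le_add_right _ _)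

lemma le_FF (hk : 2 ≤ k) (hs : 1 ≤ s) {ρ ν l μ : ℝ} (hρ : 0 ≤ ρ) (hν : 0 ≤ ν) (hl : 0 ≤ l)
    (hμ : 0 ≤ μ) (hpos : 0 < l + μ)
    (hdual : ∀ X Y c, Ty k s X Y c → ρ * RR s X Y + ν * PP s X ≤ l * c + μ * cumX X (s + 1)) :
    (ρ + ν) / (l + μ) ≤ FF s k := by
  have h1 : Tendsto (fun n : ℕ => (ρ * (1 - (k : ℝ) / n) + ν * (1 - 1 / (n.choose k : ℝ)))
      / (l + μ)) atTop (𝓝 ((ρ * (1 - 0) + ν * (1 - 0)) / (l + μ))) :=
    (((tendsto_const_nhds.sub (tendsto_const_div_atTop_nhds_zero_nat (k : ℝ))).const_mul ρ).add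
      ((tendsto_const_nhds.sub (tendsto_inv_choose (by omega))).const_mul ν)).div_const _
  simp only [sub_zero, mul_one] at h1
  refine le_of_tendsto_of_tendsto h1 (tendsto_FF hk hs) ?_
  filter_upwards [eventually_gt_atTop k] with n hn
  apply le_fldim ⟨_, feas_basic _ hk hs⟩
  rintro M ⟨w, hw, hc, hM⟩
  rw [div_le_iff₀' hpos]
  exact local_lower hn.le (by omega) hρ hν hl hμ hdual ((isLoc_iff w).mpr ⟨hw, hc⟩)
    (fun x => by rw [cost_eq]; exact hM x)

lemma ell_le_FF (hk : 2 ≤ k) (hs : 1 ≤ s) : ellValue (s + 1) k ≤ FF s k := by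
  obtain ⟨z, h⟩ := exists_crit (k := k) (by omega) hs
  rw [h.ell (by omega) hs]
  have := le_FF hk hs zero_le_one le_rfl (pow_nonneg (h.pos 0).le k) (sub_nonneg.mpr h.top)
    h.lam_pos (fun X Y c hT => by
      have := defi_nonneg (by omega) h hT
      simp only [defi] at this
      linarith)
  simpa using this

lemma FF_le_basic (hk : 2 ≤ k) (hs : 1 ≤ s) : FF s k ≤ ellValue (s + 1) k + 1 + gam s :=
  FF_le (fun n => feas_basic n hk hs)

end

end Pool.Agent.P.MP_654fb7_co
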