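import Pool.Agent.P.MP_654fb7_co.LEll

/-!
Lower bounds for the fractional local dimension by averaging.
-/

namespace Pool.Agent.P.MP_654fb7_co

open Finset

/-- Code of a value: `0` if undefined, `b + 1` for the level `b`. -/
def code {t : ℕ} : Option (Fin t) → ℕ
  | none => 0
  | some b => b + 1

lemma code_le {t : ℕ} (u : Option (Fin t)) : code u ≤ t := by
  cases u with
  | none => simp [code]
  | some b => simp only [code]; omega

lemma ne_none_iff {t : ℕ} (u : Option (Fin t)) : u ≠ none ↔ 0 < code u := by
  cases u <;> simp [code]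

lemma plt_iff {t : ℕ} (u v : Option (Fin t)) : PLt u v ↔ 0 < code u ∧ code u < code v := by
  cases u <;> cases v <;> simp [code, PLt]

lemma PMono.code_le {P : Type} [PartialOrder P] {t : ℕ} {f : P → Option (Fin t)} (hf : PMono f)
    {x y : P} (hxy : x ≤ y) (hy : 0 < code (f y)) : code (f x) ≤ code (f y) := by
  cases hx' : f x with
  | none => simp [code]
  | some a =>
    cases hy' : f y with
    | none => simp [hy', code] at hy
    | some b =>
      have := hf x y a b hxy hx' hy'
      simp only [code]
      omega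

lemma sum_levels {α : Type} (K : Finset α) (cd : α → ℕ) (s : ℕ) (hcd : ∀ A, cd A ≤ s + 1)
    (G : ℕ → ℝ) (hG : G 0 = 0) :
    ∑ A ∈ K, G (cd A)
      = ∑ a ∈ range (s + 1), ((K.filter (fun A => cd A = a + 1)).card : ℝ) * G (a + 1) := by
  rw [← sum_fiberwise_of_maps_to (t := range (s + 2)) (g := cd)
    (fun A _ => mem_range.mpr (by have := hcd A; omega)), sum_range_succ']
  have : ∑ A ∈ K.filter (fun A => cd A = 0), G (cd A) = 0 :=
    sum_eq_zero (fun A hA => by rw [(mem_filter.mp hA).2, hG])
  rw [this, add_zero]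
  apply sum_congr rfl
  intro a _
  rw [sum_congr rfl (fun A hA => by rw [(mem_filter.mp hA).2]), sum_const, nsmul_eq_mul]

lemma cum_levels {α : Type} (K : Finset α) (cd : α → ℕ) (N : ℝ) (a : ℕ) :
    cumX (fun b => ((K.filter (fun A => cd A = b + 1)).card : ℝ) / N) a
      = ((K.filter (fun A => 0 < cd A ∧ cd A < a + 1)).card : ℝ) / N := by
  classical
  induction a with
  | zero =>
    rw [cumX_zero, filter_false_of_mem (fun A _ => by omega)]
    simp
  | succ a ih =>
    rw [cumX_succ, ih, ← add_div]
    congr 1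
    have : K.filter (fun A => 0 < cd A ∧ cd A < a + 1 + 1)
        = K.filter (fun A => 0 < cd A ∧ cd A < a + 1) ∪ K.filter (fun A => cd A = a + 1) := by
      ext A
      simp only [mem_filter, mem_union]
      constructor
      · rintro ⟨h1, h2⟩
        by_cases h : cd A = a + 1
        · exact Or.inr ⟨h1, h⟩
        · exact Or.inl ⟨h1, by omega⟩
      · rintro (⟨h1, h2⟩ | ⟨h1, h2⟩) <;> exact ⟨h1, by omega⟩
    rw [this, card_union_of_disjoint]
    · push_cast; ring
    · rw [disjoint_filter]
      intro A _ h1 h2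
      omega

lemma descFactorial_mul_pow_le {m n : ℕ} (h : m ≤ n) (k : ℕ) :
    m.descFactorial k * n ^ k ≤ m ^ k * n.descFactorial k := by
  induction k with
  | zero => simp
  | succ k ih =>
    rw [Nat.descFactorial_succ, Nat.descFactorial_succ, pow_succ, pow_succ]
    have h1 : (m - k) * n ≤ m * (n - k) := by
      rw [Nat.sub_mul, Nat.mul_sub]
      have : m * k ≤ k * n := by rw [mul_comm]; exact Nat.mul_le_mul_left _ h
      omega
    calc (m - k) * m.descFactorial k * (n ^ k * n)
        = ((m - k) * n) * (m.descFactorial k * n ^ k) := by ring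
      _ ≤ (m * (n - k)) * (m ^ k * n.descFactorial k) := Nat.mul_le_mul h1 ih
      _ = _ := by ring

lemma choose_div_le {m n : ℕ} (h : m ≤ n) {k : ℕ} (hk : k ≤ n) (hn : 0 < n) :
    (m.choose k : ℝ) / (n.choose k : ℝ) ≤ ((m : ℝ) / n) ^ k := by
  have h1 := descFactorial_mul_pow_le h k
  rw [Nat.descFactorial_eq_factorial_mul_choose, Nat.descFactorial_eq_factorial_mul_choose] at h1
  have h2 : m.choose k * n ^ k ≤ m ^ k * n.choose k := by
    apply Nat.le_of_mul_le_mul_left _ k.factorial_pos
    calc _ = k.factorial * m.choose k * n ^ k := by ring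
      _ ≤ _ := h1
      _ = _ := by ring
  have hN : (0 : ℝ) < n.choose k := by exact_mod_cast Nat.choose_pos hk
  have hn' : (0 : ℝ) < n := by exact_mod_cast hn
  rw [div_pow, div_le_div_iff₀ hN (by positivity)]
  exact_mod_cast h2

/-- The singleton of `i` as an element of the poset. -/
def sing {n : ℕ} (k : ℕ) (i : Fin n) : Q n k := ⟨{i}, Or.inl (card_singleton i)⟩

/-- The elements of cardinality `k`. -/
def KK (n k : ℕ) : Finset (Q n k) := univ.filter (fun A => A.1.card = k)

lemma card_filter_sub {n k : ℕ} (U : Finset (Fin n)) :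
    ((KK n k).filter (fun A => A.1 ⊆ U)).card = U.card.choose k := by
  rw [← card_powersetCard, ← card_image_of_injective _ Subtype.val_injective]
  congr 1
  ext A
  simp only [KK, mem_image, mem_filter, mem_univ, true_and, mem_powersetCard]
  constructor
  · rintro ⟨B, ⟨h1, h2⟩, rfl⟩
    exact ⟨h2, h1⟩
  · rintro ⟨h1, h2⟩
    exact ⟨⟨A, Or.inr h2⟩, ⟨h2, h1⟩, rfl⟩

lemma card_KK (n k : ℕ) : (KK n k).card = n.choose k := by
  have := card_filter_sub (k := k) (univ : Finset (Fin n))
  rw [filter_true_of_mem (fun A _ => subset_univ _)] at this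
  simpa using this

section
variable {n k s : ℕ} (f : Q n k → Option (Fin (s + 1)))

/-- Density of sets on level `a`. -/
noncomputable def tX (a : ℕ) : ℝ :=
  (((KK n k).filter (fun A => code (f A) = a + 1)).card : ℝ) / (n.choose k : ℝ)

/-- Density of points above level `a`. -/
noncomputable def tY (a : ℕ) : ℝ :=
  ((univ.filter (fun i => a + 1 < code (f (sing k i)))).card : ℝ) / n

/-- Density of points. -/
noncomputable def tC : ℝ := ((univ.filter (fun i => 0 < code (f (sing k i)))).card : ℝ) / n

lemma ty_of_mono (hf : PMono f) (hk : k ≤ n) (hn : 0 < n) : Ty k s (tX f) (tY f) (tC f) := by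
  have hn' : (0 : ℝ) < n := by exact_mod_cast hn
  have hN : (0 : ℝ) < n.choose k := by exact_mod_cast Nat.choose_pos hk
  refine ⟨fun a => by unfold tX; positivity, fun a => by unfold tY; positivity, fun a => ?_,
    fun a => ?_, ?_, ?_, fun a => ?_⟩
  · rw [tY, div_le_one hn']
    have := card_filter_le (univ : Finset (Fin n)) (fun i => a + 1 < code (f (sing k i)))
    rw [card_univ, Fintype.card_fin] at this
    exact_mod_cast this
  · unfold tY
    apply div_le_div_of_nonneg_right _ hn'.le
    exact_mod_cast card_le_card (monotone_filter_right _ (fun i _ h => by omega))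
  · rw [tY, filter_false_of_mem (fun i _ => by have := code_le (f (sing k i)); omega)]
    simp
  · unfold tY tC
    apply div_le_div_of_nonneg_right _ hn'.le
    exact_mod_cast card_le_card (monotone_filter_right _ (fun i _ h => by omega))
  · have e := cum_levels (KK n k) (fun A => code (f A)) (n.choose k : ℝ) (a + 1)
    have e' : cumX (tX f) (a + 1) = _ := e
    rw [e']
    set U := univ.filter (fun i => ¬ a + 1 < code (f (sing k i))) with hU
    have h1 : ((KK n k).filter (fun A => 0 < code (f A) ∧ code (f A) < a + 1 + 1)).card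
        ≤ U.card.choose k := by
      rw [← card_filter_sub]
      apply card_le_card
      apply monotone_filter_right
      intro A _ hA i hi
      have h2 : sing k i ≤ A := by
        show ({i} : Finset (Fin n)) ⊆ A.1
        simpa using hi
      have := hf.code_le h2 hA.1
      simp only [hU, mem_filter, mem_univ, true_and]
      omega
    have h3 : 1 - tY f a = (U.card : ℝ) / n := by
      have := card_filter_add_card_filter_not (s := (univ : Finset (Fin n)))
        (fun i => a + 1 < code (f (sing k i)))
      rw [card_univ, Fintype.card_fin] at this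
      have h4 : ((univ.filter (fun i => a + 1 < code (f (sing k i)))).card : ℝ) + U.card = n := by
        exact_mod_cast this
      rw [tY]
      field_simp
      linarith
    have h5 : U.card ≤ n := by
      have := card_filter_le (univ : Finset (Fin n)) (fun i => ¬ a + 1 < code (f (sing k i)))
      rwa [card_univ, Fintype.card_fin] at this
    rw [h3]
    refine le_trans ?_ (choose_div_le h5 hk hn)
    apply div_le_div_of_nonneg_right _ hN.le
    exact_mod_cast h1

open Classical in
lemma count_R (hk : k ≤ n) (hn : 0 < n) :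
    ∑ A ∈ KK n k, ∑ i, (if PLt (f A) (f (sing k i)) then (1 : ℝ) else 0)
      = (n.choose k : ℝ) * n * RR s (tX f) (tY f) := by
  have hn' : (0 : ℝ) < n := by exact_mod_cast hn
  have hN : (0 : ℝ) < n.choose k := by exact_mod_cast Nat.choose_pos hk
  have h := sum_levels (KK n k) (fun A => code (f A)) s (fun A => code_le _)
    (fun b => if b = 0 then 0 else ((univ.filter (fun i => b < code (f (sing k i)))).card : ℝ))
    (by simp)
  rw [RR, mul_sum]
  refine Eq.trans ?_ (h.trans ?_)
  · apply sum_congr rfl
    intro A _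
    simp only [plt_iff]
    by_cases h0 : code (f A) = 0
    · simp [h0]
    · rw [if_neg h0, card_filter]
      push_cast
      apply sum_congr rfl
      intro i _
      have : 0 < code (f A) := Nat.pos_of_ne_zero h0
      simp [this]
  · apply sum_congr rfl
    intro a _
    rw [if_neg (Nat.succ_ne_zero a), tX, tY]
    field_simp

open Classical in
lemma count_P (hk : k ≤ n) :
    ∑ B ∈ KK n k, ∑ A ∈ KK n k, (if PLt (f A) (f B) then (1 : ℝ) else 0)
      = (n.choose k : ℝ) ^ 2 * PP s (tX f) := by
  have hN : (0 : ℝ) < n.choose k := by exact_mod_cast Nat.choose_pos hk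
  have h := sum_levels (KK n k) (fun A => code (f A)) s (fun A => code_le _)
    (fun b => (((KK n k).filter (fun A => 0 < code (f A) ∧ code (f A) < b)).card : ℝ))
    (by simp)
  rw [PP, mul_sum]
  refine Eq.trans ?_ (h.trans ?_)
  · apply sum_congr rfl
    intro B _
    simp only [plt_iff]
    rw [card_filter]
    push_cast
    apply sum_congr rfl
    intro A _
    congr
  · apply sum_congr rfl
    intro a _
    have e := cum_levels (KK n k) (fun A => code (f A)) (n.choose k : ℝ) a
    have e' : cumX (tX f) a = _ := e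
    rw [e', tX]
    field_simp

lemma count_C2 (hk : k ≤ n) :
    ∑ A ∈ KK n k, (if f A ≠ none then (1 : ℝ) else 0)
      = (n.choose k : ℝ) * cumX (tX f) (s + 1) := by
  have hN : (0 : ℝ) < n.choose k := by exact_mod_cast Nat.choose_pos hk
  have e := cum_levels (KK n k) (fun A => code (f A)) (n.choose k : ℝ) (s + 1)
  have e' : cumX (tX f) (s + 1) = _ := e
  rw [e', card_filter]
  push_cast
  field_simp
  apply sum_congr rfl
  intro A _
  have := code_le (f A)
  have h2 : code (f A) < s + 1 + 1 := by omega
  simp [ne_none_iff, h2]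

lemma count_C1 (hn : 0 < n) :
    ∑ i, (if f (sing k i) ≠ none then (1 : ℝ) else 0) = n * tC f := by
  have hn' : (0 : ℝ) < n := by exact_mod_cast hn
  rw [tC, card_filter]
  push_cast
  field_simp
  apply sum_congr rfl
  intro i _
  simp [ne_none_iff]

end

open Classical in
/-- The averaging lower bound. -/
lemma local_lower {n k s : ℕ} (hk : k ≤ n) (hn : 0 < n) {ρ ν l μ : ℝ} (hρ : 0 ≤ ρ) (hν : 0 ≤ ν)
    (hl : 0 ≤ l) (hμ : 0 ≤ μ)
    (hdual : ∀ X Y c, Ty k s X Y c → ρ * RR s X Y + ν * PP s X ≤ l * c + μ * cumX X (s + 1))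
    {w : (Q n k → Option (Fin (s + 1))) → ℝ} (hw : IsLocRealiser (s + 1) w) {M : ℝ}
    (hM : ∀ x, ∑ f ∈ univ.filter (fun f : Q n k → Option (Fin (s + 1)) => f x ≠ none), w f ≤ M) :
    ρ * (1 - (k : ℝ) / n) + ν * (1 - 1 / (n.choose k : ℝ)) ≤ (l + μ) * M := by
  obtain ⟨hw0, hwm, hwc⟩ := hw
  have hn' : (0 : ℝ) < n := by exact_mod_cast hn
  have hN : (0 : ℝ) < n.choose k := by exact_mod_cast Nat.choose_pos hk
  have hcov : ∀ x y : Q n k, ¬ x ≥ y →
      1 ≤ ∑ f, w f * (if PLt (f x) (f y) then (1 : ℝ) else 0) := by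
    intro x y h
    have := hwc x y h
    rw [sum_filter] at this
    simpa using this
  have hcov0 : ∀ x y : Q n k, 0 ≤ ∑ f, w f * (if PLt (f x) (f y) then (1 : ℝ) else 0) :=
    fun x y => sum_nonneg (fun f _ => mul_nonneg (hw0 f) (by split_ifs <;> norm_num))
  have hcost : ∀ x : Q n k, ∑ f, w f * (if f x ≠ none then (1 : ℝ) else 0) ≤ M := by
    intro x
    have := hM x
    rw [sum_filter] at this
    simpa using this
  have hR : 1 - (k : ℝ) / n ≤ ∑ f, w f * RR s (tX f) (tY f) := by
    have h1 : (n.choose k : ℝ) * ((n : ℝ) - k) ≤ ∑ A ∈ KK n k, ∑ i,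
        ∑ f, w f * (if PLt (f A) (f (sing k i)) then (1 : ℝ) else 0) := by
      rw [← card_KK, ← nsmul_eq_mul, ← sum_const]
      apply sum_le_sum
      intro A hA
      have hA' : A.1.card = k := by simpa [KK] using hA
      have h2 : ((A.1ᶜ).card : ℝ) = n - k := by
        rw [card_compl, Fintype.card_fin, hA', Nat.cast_sub hk]
      rw [← h2]
      refine le_trans ?_ (sum_le_sum_of_subset_of_nonneg (subset_univ A.1ᶜ)
        (fun i _ _ => hcov0 _ _))
      rw [card_eq_sum_ones]
      push_cast
      apply sum_le_sum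
      intro i hi
      apply hcov
      intro h
      have h' : ({i} : Finset (Fin n)) ⊆ A.1 := h
      exact (mem_compl.mp hi) (by simpa using h')
    have h3 : ∑ A ∈ KK n k, ∑ i, ∑ f, w f * (if PLt (f A) (f (sing k i)) then (1 : ℝ) else 0)
        = (n.choose k : ℝ) * n * ∑ f, w f * RR s (tX f) (tY f) := by
      rw [mul_sum]
      simp_rw [sum_comm (s := (univ : Finset (Fin n)))]
      rw [sum_comm]
      apply sum_congr rfl
      intro f _
      simp_rw [← mul_sum]
      rw [count_R f hk hn]
      ring
    rw [h3, mul_assoc] at h1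
    have h4 := le_of_mul_le_mul_left h1 hN
    have : 1 - (k : ℝ) / n = ((n : ℝ) - k) / n := by field_simp
    rw [this, div_le_iff₀ hn']
    linarith
  have hP : 1 - 1 / (n.choose k : ℝ) ≤ ∑ f, w f * PP s (tX f) := by
    have h1 : (n.choose k : ℝ) * ((n.choose k : ℝ) - 1) ≤ ∑ B ∈ KK n k, ∑ A ∈ KK n k,
        ∑ f, w f * (if PLt (f A) (f B) then (1 : ℝ) else 0) := by
      nth_rewrite 1 [← card_KK]
      rw [← nsmul_eq_mul, ← sum_const]
      apply sum_le_sum
      intro B hB
      have h2 : (((KK n k).erase B).card : ℝ) = (n.choose k : ℝ) - 1 := by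
        rw [card_erase_of_mem hB, card_KK, Nat.cast_sub (Nat.choose_pos hk)]
        simp
      rw [← h2]
      refine le_trans ?_ (sum_le_sum_of_subset_of_nonneg (erase_subset B (KK n k))
        (fun i _ _ => hcov0 _ _))
      rw [card_eq_sum_ones]
      push_cast
      apply sum_le_sum
      intro A hA
      apply hcov
      intro h
      have h' : B.1 ⊆ A.1 := h
      have hA' : A.1.card = k := by simpa [KK] using (mem_erase.mp hA).2
      have hB' : B.1.card = k := by simpa [KK] using hB
      exact (mem_erase.mp hA).1 (Subtype.ext (eq_of_subset_of_card_le h' (by omega)).symm)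
    have h3 : ∑ B ∈ KK n k, ∑ A ∈ KK n k, ∑ f, w f * (if PLt (f A) (f B) then (1 : ℝ) else 0)
        = (n.choose k : ℝ) ^ 2 * ∑ f, w f * PP s (tX f) := by
      rw [mul_sum]
      simp_rw [sum_comm (s := KK n k) (t := (univ : Finset (Q n k → Option (Fin (s + 1)))))]
      apply sum_congr rfl
      intro f _
      simp_rw [← mul_sum]
      rw [count_P f hk]
      ring
    rw [h3, sq, mul_assoc] at h1
    have h4 := le_of_mul_le_mul_left h1 hN
    have : 1 - 1 / (n.choose k : ℝ) = ((n.choose k : ℝ) - 1) / (n.choose k : ℝ) := by field_simp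
    rw [this, div_le_iff₀ hN]
    linarith
  have hC1 : ∑ f, w f * tC f ≤ M := by
    have h1 : ∑ i, ∑ f, w f * (if f (sing k i) ≠ none then (1 : ℝ) else 0) ≤ n * M := by
      refine le_trans (sum_le_sum (fun i _ => hcost (sing k i))) (by simp)
    rw [sum_comm] at h1
    simp_rw [← mul_sum, count_C1 _ hn, mul_left_comm _ (n : ℝ), ← mul_sum] at h1
    exact le_of_mul_le_mul_left h1 hn'
  have hC2 : ∑ f, w f * cumX (tX f) (s + 1) ≤ M := by
    have h1 : ∑ A ∈ KK n k, ∑ f, w f * (if f A ≠ none then (1 : ℝ) else 0)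
        ≤ (n.choose k : ℝ) * M := by
      refine le_trans (sum_le_sum (fun A _ => hcost A)) (by simp [card_KK])
    rw [sum_comm] at h1
    simp_rw [← mul_sum, count_C2 _ hk, mul_left_comm _ (n.choose k : ℝ), ← mul_sum] at h1
    exact le_of_mul_le_mul_left h1 hN
  have hsum : ρ * ∑ f, w f * RR s (tX f) (tY f) + ν * ∑ f, w f * PP s (tX f)
      ≤ l * ∑ f, w f * tC f + μ * ∑ f, w f * cumX (tX f) (s + 1) := by
    simp only [mul_sum, ← sum_add_distrib]
    apply sum_le_sum
    intro f _
    by_cases hf : PMono f
    · have := mul_le_mul_of_nonneg_left (hdual _ _ _ (ty_of_mono f hf hk hn)) (hw0 f)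
      linarith
    · simp [hwm f hf]
  nlinarith [mul_le_mul_of_nonneg_left hR hρ, mul_le_mul_of_nonneg_left hP hν,
    mul_le_mul_of_nonneg_left hC1 hl, mul_le_mul_of_nonneg_left hC2 hμ]

end Pool.Agent.P.MP_654fb7_co
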