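import Pool.Agent.P.MP_654fb7_co.LDefs

/-!
The balanced critical point of the lower Riemann sum and the dual inequality.
-/

namespace Pool.Agent.P.MP_654fb7_co

open Finset

/-- The stationarity recursion started from `1, a`. -/
noncomputable def vv (k : ℕ) (a : ℝ) : ℕ → ℝ
  | 0 => 1
  | 1 => a
  | j + 2 => vv k a (j + 1) + vv k a (j + 1) * (1 - (vv k a j / vv k a (j + 1)) ^ k) / k

lemma vv_step {k : ℕ} {a : ℝ} (ha : 1 ≤ a) :
    ∀ j, 0 < vv k a j ∧ vv k a j ≤ vv k a (j + 1) := by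
  intro j
  induction j with
  | zero => exact ⟨by simp [vv], by simpa [vv] using ha⟩
  | succ j ih =>
    obtain ⟨h0, h1⟩ := ih
    have h2 : 0 < vv k a (j + 1) := lt_of_lt_of_le h0 h1
    refine ⟨h2, ?_⟩
    have h3 : (vv k a j / vv k a (j + 1)) ^ k ≤ 1 :=
      pow_le_one₀ (by positivity) (div_le_one_of_le₀ h1 h2.le)
    have h4 : 0 ≤ vv k a (j + 1) * (1 - (vv k a j / vv k a (j + 1)) ^ k) / k := by
      have : 0 ≤ 1 - (vv k a j / vv k a (j + 1)) ^ k := by linarith
      positivity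
    show vv k a (j + 1) ≤ vv k a (j + 1) + _
    linarith

lemma vv_le {k : ℕ} (hk : 1 ≤ k) {a : ℝ} (ha : 1 ≤ a) : ∀ j, vv k a (j + 1) ≤ 2 ^ j * a := by
  intro j
  induction j with
  | zero => simp [vv]
  | succ j ih =>
    have h0 := (vv_step (k := k) ha j).1
    have h2 := (vv_step (k := k) ha (j + 1)).1
    have hk' : (1 : ℝ) ≤ k := by exact_mod_cast hk
    have h3 : 0 ≤ (vv k a j / vv k a (j + 1)) ^ k := by positivity
    have h4 : vv k a (j + 1) * (1 - (vv k a j / vv k a (j + 1)) ^ k) / k ≤ vv k a (j + 1) := by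
      rw [div_le_iff₀ (by linarith)]
      nlinarith
    show vv k a (j + 1) + _ ≤ _
    rw [pow_succ]
    linarith

lemma vv_cont (k : ℕ) : ∀ j, ContinuousOn (fun a => vv k a j) (Set.Ici 1) ∧
    ContinuousOn (fun a => vv k a (j + 1)) (Set.Ici 1) := by
  intro j
  induction j with
  | zero => exact ⟨by simpa [vv] using continuousOn_const, by simpa [vv] using continuousOn_id' _⟩
  | succ j ih =>
    obtain ⟨h0, h1⟩ := ih
    refine ⟨h1, ?_⟩
    show ContinuousOn (fun a => vv k a (j + 1)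
      + vv k a (j + 1) * (1 - (vv k a j / vv k a (j + 1)) ^ k) / k) _
    refine h1.add ((h1.mul (continuousOn_const.sub ((h0.div h1 ?_).pow k))).div_const _)
    intro a ha
    exact (vv_step (k := k) ha (j + 1)).1.ne'

lemma vv_one (k : ℕ) : ∀ j, vv k 1 j = 1 ∧ vv k 1 (j + 1) = 1 := by
  intro j
  induction j with
  | zero => simp [vv]
  | succ j ih =>
    refine ⟨ih.2, ?_⟩
    show vv k 1 (j + 1) + _ = _
    simp [ih.1, ih.2]

/-- The balanced critical point for `s + 1` levels. -/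
structure Crit (k s : ℕ) (z : ℕ → ℝ) : Prop where
  pos : ∀ j, 0 < z j
  mono : ∀ j, z j ≤ z (j + 1)
  top : z (s + 1) ≤ 1
  stat : ∀ j, (k : ℝ) * (z (j + 2) - z (j + 1)) = z (j + 1) * (1 - (z j / z (j + 1)) ^ k)
  bal : 1 - z 1 = z s ^ k
  tight : ∑ j ∈ range (s + 1), (z (j + 1) - z j) * z j ^ k = z 0 ^ k * (1 - z 0)

lemma exists_crit {k s : ℕ} (hk : 1 ≤ k) (hs : 1 ≤ s) : ∃ z, Crit k s z := by
  have hk' : (1 : ℝ) ≤ k := by exact_mod_cast hk
  let σ : ℝ → ℝ := fun a => ∑ j ∈ range (s + 1), (vv k a (j + 1) - vv k a j) * vv k a j ^ k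
  have hterm : ∀ a, 1 ≤ a → ∀ j, 0 ≤ (vv k a (j + 1) - vv k a j) * vv k a j ^ k := by
    intro a ha j
    have := vv_step (k := k) ha j
    exact mul_nonneg (by linarith [this.2]) (pow_nonneg this.1.le _)
  have hσ0 : ∀ a, 1 ≤ a → 0 ≤ σ a := fun a ha => sum_nonneg (fun j _ => hterm a ha j)
  have hσc : ContinuousOn σ (Set.Ici 1) :=
    continuousOn_finsetSum _ (fun j _ =>
      ((vv_cont k j).2.sub (vv_cont k j).1).mul ((vv_cont k j).1.pow k))
  let φ : ℝ → ℝ := fun a => 1 - vv k a 1 / (1 + σ a) - (vv k a s / (1 + σ a)) ^ k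
  have hne : ∀ a ∈ Set.Ici (1 : ℝ), 1 + σ a ≠ 0 := fun a ha => by
    have := hσ0 a ha; positivity
  have hφc : ContinuousOn φ (Set.Ici 1) :=
    (continuousOn_const.sub ((vv_cont k 1).1.div (continuousOn_const.add hσc) hne)).sub
      (((vv_cont k s).1.div (continuousOn_const.add hσc) hne).pow k)
  have hφ1 : φ 1 = -1 := by
    have : σ 1 = 0 := by
      apply sum_eq_zero
      intro j _
      simp [(vv_one k j).1, (vv_one k j).2]
    simp [φ, this, (vv_one k 1).1, (vv_one k s).1]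
  set A : ℝ := 1 + 4 * 2 ^ s * k with hA
  have hp : (0 : ℝ) < 2 ^ s := by positivity
  have hA1 : 1 ≤ A := by rw [hA]; nlinarith
  have hφA : 0 < φ A := by
    have h1 : (vv k A 2 - vv k A 1) * vv k A 1 ^ k ≤ σ A :=
      single_le_sum (f := fun j => (vv k A (j + 1) - vv k A j) * vv k A j ^ k)
        (fun j _ => hterm A hA1 j) (mem_range.mpr (by omega))
    have hA0 : 0 < A := by linarith
    have h2 : (vv k A 2 - vv k A 1) * vv k A 1 ^ k = A * (A ^ k - 1) / k := by
      simp only [vv]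
      rw [div_pow, one_pow]
      field_simp
      ring
    have h3 : A ≤ A ^ k := le_self_pow₀ hA1 (by omega)
    have h4 : A * (4 * 2 ^ s) ≤ σ A := by
      refine le_trans ?_ (h2 ▸ h1)
      rw [le_div_iff₀ (by linarith)]
      have : 4 * 2 ^ s * (k : ℝ) ≤ A ^ k - 1 := by linarith
      nlinarith
    have h5 : ∀ j, j ≤ s → vv k A j / (1 + σ A) ≤ 1 / 4 := by
      intro j hj
      have h6 : vv k A j ≤ 2 ^ s * A := by
        refine le_trans (vv_step (k := k) hA1 j).2 (le_trans (vv_le hk hA1 j) ?_)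
        exact mul_le_mul_of_nonneg_right (pow_le_pow_right₀ (by norm_num) hj) hA0.le
      rw [div_le_iff₀ (by have := hσ0 A hA1; positivity)]
      nlinarith
    have h7 := h5 1 hs
    have h8 := h5 s le_rfl
    have h9 : 0 ≤ vv k A s / (1 + σ A) := by
      have := hσ0 A hA1
      have := (vv_step (k := k) hA1 s).1
      positivity
    have h10 : (vv k A s / (1 + σ A)) ^ k ≤ vv k A s / (1 + σ A) :=
      pow_le_of_le_one h9 (by linarith) (by omega)
    simp only [φ]
    linarith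
  obtain ⟨a, ha, hφ⟩ : ∃ a ∈ Set.Icc 1 A, φ a = 0 :=
    intermediate_value_Icc hA1 (hφc.mono Set.Icc_subset_Ici_self) ⟨by linarith, hφA.le⟩
  have ha1 : 1 ≤ a := ha.1
  have hD : 0 < 1 + σ a := by have := hσ0 a ha1; positivity
  have htight : ∑ j ∈ range (s + 1), (vv k a (j + 1) / (1 + σ a) - vv k a j / (1 + σ a))
      * (vv k a j / (1 + σ a)) ^ k = σ a / (1 + σ a) ^ (k + 1) := by
    simp only [σ]
    rw [sum_div]
    apply sum_congr rfl
    intro j _
    rw [div_pow, ← sub_div, div_mul_div_comm, pow_succ']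
  have hv0 : vv k a 0 = 1 := rfl
  refine ⟨fun j => vv k a j / (1 + σ a), fun j => div_pos (vv_step ha1 j).1 hD,
    fun j => div_le_div_of_nonneg_right (vv_step ha1 j).2 hD.le, ?_, ?_, ?_, ?_⟩
  · rw [div_le_one hD]
    have h1 : ∑ j ∈ range (s + 1), (vv k a (j + 1) - vv k a j) ≤ σ a := by
      apply sum_le_sum
      intro j _
      have hm : Monotone (vv k a) := monotone_nat_of_le_succ (fun j => (vv_step ha1 j).2)
      have h2 : 1 ≤ vv k a j := hv0 ▸ hm (Nat.zero_le j)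
      have h3 : 1 ≤ vv k a j ^ k := one_le_pow₀ h2
      have h4 := (vv_step (k := k) ha1 j).2
      nlinarith
    rw [sum_range_sub, hv0] at h1
    linarith
  · intro j
    have h1 := (vv_step (k := k) ha1 (j + 1)).1
    rw [div_div_div_cancel_right₀ hD.ne']
    have : vv k a (j + 2) = vv k a (j + 1)
      + vv k a (j + 1) * (1 - (vv k a j / vv k a (j + 1)) ^ k) / k := rfl
    rw [this]
    field_simp
    ring
  · simp only [φ] at hφ
    linarith
  · rw [htight, hv0, div_pow, one_pow]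
    field_simp
    ring

/-- Weighted arithmetic-geometric inequality with a quantitative slack. -/
lemma amgm_slack {k : ℕ} (hk : 1 ≤ k) {v : ℝ} (hv : 0 ≤ v) :
    (1 - √(v ^ k)) ^ 2 ≤ 1 + k * v ^ (k + 1) - (k + 1) * v ^ k := by
  have hk' : (0 : ℝ) < k := by exact_mod_cast hk
  rcases hv.eq_or_lt with h | h
  · have : k ≠ 0 := by omega
    simp [← h, this]
  · set u := √(v ^ k) with hu
    have hw : 0 < v ^ k := by positivity
    have hu0 : 0 < u := Real.sqrt_pos.mpr hw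
    have hu2 : u ^ 2 = v ^ k := Real.sq_sqrt hw.le
    have h1 : Real.log v ≤ v - 1 := Real.log_le_sub_one_of_pos h
    have h2 : 1 - u⁻¹ ≤ Real.log u := Real.one_sub_inv_le_log_of_pos hu0
    have h3 : 2 * Real.log u = k * Real.log v := by
      have := congrArg Real.log hu2
      rw [Real.log_pow, Real.log_pow] at this
      exact_mod_cast this
    have h4 : 2 * (1 - u⁻¹) ≤ k * (v - 1) := by nlinarith
    have h5 : u ^ 2 * (2 * (1 - u⁻¹)) = 2 * u ^ 2 - 2 * u := by field_simp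
    have h6 : u ^ 2 * (2 * (1 - u⁻¹)) ≤ u ^ 2 * (k * (v - 1)) :=
      mul_le_mul_of_nonneg_left h4 (by positivity)
    rw [pow_succ v k, ← hu2]
    nlinarith

/-- The slack of the inequality at step `j`. -/
noncomputable def slack (k : ℕ) (z ζ : ℕ → ℝ) (j : ℕ) : ℝ :=
  (z j / z (j + 1)) ^ k / (k + 1) * ζ (j + 1) ^ (k + 1)
    + k / (k + 1) * (z (j + 1) / z j) * ζ j ^ (k + 1) - ζ (j + 1) * ζ j ^ k

lemma slack_ge {k : ℕ} (hk : 1 ≤ k) {z ζ : ℕ → ℝ} {j : ℕ} (h0 : 0 < z j) (h1 : 0 < z (j + 1))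
    (ha : 0 ≤ ζ j) (hb : 0 < ζ (j + 1)) :
    z (j + 1) * z j ^ k * (ζ (j + 1) / z (j + 1)) ^ (k + 1) / (k + 1)
      * (1 - √(((ζ j / z j) / (ζ (j + 1) / z (j + 1))) ^ k)) ^ 2 ≤ slack k z ζ j := by
  set v := (ζ j / z j) / (ζ (j + 1) / z (j + 1)) with hv
  have h := amgm_slack hk (v := v) (by positivity)
  have hc : 0 ≤ z (j + 1) * z j ^ k * (ζ (j + 1) / z (j + 1)) ^ (k + 1) / (k + 1) := by positivity
  refine le_trans (mul_le_mul_of_nonneg_left h hc) (le_of_eq ?_)
  have e : ζ j = v * (z j * (ζ (j + 1) / z (j + 1))) := by rw [hv]; field_simp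
  simp only [slack]
  rw [e]
  simp only [mul_pow, div_pow, pow_succ]
  field_simp

lemma slack_nonneg {k : ℕ} (hk : 1 ≤ k) {z ζ : ℕ → ℝ} {j : ℕ} (h0 : 0 < z j) (h1 : 0 < z (j + 1))
    (ha : 0 ≤ ζ j) (hb : 0 ≤ ζ (j + 1)) : 0 ≤ slack k z ζ j := by
  rcases hb.eq_or_lt with h | h
  · simp only [slack, ← h]
    simp only [ne_eq, Nat.add_eq_zero_iff, one_ne_zero, and_false, not_false_eq_true, zero_pow,
      mul_zero, zero_add, zero_mul, sub_zero]
    positivity
  · exact le_trans (by positivity) (slack_ge hk h0 h1 ha h)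

lemma slack_self {k : ℕ} {z : ℕ → ℝ} {j : ℕ} (h0 : 0 < z j) (h1 : 0 < z (j + 1)) :
    slack k z z j = 0 := by
  simp only [slack, div_pow, pow_succ]
  field_simp
  ring

lemma Crit.tele {k s : ℕ} {z : ℕ → ℝ} (h : Crit k s z) (ζ : ℕ → ℝ) (m : ℕ) :
    ∑ j ∈ range (m + 1), ((ζ (j + 1) - ζ j) * ζ j ^ k + slack k z ζ j)
      = (z m / z (m + 1)) ^ k / (k + 1) * ζ (m + 1) ^ (k + 1)
        - (1 - k / (k + 1) * (z 1 / z 0)) * ζ 0 ^ (k + 1) := by
  induction m with
  | zero => simp only [zero_add, range_one, sum_singleton, slack]; ring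
  | succ m ih =>
    rw [sum_range_succ, ih]
    have h1 := h.stat m
    have h2 := h.pos (m + 1)
    have h3 : (z m / z (m + 1)) ^ k / (k + 1) = 1 - k / (k + 1) * (z (m + 2) / z (m + 1)) := by
      have : (z m / z (m + 1)) ^ k = 1 - k * (z (m + 2) - z (m + 1)) / z (m + 1) := by
        rw [h1]; field_simp; ring
      rw [this]
      field_simp
      ring
    simp only [slack]
    rw [h3]
    ring

/-- The dual identity. -/
lemma Crit.dual {k s : ℕ} {z : ℕ → ℝ} (h : Crit k s z) (ζ : ℕ → ℝ) (h0 : ζ 0 = z 0)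
    (h1 : ζ (s + 1) = z (s + 1)) :
    ∑ j ∈ range s, (ζ (j + 2) - ζ (j + 1)) * ζ (j + 1) ^ k + ∑ j ∈ range (s + 1), slack k z ζ j
      = z 0 ^ k * (1 - ζ 1) := by
  have e1 := h.tele ζ s
  have e2 := h.tele z s
  rw [h0, h1, ← e2, sum_add_distrib, sum_add_distrib, h.tight,
    sum_eq_zero (fun j _ => slack_self (h.pos j) (h.pos (j + 1))), sum_range_succ', h0] at e1
  linarith

end Pool.Agent.P.MP_654fb7_co
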