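import Pool.Agent.P.MP_654fb7_co.LLow

/-!
Weightings obtained from random maps, and product probabilities.
-/

namespace Pool.Agent.P.MP_654fb7_co

open Finset

open Classical in
/-- Indicator of a proposition. -/
noncomputable def ind (p : Prop) : ℝ := if p then 1 else 0

lemma ind_pos {p : Prop} (h : p) : ind p = 1 := by simp [ind, h]

lemma ind_neg {p : Prop} (h : ¬ p) : ind p = 0 := by simp [ind, h]

lemma ind_nonneg (p : Prop) : 0 ≤ ind p := by unfold ind; split_ifs <;> norm_num

lemma ind_le_one (p : Prop) : ind p ≤ 1 := by unfold ind; split_ifs <;> norm_num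

lemma ind_and (p q : Prop) : ind (p ∧ q) = ind p * ind q := by
  by_cases hp : p <;> by_cases hq : q <;> simp [ind, hp, hq]

lemma ind_congr {p q : Prop} (h : p ↔ q) : ind p = ind q := by rw [propext h]

lemma ind_mono {p q : Prop} (h : p → q) : ind p ≤ ind q := by
  by_cases hp : p
  · rw [ind_pos hp, ind_pos (h hp)]
  · rw [ind_neg hp]; exact ind_nonneg _

section
variable {P : Type} [Fintype P] [DecidableEq P] {t : ℕ}

/-- Weight of the maps separating an ordered pair. -/
noncomputable def cov (w : (P → Option (Fin t)) → ℝ) (x y : P) : ℝ :=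
  ∑ f, w f * ind (PLt (f x) (f y))

/-- Weight of the maps defined at a point. -/
noncomputable def cost (w : (P → Option (Fin t)) → ℝ) (x : P) : ℝ :=
  ∑ f, w f * ind (f x ≠ none)

variable [PartialOrder P]

/-- Nonnegative weightings supported on monotone maps. -/
def Good (w : (P → Option (Fin t)) → ℝ) : Prop :=
  (∀ f, 0 ≤ w f) ∧ ∀ f, ¬ PMono f → w f = 0

lemma Good.cov_nonneg {w : (P → Option (Fin t)) → ℝ} (h : Good w) (x y : P) : 0 ≤ cov w x y :=
  sum_nonneg (fun f _ => mul_nonneg (h.1 f) (ind_nonneg _))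

lemma Good.cost_nonneg {w : (P → Option (Fin t)) → ℝ} (h : Good w) (x : P) : 0 ≤ cost w x :=
  sum_nonneg (fun f _ => mul_nonneg (h.1 f) (ind_nonneg _))

open Classical in
lemma isLoc_iff (w : (P → Option (Fin t)) → ℝ) :
    IsLocRealiser t w ↔ Good w ∧ ∀ x y : P, ¬ x ≥ y → 1 ≤ cov w x y := by
  simp only [IsLocRealiser, Good, cov, ind, sum_filter, and_assoc, mul_ite, mul_one, mul_zero]

omit [PartialOrder P] in
lemma cost_eq (w : (P → Option (Fin t)) → ℝ) (x : P) :
    ∑ f ∈ univ.filter (fun f : P → Option (Fin t) => f x ≠ none), w f = cost w x := by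
  rw [sum_filter, cost]
  apply sum_congr rfl
  intro f _
  by_cases h : f x ≠ none
  · rw [if_pos h, ind_pos h, mul_one]
  · rw [if_neg h, ind_neg h, mul_zero]

lemma fldim_bdd [Nonempty P] : BddBelow {c : ℝ | ∃ w : (P → Option (Fin t)) → ℝ,
    IsLocRealiser t w ∧
      ∀ x : P, ∑ f ∈ univ.filter (fun f : P → Option (Fin t) => f x ≠ none), w f ≤ c} := by
  refine ⟨0, ?_⟩
  rintro c ⟨w, hw, hc⟩
  obtain ⟨x⟩ := ‹Nonempty P›
  exact le_trans (sum_nonneg (fun f _ => hw.1 f)) (hc x)

lemma fldim_le [Nonempty P] {w : (P → Option (Fin t)) → ℝ} (hw : Good w)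
    (hc : ∀ x y : P, ¬ x ≥ y → 1 ≤ cov w x y) {M : ℝ} (hM : ∀ x, cost w x ≤ M) :
    fldim t P ≤ M :=
  csInf_le fldim_bdd ⟨w, (isLoc_iff w).mpr ⟨hw, hc⟩, fun x => by rw [cost_eq]; exact hM x⟩

/-- Decoding of a level code. -/
def decode (t c : ℕ) : Option (Fin t) :=
  if h : 0 < c ∧ c ≤ t then some ⟨c - 1, by omega⟩ else none

lemma code_decode {c : ℕ} (h : c ≤ t) : code (decode t c) = c := by
  unfold decode
  split_ifs with h'
  · simp only [code]; omega
  · simp only [code]; omega

lemma push_map {Ω : Type} [Fintype Ω] (p : Ω → ℝ) (hp : ∀ ω, 0 ≤ p ω)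
    (Φ : Ω → P → Option (Fin t)) (hm : ∀ ω, p ω ≠ 0 → PMono (Φ ω)) :
    ∃ w : (P → Option (Fin t)) → ℝ, Good w ∧
      ∀ G : (P → Option (Fin t)) → ℝ, ∑ f, w f * G f = ∑ ω, p ω * G (Φ ω) := by
  classical
  refine ⟨fun f => ∑ ω ∈ univ.filter (fun ω => Φ ω = f), p ω,
    ⟨fun f => sum_nonneg (fun ω _ => hp ω), fun f hf => ?_⟩, fun G => ?_⟩
  · apply sum_eq_zero
    intro ω hω
    by_contra h
    exact hf ((mem_filter.mp hω).2 ▸ hm ω h)
  · rw [← sum_fiberwise (s := univ) (g := Φ)]
    apply sum_congr rfl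
    intro f _
    rw [sum_mul]
    apply sum_congr rfl
    intro ω hω
    rw [(mem_filter.mp hω).2]

lemma push_code {Ω : Type} [Fintype Ω] (p : Ω → ℝ) (hp : ∀ ω, 0 ≤ p ω) (φ : Ω → P → ℕ)
    (hle : ∀ ω x, φ ω x ≤ t)
    (hm : ∀ ω x y, x ≤ y → 0 < φ ω x → 0 < φ ω y → φ ω x ≤ φ ω y) :
    ∃ w : (P → Option (Fin t)) → ℝ, Good w ∧
      (∀ x y, cov w x y = ∑ ω, p ω * ind (0 < φ ω x ∧ φ ω x < φ ω y)) ∧
      ∀ x, cost w x = ∑ ω, p ω * ind (0 < φ ω x) := by
  obtain ⟨w, hw, hG⟩ := push_map (t := t) p hp (fun ω x => decode t (φ ω x)) (by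
    intro ω _ x y a b hxy ha hb
    have h1 := code_decode (hle ω x)
    have h2 := code_decode (hle ω y)
    beta_reduce at ha hb
    rw [ha] at h1
    rw [hb] at h2
    simp only [code] at h1 h2
    have := hm ω x y hxy (by omega) (by omega)
    rw [Fin.le_def]
    omega)
  refine ⟨w, hw, fun x y => ?_, fun x => ?_⟩
  · rw [cov, hG]
    simp only [plt_iff, code_decode (hle _ _)]
  · rw [cost, hG]
    simp only [ne_none_iff, code_decode (hle _ _)]

end

lemma prob_two {ι β : Type} [Fintype ι] [DecidableEq ι] [Fintype β] (p : β → ℝ)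
    (hp : ∑ r, p r = 1) (A B : Finset ι) (hd : Disjoint A B) (U V : β → Prop) :
    ∑ g : ι → β, (∏ a, p (g a)) * ind ((∀ a ∈ A, U (g a)) ∧ ∀ b ∈ B, V (g b))
      = (∑ r, p r * ind (U r)) ^ A.card * (∑ r, p r * ind (V r)) ^ B.card := by
  classical
  let T : ι → β → ℝ := fun a r =>
    if a ∈ A then p r * ind (U r) else if a ∈ B then p r * ind (V r) else p r
  have e : ∀ g : ι → β, (∏ a, p (g a)) * ind ((∀ a ∈ A, U (g a)) ∧ ∀ b ∈ B, V (g b))
      = ∏ a, T a (g a) := by
    intro g
    by_cases h : (∀ a ∈ A, U (g a)) ∧ ∀ b ∈ B, V (g b)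
    · rw [ind_pos h, mul_one]
      apply prod_congr rfl
      intro a _
      simp only [T]
      split_ifs with h1 h2
      · rw [ind_pos (h.1 a h1), mul_one]
      · rw [ind_pos (h.2 a h2), mul_one]
      · rfl
    · rw [ind_neg h, mul_zero]
      symm
      rw [not_and_or] at h
      rcases h with h | h
      · push Not at h
        obtain ⟨a, ha, hU⟩ := h
        exact prod_eq_zero (mem_univ a) (by simp only [T]; rw [if_pos ha, ind_neg hU, mul_zero])
      · push Not at h
        obtain ⟨a, ha, hU⟩ := h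
        have : a ∉ A := fun h' => disjoint_left.mp hd h' ha
        exact prod_eq_zero (mem_univ a)
          (by simp only [T]; rw [if_neg this, if_pos ha, ind_neg hU, mul_zero])
  simp only [e]
  have := prod_univ_sum (fun _ : ι => (univ : Finset β)) T
  rw [Fintype.piFinset_univ] at this
  rw [← this, ← prod_const, ← prod_const, ← prod_subset (subset_univ (A ∪ B)), prod_union hd]
  · congr 1
    · exact prod_congr rfl (fun a ha => by simp only [T, if_pos ha])
    · refine prod_congr rfl (fun a ha => ?_)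
      have : a ∉ A := fun h' => disjoint_left.mp hd h' ha
      simp only [T, if_neg this, if_pos ha]
  · intro a _ ha
    rw [mem_union, not_or] at ha
    simp only [T, if_neg ha.1, if_neg ha.2, hp]

lemma prob_pair {ι β : Type} [Fintype ι] [DecidableEq ι] [Fintype β] (p : β → ℝ)
    (hp : ∑ r, p r = 1) {i j : ι} (hij : i ≠ j) (F : β → β → ℝ) :
    ∑ g : ι → β, (∏ a, p (g a)) * F (g i) (g j) = ∑ a, ∑ b, p a * p b * F a b := by
  classical
  have h1 : ∀ a, ∑ r, p r * ind (r = a) = p a := by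
    intro a
    rw [sum_eq_single a (fun r _ hr => by rw [ind_neg hr, mul_zero]) (by simp), ind_pos rfl,
      mul_one]
  have h2 : ∀ a b, ∑ g : ι → β, (∏ a, p (g a)) * ind (g i = a ∧ g j = b) = p a * p b := by
    intro a b
    have := prob_two p hp {i} {j} (by simpa using hij) (fun r => r = a) (fun r => r = b)
    simpa [h1] using this
  simp only [← h2, sum_mul]
  symm
  rw [sum_comm]
  simp_rw [sum_comm (s := (univ : Finset β)) (t := (univ : Finset (ι → β)))]
  apply sum_congr rfl
  intro g _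
  rw [sum_eq_single (g j), sum_eq_single (g i)]
  · simp [ind_pos]
  · intro a _ ha
    rw [ind_neg (fun h => ha h.1.symm)]
    simp
  · simp
  · intro b _ hb
    apply sum_eq_zero
    intro a _
    rw [ind_neg (fun h => hb h.2.symm)]
    simp
  · simp

lemma prob_total {ι β : Type} [Fintype ι] [DecidableEq ι] [Fintype β] (p : β → ℝ)
    (hp : ∑ r, p r = 1) : ∑ g : ι → β, ∏ a, p (g a) = 1 := by
  have := prob_two p hp (∅ : Finset ι) ∅ (by simp) (fun _ => True) (fun _ => True)
  simpa [ind_pos] using this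

end Pool.Agent.P.MP_654fb7_co
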