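import Pool.Agent.P.MP_654fb7_co.LAsy

/-!
The sharp asymptotic lower bound.
-/

namespace Pool.Agent.P.MP_654fb7_co

open Finset Filter Topology

section
variable {k s : ℕ} {z X Y : ℕ → ℝ} {c : ℝ}

lemma Ty.c2_le (hT : Ty k s X Y c) : cumX X (s + 1) ≤ 1 := by
  have := hT.cum s
  rwa [hT.Ytop, sub_zero, one_pow] at this

lemma Ty.RR_le_log (hT : Ty k s X Y c) (h2 : 0 < cumX X (s + 1)) :
    k * RR s X Y ≤ cumX X (s + 1) * (s + 1 - Real.log (cumX X (s + 1))) := by
  have hterm : ∀ a ∈ range (s + 1), k * (X a * Y a)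
      ≤ cumX X (s + 1) - X a * Real.log (cumX X (s + 1)) := by
    intro a ha
    rcases (hT.X0 a).eq_or_lt with h0 | h0
    · rw [← h0]; simpa using h2.le
    · have h3 : X a ≤ cumX X (a + 1) := by
        rw [cumX_succ]; linarith [cumX_nonneg hT.X0 a]
      have h4 : 0 < cumX X (a + 1) := lt_of_lt_of_le h0 h3
      have h5 : cumX X (a + 1) ≤ Real.exp (k * (-Y a)) := by
        rw [Real.exp_nat_mul]
        refine le_trans (hT.cum a) (pow_le_pow_left₀ (by linarith [hT.Y1 a]) ?_ k)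
        linarith [Real.add_one_le_exp (-Y a)]
      have h6 := (Real.log_le_iff_le_exp h4).mpr h5
      have h7 := Real.log_le_sub_one_of_pos (div_pos h2 h4)
      rw [Real.log_div h2.ne' h4.ne'] at h7
      have h8 : X a * (cumX X (s + 1) / cumX X (a + 1)) ≤ cumX X (s + 1) := by
        rw [← mul_div_assoc, div_le_iff₀ h4]
        nlinarith
      nlinarith
  have := sum_le_sum hterm
  rw [sum_sub_distrib, ← sum_mul, sum_const, card_range, nsmul_eq_mul, ← mul_sum] at this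
  simp only [RR]
  push_cast at this
  have e : ∑ i ∈ range (s + 1), X i = cumX X (s + 1) := rfl
  rw [e] at this
  linarith

lemma PP_le_gam (hs : 1 ≤ s) (X : ℕ → ℝ) : gam s * PP s X ≤ cumX X (s + 1) ^ 2 := by
  have hs' : (0 : ℝ) < s := by exact_mod_cast hs
  rw [gam, div_mul_eq_mul_div, div_le_iff₀ hs']
  linarith [PP_le s X]

lemma defi_terms (hk : 1 ≤ k) (h : Crit k s z) (hT : Ty k s X Y c) (hY : 1 - z (s + 1) ≤ Y 0) :
    (∀ j, j ≤ s → slack k z (zet s z Y) j ≤ defi k s z X Y c) ∧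
      X s * (1 - z (s + 1)) ≤ defi k s z X Y c ∧
      ∀ a, a < s → (zet s z Y (a + 1) ^ k - cumX X (a + 1))
        * (zet s z Y (a + 2) - zet s z Y (a + 1)) ≤ defi k s z X Y c := by
  have hl : 0 ≤ z 0 ^ k := pow_nonneg (h.pos 0).le k
  have e := defi_eq h hT
  rw [max_eq_left hY] at e
  have h2 : 0 ≤ z 0 ^ k * (c - Y 0) := mul_nonneg hl (by linarith [hT.Yc])
  have t3 : ∀ j ∈ range (s + 1), 0 ≤ slack k z (zet s z Y) j :=
    fun j _ => slack_nonneg hk (h.pos j) (h.pos (j + 1)) (zet_nonneg h hT j)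
      (zet_nonneg h hT (j + 1))
  have t4 : ∀ a ∈ range (s + 1), 0 ≤ X a * (max (Y a) (1 - z (s + 1)) - Y a) :=
    fun a _ => mul_nonneg (hT.X0 a) (by linarith [le_max_left (Y a) (1 - z (s + 1))])
  have t5 : ∀ a ∈ range s, 0 ≤ (zet s z Y (a + 1) ^ k - cumX X (a + 1))
      * (zet s z Y (a + 2) - zet s z Y (a + 1)) := fun a _ => zet_term_nonneg (z := z) hT a
  have h3 := sum_nonneg t3
  have h4 := sum_nonneg t4
  have h5 := sum_nonneg t5
  refine ⟨fun j hj => ?_, ?_, fun a ha => ?_⟩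
  · have := single_le_sum t3 (mem_range.mpr (Nat.lt_succ_of_le hj))
    linarith
  · have := single_le_sum t4 (self_mem_range_succ s)
    simp only [hT.Ytop, sub_zero] at this
    rw [max_eq_right (by linarith [h.top])] at this
    linarith
  · have := single_le_sum t5 (mem_range.mpr ha)
    linarith

end

lemma pow_root {l : Filter ℕ} {θ : ℕ → ℝ} (h0 : ∀ᶠ k in l, 0 < θ k)
    (h1 : Tendsto (fun k => θ k ^ k) l (𝓝 1)) : Tendsto (fun k : ℕ => k * (θ k - 1)) l (𝓝 0) := by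
  have h2 := h1.log one_ne_zero
  have h3 := h1.sub_const 1
  rw [Real.log_one] at h2
  rw [sub_self] at h3
  apply tendsto_of_tendsto_of_tendsto_of_le_of_le' h2 h3
  · filter_upwards [h0] with k hk
    rw [Real.log_pow]
    exact mul_le_mul_of_nonneg_left (Real.log_le_sub_one_of_pos hk) (Nat.cast_nonneg k)
  · filter_upwards [h0] with k hk
    have := one_add_mul_sub_le_pow (a := θ k) (by linarith) k
    linarith

lemma root_one {l : Filter ℕ} (hl : l ≤ atTop) {θ : ℕ → ℝ}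
    (h1 : Tendsto (fun k : ℕ => k * (θ k - 1)) l (𝓝 0)) : Tendsto θ l (𝓝 1) := by
  have h2 := (h1.div_atTop (tendsto_natCast_atTop_atTop.mono_left hl)).add_const 1
  rw [zero_add] at h2
  apply h2.congr'
  filter_upwards [hl (eventually_ge_atTop 1)] with k hk
  have : (0 : ℝ) < k := by exact_mod_cast hk
  field_simp
  ring

section
variable {s : ℕ} {Z : ℕ → ℕ → ℝ}

lemma Crits.mu_pos (H : Crits s Z) : ∀ᶠ k in atTop, 0 < 1 - Z k (s + 1) := by
  filter_upwards [H.ev, H.mu_div.eventually (lt_mem_nhds zero_lt_one)] with k ⟨_, _, h⟩ h1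
  exact (div_pos_iff_of_pos_right h.c_pos).mp h1

lemma Crits.far (H : Crits s Z) {ε : ℝ} (hε : 0 < ε) (hε1 : ε ≤ 1) :
    ∀ᶠ k in atTop, ∀ X Y c, Ty k s X Y c → Real.exp (s + 4) * Z k s ^ k ≤ cumX X (s + 1) →
      (1 - ε) * (1 - Z k (s + 1)) * cumX X (s + 1) ^ 2 ≤ defi k s (Z k) X Y c := by
  have hm : Tendsto (fun k : ℕ => k * (1 - Z k (s + 1))) atTop atTop := by
    apply (H.kc_top.atTop_mul_pos zero_lt_one H.mu_div).congr'
    filter_upwards [H.ev] with k ⟨_, _, h⟩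
    have := h.c_pos
    field_simp
  have h1 : Tendsto (fun x : ℝ => Real.log x / x + (s + 1) / x) atTop (𝓝 0) := by
    have h2 := Real.tendsto_pow_log_div_mul_add_atTop 1 0 1 one_ne_zero
    have h3 := (tendsto_id (x := (atTop : Filter ℝ))).const_div_atTop ((s : ℝ) + 1)
    simpa using h2.add h3
  filter_upwards [H.ev, hm.eventually (h1.eventually (gt_mem_nhds hε)),
    hm.eventually (eventually_gt_atTop 0), H.log_beta.eventually (gt_mem_nhds zero_lt_one)]
    with k ⟨hk, hk', h⟩ h2 h3 h4 X Y c hT hc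
  set m := k * (1 - Z k (s + 1)) with hmdef
  have h5 : -Real.log (Z k s ^ k) ≤ m + 2 := by
    have h6 := h.gap (s - 1)
    have e1 : s - 1 + 1 = s := Nat.sub_add_cancel H.1
    have e2 : s - 1 + 2 = s + 1 := by have := H.1; omega
    rw [e1, e2] at h6
    have := h.le_one (j := s) (by omega)
    linarith
  have hc0 : 0 < cumX X (s + 1) := lt_of_lt_of_le (mul_pos (Real.exp_pos _) h.c_pos) hc
  have h7 : (1 - ε) * m * cumX X (s + 1) ≤ m - (s + 1) + Real.log (cumX X (s + 1)) := by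
    rcases le_total (m * cumX X (s + 1)) 1 with h8 | h8
    · have h9 := Real.log_le_log (mul_pos (Real.exp_pos _) h.c_pos) hc
      rw [Real.log_mul (Real.exp_pos _).ne' h.c_pos.ne', Real.log_exp] at h9
      nlinarith [mul_pos h3 hc0]
    · have h9 := Real.log_nonneg h8
      rw [Real.log_mul h3.ne' hc0.ne'] at h9
      rw [← add_div, div_lt_iff₀ h3] at h2
      have := mul_le_mul_of_nonneg_left hT.c2_le (mul_nonneg (sub_nonneg.mpr hε1) h3.le)
      linarith
  have h10 := hT.RR_le_log hc0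
  have h11 : 0 ≤ Z k 0 ^ k * c :=
    mul_nonneg (pow_pos (h.pos 0) k).le (le_trans (hT.Y0 0) hT.Yc)
  apply le_of_mul_le_mul_left _ hk'
  simp only [defi]
  have h12 := mul_le_mul_of_nonneg_left h7 hc0.le
  have h13 := mul_nonneg hk'.le h11
  rw [hmdef] at h12
  nlinarith

variable {l : Filter ℕ} {X Y : ℕ → ℕ → ℝ} {c : ℕ → ℝ}

lemma Crits.near_theta (H : Crits s Z) (hl : l ≤ atTop)
    (hT : ∀ᶠ k in l, Ty k s (X k) (Y k) (c k) ∧ 1 - Z k (s + 1) ≤ Y k 0)
    (hD : Tendsto (fun k : ℕ => k * defi k s (Z k) (X k) (Y k) (c k) / Z k s ^ k) l (𝓝 0))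
    (i : ℕ) (hi : i ≤ s) :
    Tendsto (fun k => (zet s (Z k) (Y k) (s + 1 - i) / Z k (s + 1 - i)) ^ k) l (𝓝 1) := by
  induction i with
  | zero =>
    apply tendsto_const_nhds.congr'
    filter_upwards [hl H.ev, hT] with k ⟨_, _, h⟩ ⟨h1, _⟩
    rw [Nat.sub_zero, zet_top h h1, div_self (h.pos _).ne', one_pow]
  | succ i ih =>
    have ih := ih (by omega)
    obtain ⟨j, hj⟩ : ∃ j, s = i + j + 1 := ⟨s - i - 1, by omega⟩
    have e1 : s + 1 - i = j + 1 + 1 := by omega
    have e2 : s + 1 - (i + 1) = j + 1 := by omega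
    rw [e1] at ih
    rw [e2]
    have hpos : ∀ᶠ k in l, 0 < zet s (Z k) (Y k) (j + 1 + 1) / Z k (j + 1 + 1) := by
      filter_upwards [hl H.ev, hT, ih.eventually (lt_mem_nhds zero_lt_one)]
        with k ⟨hk, _, h⟩ ⟨h1, _⟩ h2
      rcases (div_nonneg (zet_nonneg h h1 (j + 1 + 1)) (h.pos _).le).eq_or_lt with h3 | h3
      · rw [← h3, zero_pow (by omega)] at h2
        exact absurd h2 (lt_irrefl _)
      · exact h3
    have h1 := root_one hl (pow_root hpos ih)
    have h2 : Tendsto (fun k : ℕ => 1 + 1 / (k : ℝ)) l (𝓝 1) := by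
      simpa using ((tendsto_const_div_atTop_nhds_zero_nat (1 : ℝ)).const_add 1).mono_left hl
    have h3 := (hD.mul h2).div ((((H.z_one (j := j + 1 + 1) (by omega) (by omega)).mono_left
      hl).mul ((H.pi_lim (j := j + 1) (by omega)).mono_left hl)).mul (ih.mul h1))
      (by have := pp_pos s j; positivity)
    rw [zero_mul, zero_div] at h3
    have h4 : Tendsto (fun k => (1 - √(((zet s (Z k) (Y k) (j + 1) / Z k (j + 1))
        / (zet s (Z k) (Y k) (j + 1 + 1) / Z k (j + 1 + 1))) ^ k)) ^ 2) l (𝓝 0) := by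
      apply squeeze_zero' (Eventually.of_forall (fun k => sq_nonneg _)) _ h3
      filter_upwards [hl H.ev, hT, hpos] with k ⟨hk, hk', h⟩ ⟨h5, h6⟩ h7
      have h8 := h.pos (j + 1)
      have h9 := h.pos (j + 1 + 1)
      have h10 := h.c_pos
      have h11 := le_trans (slack_ge hk h8 h9 (zet_nonneg h h5 _)
        ((div_pos_iff_of_pos_right h9).mp h7)) ((defi_terms hk h h5 h6).1 (j + 1) (by omega))
      simp only [Pi.div_apply]
      rw [le_div_iff₀ (by positivity)]
      rw [pow_succ] at h11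
      set θ := zet s (Z k) (Y k) (j + 1 + 1) / Z k (j + 1 + 1)
      set A := (1 - √(((zet s (Z k) (Y k) (j + 1) / Z k (j + 1)) / θ) ^ k)) ^ 2
      have h12 : A * (Z k (j + 1 + 1) * (Z k (j + 1) ^ k / Z k s ^ k) * (θ ^ k * θ))
          = (Z k (j + 1 + 1) * Z k (j + 1) ^ k * (θ ^ k * θ) / (k + 1) * A)
            * ((k + 1) / Z k s ^ k) := by
        field_simp
      have h13 : k * defi k s (Z k) (X k) (Y k) (c k) / Z k s ^ k * (1 + 1 / k)
          = defi k s (Z k) (X k) (Y k) (c k) * ((k + 1) / Z k s ^ k) := by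
        field_simp
      rw [h12, h13]
      exact mul_le_mul_of_nonneg_right h11 (by positivity)
    have h4' := h4.sqrt
    simp only [Real.sqrt_sq_eq_abs, Real.sqrt_zero] at h4'
    have h5 := (((tendsto_zero_iff_abs_tendsto_zero _).mpr h4').const_sub 1).pow 2
    have h6 := h5.mul ih
    simp only [sub_zero, one_pow, mul_one, sub_sub_cancel] at h6
    apply h6.congr'
    filter_upwards [hl H.ev, hT, hpos] with k ⟨hk, hk', h⟩ ⟨h5, h6⟩ h7
    have h8 : 0 ≤ zet s (Z k) (Y k) (j + 1) / Z k (j + 1) :=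
      div_nonneg (zet_nonneg h h5 _) (h.pos _).le
    rw [Real.sq_sqrt (by positivity), ← mul_pow, div_mul_cancel₀ _ h7.ne']

lemma Crits.near (H : Crits s Z) (hl : l ≤ atTop)
    (hT : ∀ᶠ k in l, Ty k s (X k) (Y k) (c k) ∧ 1 - Z k (s + 1) ≤ Y k 0)
    (hD : Tendsto (fun k : ℕ => k * defi k s (Z k) (X k) (Y k) (c k) / Z k s ^ k) l (𝓝 0))
    (hD' : Tendsto (fun k : ℕ => defi k s (Z k) (X k) (Y k) (c k)
      / ((1 - Z k (s + 1)) * Z k s ^ k)) l (𝓝 0)) :
    Tendsto (fun k => cumX (X k) (s + 1) / Z k s ^ k) l (𝓝 1) ∧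
      Tendsto (fun k => PP s (X k) / (Z k s ^ k) ^ 2) l (𝓝 (kappaSeq (s - 1))) := by
  have hθ : ∀ j, j ≤ s → Tendsto (fun k => (zet s (Z k) (Y k) (j + 1) / Z k (j + 1)) ^ k) l
      (𝓝 1) := by
    intro j hj
    have := H.near_theta hl hT hD (s - j) (Nat.sub_le s j)
    rwa [show s + 1 - (s - j) = j + 1 by omega] at this
  have hdiff : ∀ j, j ≤ s →
      Tendsto (fun k : ℕ => k * (zet s (Z k) (Y k) (j + 1) - Z k (j + 1))) l (𝓝 0) := by
    intro j hj
    have hpos : ∀ᶠ k in l, 0 < zet s (Z k) (Y k) (j + 1) / Z k (j + 1) := by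
      filter_upwards [hl H.ev, hT, (hθ j hj).eventually (lt_mem_nhds zero_lt_one)]
        with k ⟨hk, _, h⟩ ⟨h1, _⟩ h2
      rcases (div_nonneg (zet_nonneg h h1 (j + 1)) (h.pos _).le).eq_or_lt with h3 | h3
      · rw [← h3, zero_pow (by omega)] at h2
        exact absurd h2 (lt_irrefl _)
      · exact h3
    have h1 := (pow_root hpos (hθ j hj)).mul
      ((H.z_one (j := j + 1) (by omega) (by omega)).mono_left hl)
    rw [zero_mul] at h1
    apply h1.congr'
    filter_upwards [hl H.ev] with k ⟨_, _, h⟩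
    have := h.pos (j + 1)
    field_simp
  have hS : ∀ a, a < s →
      Tendsto (fun k => cumX (X k) (a + 1) / Z k s ^ k) l (𝓝 (pp s (a + 1))) := by
    intro a ha
    have h1 : Tendsto (fun k : ℕ => k * (zet s (Z k) (Y k) (a + 2) - zet s (Z k) (Y k) (a + 1))) l
        (𝓝 (1 - gSeq a)) := by
      have := (((H.gap_lim ha.le).mono_left hl).add (hdiff (a + 1) ha)).sub (hdiff a ha.le)
      rw [add_zero, sub_zero] at this
      exact this.congr (fun k => by ring)
    have h2 : Tendsto (fun k : ℕ => (zet s (Z k) (Y k) (a + 1) ^ k - cumX (X k) (a + 1)) / Z k s ^ k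
        * (k * (zet s (Z k) (Y k) (a + 2) - zet s (Z k) (Y k) (a + 1)))) l (𝓝 0) := by
      apply squeeze_zero' _ _ hD
      · filter_upwards [hl H.ev, hT] with k ⟨_, hk', h⟩ ⟨h3, _⟩
        have := mul_nonneg (zet_term_nonneg (z := Z k) h3 a) (div_pos hk' h.c_pos).le
        refine le_trans this (le_of_eq (by ring))
      · filter_upwards [hl H.ev, hT] with k ⟨hk, hk', h⟩ ⟨h3, h4⟩
        have := mul_le_mul_of_nonneg_right ((defi_terms hk h h3 h4).2.2 a ha)
          (div_pos hk' h.c_pos).le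
        refine le_trans (le_of_eq (by ring)) (le_trans this (le_of_eq (by ring)))
    have hg : 0 < 1 - gSeq a := by linarith [(gSeq_bounds a).2]
    have h3 := h2.div h1 hg.ne'
    have h4 := ((hθ a ha.le).mul ((H.pi_lim (j := a + 1) ha).mono_left hl)).sub h3
    rw [one_mul, zero_div, sub_zero] at h4
    apply h4.congr'
    filter_upwards [hl H.ev, h1.eventually (lt_mem_nhds hg)] with k ⟨_, _, h⟩ h5
    have h6 := h.pos (a + 1)
    have h7 := h.c_pos
    simp only [Pi.div_apply]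
    rw [mul_div_cancel_right₀ _ h5.ne', div_pow]
    field_simp
    ring
  have hX : Tendsto (fun k => X k s / Z k s ^ k) l (𝓝 0) := by
    apply squeeze_zero' _ _ hD'
    · filter_upwards [hl H.ev, hT] with k ⟨_, _, h⟩ ⟨h3, _⟩
      exact div_nonneg (h3.X0 s) h.c_pos.le
    · filter_upwards [hl H.ev, hT, hl H.mu_pos] with k ⟨hk, _, h⟩ ⟨h3, h4⟩ h5
      have h6 := h.c_pos
      rw [div_le_div_iff₀ h6 (mul_pos h5 h6), ← mul_assoc]
      exact mul_le_mul_of_nonneg_right (defi_terms hk h h3 h4).2.1 h6.le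
  obtain ⟨m, rfl⟩ : ∃ m, s = m + 1 := ⟨s - 1, by have := H.1; omega⟩
  have hS1 := hS m (by omega)
  rw [pp_self] at hS1
  constructor
  · have := hS1.add hX
    rw [add_zero] at this
    exact this.congr (fun k => by rw [cumX_succ _ (m + 1), add_div])
  · have h1 := (tendsto_finsetSum (range m) (fun a ha =>
      (hS a (by have := mem_range.mp ha; omega)).mul
        ((hS (a + 1) (by have := mem_range.mp ha; omega)).sub
          (hS a (by have := mem_range.mp ha; omega))))).add (hS1.mul hX)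
    rw [mul_zero, add_zero] at h1
    rw [Nat.add_sub_cancel, kappa_eq]
    apply h1.congr
    intro k
    rw [PP, sum_range_succ, sum_range_succ', cumX_zero, zero_mul, add_zero, add_div, sum_div]
    congr 1
    · apply sum_congr rfl
      intro a _
      rw [cumX_succ _ (a + 1)]
      ring
    · ring

lemma Crits.sharp_dual (H : Crits s Z) {ε : ℝ} (hε : 0 < ε) (hε1 : ε ≤ 1) :
    ∀ᶠ k in atTop, ∀ X Y c, Ty k s X Y c →
      gam s * (1 - ε) * (1 - Z k (s + 1)) * PP s X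
        ≤ gam s * (kappaSeq (s - 1) + ε) * Z k s ^ k
            * (Z k 0 ^ k * c + (1 - Z k (s + 1)) * cumX X (s + 1)) + defi k s (Z k) X Y c := by
  by_contra hcon
  rw [not_eventually] at hcon
  push Not at hcon
  have hex : ∀ k, ∃ (X Y : ℕ → ℝ) (c : ℝ), (∃ X Y c, Ty k s X Y c ∧
      gam s * (kappaSeq (s - 1) + ε) * Z k s ^ k
        * (Z k 0 ^ k * c + (1 - Z k (s + 1)) * cumX X (s + 1)) + defi k s (Z k) X Y c
        < gam s * (1 - ε) * (1 - Z k (s + 1)) * PP s X) → Ty k s X Y c ∧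
      gam s * (kappaSeq (s - 1) + ε) * Z k s ^ k
        * (Z k 0 ^ k * c + (1 - Z k (s + 1)) * cumX X (s + 1)) + defi k s (Z k) X Y c
        < gam s * (1 - ε) * (1 - Z k (s + 1)) * PP s X := by
    intro k
    by_cases h : ∃ X Y c, Ty k s X Y c ∧
      gam s * (kappaSeq (s - 1) + ε) * Z k s ^ k
        * (Z k 0 ^ k * c + (1 - Z k (s + 1)) * cumX X (s + 1)) + defi k s (Z k) X Y c
        < gam s * (1 - ε) * (1 - Z k (s + 1)) * PP s X
    · obtain ⟨X, Y, c, h⟩ := h
      exact ⟨X, Y, c, fun _ => h⟩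
    · exact ⟨fun _ => 0, fun _ => 0, 0, fun h' => absurd h' h⟩
  choose X Y c hbad using hex
  have hne := frequently_iff_neBot.mp hcon
  set l := atTop ⊓ 𝓟 {k | ∃ X Y c, Ty k s X Y c ∧
      gam s * (kappaSeq (s - 1) + ε) * Z k s ^ k
        * (Z k 0 ^ k * c + (1 - Z k (s + 1)) * cumX X (s + 1)) + defi k s (Z k) X Y c
        < gam s * (1 - ε) * (1 - Z k (s + 1)) * PP s X} with hldef
  have hl : l ≤ atTop := inf_le_left
  have hb := (eventually_inf_principal.mpr (Eventually.of_forall hbad) : ∀ᶠ k in l, _)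
  have hγ := gam_pos H.1
  have hκ := (kappa_bounds (s - 1)).1
  set K := Real.exp (s + 4) with hK
  have hK0 : 0 < K := Real.exp_pos _
  have h1 : ∀ᶠ k in l, defi k s (Z k) (X k) (Y k) (c k)
      < (1 - ε) * (1 - Z k (s + 1)) * cumX (X k) (s + 1) ^ 2 := by
    filter_upwards [hl H.ev, hb] with k ⟨_, _, h⟩ ⟨hT, h2⟩
    have h3 : 0 ≤ 1 - Z k (s + 1) := sub_nonneg.mpr h.top
    have h4 := mul_le_mul_of_nonneg_left (PP_le_gam H.1 (X k))
      (mul_nonneg (sub_nonneg.mpr hε1) h3)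
    have h5 : 0 ≤ c k := le_trans (hT.Y0 0) hT.Yc
    have h6 := cumX_nonneg hT.X0 (s + 1)
    have h7 := h.c_pos
    have h8 := h.pos 0
    have h9 : 0 ≤ gam s * (kappaSeq (s - 1) + ε) * Z k s ^ k
        * (Z k 0 ^ k * c k + (1 - Z k (s + 1)) * cumX (X k) (s + 1)) := by positivity
    linarith
  have h2 : ∀ᶠ k in l, cumX (X k) (s + 1) < K * Z k s ^ k := by
    filter_upwards [hl (H.far hε hε1), hb, h1] with k h3 ⟨hT, _⟩ h4
    by_contra h5
    exact absurd (h3 _ _ _ hT (not_lt.mp h5)) (not_le.mpr h4)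
  have h3 : ∀ᶠ k in l, defi k s (Z k) (X k) (Y k) (c k)
      ≤ (1 - Z k (s + 1)) * (K * Z k s ^ k) ^ 2 := by
    filter_upwards [hl H.ev, hb, h1, h2] with k ⟨_, _, h⟩ ⟨hT, _⟩ h4 h5
    have h6 := pow_le_pow_left₀ (cumX_nonneg hT.X0 (s + 1)) h5.le 2
    have h7 : 0 ≤ 1 - Z k (s + 1) := sub_nonneg.mpr h.top
    have h8 := mul_le_mul_of_nonneg_left h6 h7
    nlinarith [mul_nonneg h7 (sq_nonneg (cumX (X k) (s + 1)))]
  have h4 : ∀ᶠ k in l, 1 - Z k (s + 1) ≤ Y k 0 := by
    have e1 : ∀ᶠ k in atTop, K * Z k s ^ k < 1 / 2 :=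
      (H.c_zero.const_mul K).eventually (gt_mem_nhds (by simp))
    have e2 : ∀ᶠ k : ℕ in atTop, 2 * K ^ 2 * (k * Z k s ^ k * Z k s ^ k) < k * Z k 0 ^ k :=
      (H.kc2_zero.const_mul (2 * K ^ 2)).eventually_lt H.klam (by simp)
    filter_upwards [hl H.ev, hb, h1, h2, h3, hl e1, hl e2, hl H.mu_pos]
      with k ⟨_, hk', h⟩ ⟨hT, _⟩ h5 h6 h7 h8 h9 h10
    by_contra h11
    push Not at h11
    have h12 := defi_low (z := Z k) hT
    have h13 := cumX_nonneg hT.X0 (s + 1)
    have h14 := pow_pos (h.pos 0) k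
    rcases le_total (Y k 0) ((1 - Z k (s + 1)) / 2) with h15 | h15
    · have h16 : 0 ≤ Z k 0 ^ k * c k := mul_nonneg h14.le (le_trans (hT.Y0 0) hT.Yc)
      have h17 : (1 - Z k (s + 1)) / 2 * cumX (X k) (s + 1)
          ≤ (1 - Z k (s + 1) - Y k 0) * cumX (X k) (s + 1) :=
        mul_le_mul_of_nonneg_right (by linarith) h13
      have h18 := mul_nonneg h10.le h13
      nlinarith [mul_nonneg h18 h13, mul_nonneg h18 (show 0 ≤ 1 / 2 - cumX (X k) (s + 1) by
        linarith)]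
    · have h16 : 0 ≤ (1 - Z k (s + 1) - Y k 0) * cumX (X k) (s + 1) :=
        mul_nonneg (by linarith) h13
      have h17 : Z k 0 ^ k * ((1 - Z k (s + 1)) / 2) ≤ Z k 0 ^ k * c k :=
        mul_le_mul_of_nonneg_left (le_trans h15 hT.Yc) h14.le
      have h18 : (1 - Z k (s + 1)) * (Z k 0 ^ k / 2) ≤ (1 - Z k (s + 1)) * (K * Z k s ^ k) ^ 2 := by
        linarith
      have h19 := mul_le_mul_of_nonneg_left (le_of_mul_le_mul_left h18 h10) hk'.le
      nlinarith
  have hT : ∀ᶠ k in l, Ty k s (X k) (Y k) (c k) ∧ 1 - Z k (s + 1) ≤ Y k 0 :=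
    (hb.mono (fun k h => h.1)).and h4
  have hD : Tendsto (fun k : ℕ => k * defi k s (Z k) (X k) (Y k) (c k) / Z k s ^ k) l (𝓝 0) := by
    have e := (H.kc2_zero.const_mul (K ^ 2)).mono_left hl
    rw [mul_zero] at e
    apply squeeze_zero' _ _ e
    · filter_upwards [hl H.ev, hT] with k ⟨hk, hk', h⟩ ⟨h5, _⟩
      exact div_nonneg (mul_nonneg hk'.le (defi_nonneg hk h h5)) h.c_pos.le
    · filter_upwards [hl H.ev, h3] with k ⟨_, hk', h⟩ h5
      have h6 : 1 - Z k (s + 1) ≤ Z k s ^ k := by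
        linarith [h.bal, h.monotone (show 1 ≤ s + 1 by omega)]
      have h7 := le_trans h5 (mul_le_mul_of_nonneg_right h6 (sq_nonneg _))
      rw [div_le_iff₀ h.c_pos]
      refine le_trans (mul_le_mul_of_nonneg_left h7 hk'.le) (le_of_eq (by ring))
  have hD' : Tendsto (fun k : ℕ => defi k s (Z k) (X k) (Y k) (c k)
      / ((1 - Z k (s + 1)) * Z k s ^ k)) l (𝓝 0) := by
    have e := (H.c_zero.const_mul (K ^ 2)).mono_left hl
    rw [mul_zero] at e
    apply squeeze_zero' _ _ e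
    · filter_upwards [hl H.ev, hT, hl H.mu_pos] with k ⟨hk, hk', h⟩ ⟨h5, _⟩ h6
      exact div_nonneg (defi_nonneg hk h h5) (mul_pos h6 h.c_pos).le
    · filter_upwards [hl H.ev, h3, hl H.mu_pos] with k ⟨_, hk', h⟩ h5 h6
      rw [div_le_iff₀ (mul_pos h6 h.c_pos)]
      refine le_trans h5 (le_of_eq (by ring))
  obtain ⟨n1, n2⟩ := H.near hl hT hD hD'
  have h5 := (n2.const_mul (1 - ε)).eventually_lt (n1.const_mul (kappaSeq (s - 1) + ε))
    (by nlinarith)
  obtain ⟨k, ⟨hk, _, h⟩, ⟨hT', h6⟩, h7⟩ := ((H.ev.filter_mono hl).and (hb.and h5)).exists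
  have h8 := h.c_pos
  have h9 : (1 - ε) * PP s (X k) ≤ (kappaSeq (s - 1) + ε) * Z k s ^ k * cumX (X k) (s + 1) := by
    have := mul_le_mul_of_nonneg_right h7.le (sq_nonneg (Z k s ^ k))
    refine le_trans (le_of_eq (by field_simp)) (le_trans this (le_of_eq (by field_simp)))
  have h10 := mul_le_mul_of_nonneg_left h9 (mul_nonneg hγ.le (sub_nonneg.mpr h.top))
  have h11 := defi_nonneg hk h hT'
  have h12 : 0 ≤ c k := le_trans (hT'.Y0 0) hT'.Yc
  have h13 := h.pos 0
  have h14 : 0 ≤ gam s * (kappaSeq (s - 1) + ε) * Z k s ^ k * (Z k 0 ^ k * c k) := by positivity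
  nlinarith

lemma sharp_lower (hs : 1 ≤ s) {a : ℝ} (ha : a < gam s * (1 - kappaSeq (s - 1))) :
    ∀ᶠ k in atTop, a < FF s k - ellValue (s + 1) k := by
  obtain ⟨Z, H⟩ := exists_crits hs
  have hγ := gam_pos hs
  have hκ := (kappa_bounds (s - 1)).1
  obtain ⟨ε, hε, hε1, hεa⟩ : ∃ ε : ℝ, 0 < ε ∧ ε ≤ 1 ∧
      a < gam s * (1 - ε) - gam s * (kappaSeq (s - 1) + ε) := by
    refine ⟨min 1 ((gam s * (1 - kappaSeq (s - 1)) - a) / (4 * gam s)),
      lt_min one_pos (div_pos (by linarith) (by positivity)), min_le_left _ _, ?_⟩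
    have := min_le_right 1 ((gam s * (1 - kappaSeq (s - 1)) - a) / (4 * gam s))
    rw [le_div_iff₀ (by positivity)] at this
    nlinarith
  have h1 := (((H.ell_c.mul H.mu_div).const_mul (gam s * (1 - ε))).sub
    (H.ell_c.const_mul (gam s * (kappaSeq (s - 1) + ε)))).div
    ((H.c_zero.const_mul (gam s * (kappaSeq (s - 1) + ε))).const_add 1) (by simp)
  simp only [mul_one, mul_zero, add_zero, div_one] at h1
  filter_upwards [H.ev, H.sharp_dual hε hε1, h1.eventually (lt_mem_nhds hεa),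
    eventually_ge_atTop 2] with k ⟨hk, _, h⟩ h2 h3 hk2
  have hc := h.c_pos
  have hμ : 0 ≤ 1 - Z k (s + 1) := sub_nonneg.mpr h.top
  have hlam := pow_pos (h.pos 0) k
  have hε2 : 0 ≤ 1 - ε := sub_nonneg.mpr hε1
  have h4 := le_FF hk2 hs zero_le_one (ν := gam s * (1 - ε) * (1 - Z k (s + 1)))
    (l := (1 + gam s * (kappaSeq (s - 1) + ε) * Z k s ^ k) * Z k 0 ^ k)
    (μ := (1 + gam s * (kappaSeq (s - 1) + ε) * Z k s ^ k) * (1 - Z k (s + 1)))
    (by positivity) (by positivity) (by positivity) (by positivity) (fun X Y c hT => by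
      have := h2 X Y c hT
      simp only [defi] at this
      linarith)
  refine lt_of_lt_of_le h3 (le_trans (le_of_eq ?_) (sub_le_sub_right h4 _))
  have := h.lam_pos
  simp only [Pi.div_apply]
  rw [h.ell hk hs, ← mul_add]
  field_simp
  ring

end

end Pool.Agent.P.MP_654fb7_co
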