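import Pool.Agent.P.MP_654fb7_co.LSharpLow

/-!
The sharp asymptotic upper bound.
-/

namespace Pool.Agent.P.MP_654fb7_co

open Finset Filter Topology

lemma pow_sub_ge {a b : ℝ} (ha : 0 ≤ a) (hab : a ≤ b) (r : ℕ) :
    r * a ^ r * (b - a) ≤ b * (b ^ r - a ^ r) := by
  have hb : 0 ≤ b := le_trans ha hab
  have hd : 0 ≤ b - a := sub_nonneg.mpr hab
  induction r with
  | zero => simp
  | succ r ih =>
    have h1 := mul_le_mul_of_nonneg_left ih hb
    have h2 : 0 ≤ ((r : ℝ) + 1) * a ^ r * (b - a) * (b - a) := by positivity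
    push_cast
    rw [pow_succ, pow_succ]
    nlinarith

lemma pow_sub_ratio {a b : ℝ} (ha : 0 ≤ a) (hab : a ≤ b) (r m : ℕ) :
    r * (b ^ (r + m) - a ^ (r + m)) ≤ (r + m) * b ^ m * (b ^ r - a ^ r) := by
  have hb : 0 ≤ b := le_trans ha hab
  have hd : 0 ≤ b - a := sub_nonneg.mpr hab
  induction m with
  | zero => simp
  | succ m ih =>
    have h1 := mul_le_mul_of_nonneg_left ih hb
    have h2 := mul_le_mul (pow_le_pow_left₀ ha hab m) (pow_sub_ge ha hab r) (by positivity)
      (by positivity)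
    push_cast
    rw [← add_assoc, pow_succ, pow_succ, pow_succ]
    rw [pow_add, pow_add] at *
    nlinarith

lemma bern_inv {y : ℝ} (h0 : 0 ≤ y) (h1 : y ≤ 1) (m : ℕ) : (1 + m * (1 - y)) * y ^ m ≤ 1 := by
  induction m with
  | zero => simp
  | succ m ih =>
    have h2 := mul_le_mul_of_nonneg_left ih h0
    have h3 : y ^ (m + 1) ≤ 1 := pow_le_one₀ h0 h1
    have h4 := mul_le_mul_of_nonneg_left h3 (sub_nonneg.mpr h1)
    push_cast
    rw [pow_succ] at *
    nlinarith

lemma pow_sub_anti {a b y : ℝ} (ha : 0 ≤ a) (hab : a ≤ b) (hby : b ≤ y) (hy : y ≤ 1) {r k : ℕ}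
    (hrk : r ≤ k) (hr : 1 ≤ r * (1 - y)) : b ^ k - a ^ k ≤ b ^ r - a ^ r := by
  obtain ⟨m, rfl⟩ := Nat.exists_eq_add_of_le hrk
  have hb : 0 ≤ b := le_trans ha hab
  have hr0 : (0 : ℝ) < r := by
    rcases (Nat.cast_nonneg (α := ℝ) r).eq_or_lt with h | h
    · rw [← h] at hr; norm_num at hr
    · exact h
  have h1 := pow_sub_ratio ha hab r m
  have h2 : 0 ≤ b ^ r - a ^ r := sub_nonneg.mpr (pow_le_pow_left₀ ha hab r)
  have h3 : ((r : ℝ) + m) * b ^ m ≤ r := by
    have h4 := bern_inv (le_trans hb hby) hy m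
    have h5 := pow_le_pow_left₀ hb hby m
    have h6 : (r : ℝ) + m ≤ r * (1 + m * (1 - y)) := by
      nlinarith [Nat.cast_nonneg (α := ℝ) m]
    calc ((r : ℝ) + m) * b ^ m ≤ r * (1 + m * (1 - y)) * y ^ m :=
          mul_le_mul h6 h5 (by positivity) (le_trans (by positivity) h6)
      _ = r * ((1 + m * (1 - y)) * y ^ m) := by ring
      _ ≤ r := mul_le_of_le_one_right hr0.le h4
  exact le_of_mul_le_mul_left (le_trans h1 (mul_le_mul_of_nonneg_right h3 h2)) hr0

section
variable {k s : ℕ} {z : ℕ → ℝ}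

lemma TT_scal_ge (h : Crit k s z) {θ : ℝ} (hθ : 0 ≤ θ) (h1 : θ * z s ≤ 1) {r : ℕ} (hrk : r ≤ k)
    (hr : 1 ≤ r * (1 - θ * z s)) :
    (θ ^ k * z s ^ k) ^ 2 * ∑ l ∈ range (s - 1),
      z (l + 1) ^ k / z s ^ k * (z (l + 2) ^ k / z s ^ k - z (l + 1) ^ k / z s ^ k)
        ≤ TT k r (s - 1) (scal s θ z) := by
  rw [TT, mul_sum]
  apply sum_le_sum
  intro l hl
  have := mem_range.mp hl
  rw [scal_mid (by omega) (by omega), scal_mid (by omega) (by omega)]
  have h2 : 0 ≤ θ * z (l + 1) := mul_nonneg hθ (h.pos _).le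
  have h3 := pow_sub_anti h2 (mul_le_mul_of_nonneg_left (h.mono (l + 1)) hθ)
    (mul_le_mul_of_nonneg_left (h.monotone (show l + 1 + 1 ≤ s by omega)) hθ) h1 hrk hr
  refine le_trans (le_of_eq ?_) (mul_le_mul_of_nonneg_left h3 (pow_nonneg h2 k))
  have := h.c_pos
  simp only [mul_pow]
  field_simp

lemma feas_sharp (n : ℕ) (hk : 2 ≤ k) (hs : 1 ≤ s) (h : Crit k s z) {L C κ : ℝ}
    (hL : L * (z 0 ^ k + (1 - z (s + 1))) = 1) (hC : 0 ≤ C) (hCs : 2 ≤ s ∨ C = 0)
    (hL1 : 2 * gam s ≤ L) (hL2 : 2 * C ≤ L) (hk1 : 2 * gam s + 2 * C < k) (hκ : κ ≤ 1 / 2)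
    (hc1 : z s ^ k ≤ 1 / 2) (hc2 : z s ^ k ≤ 2 * (1 - (1 + 2 * gam s / (k * L)) * z s))
    (hb1 : κ ≤ (1 - C / L) * (L * z s ^ k) * ∑ l ∈ range (s - 1),
      z (l + 1) ^ k / z s ^ k * (z (l + 2) ^ k / z s ^ k - z (l + 1) ^ k / z s ^ k))
    (hb2 : κ ≤ C * (z 1 ^ k / z s ^ k) * Real.exp (-4) / 2) :
    Feas (s + 1) (Q n k) (L / (1 - (2 * gam s + 2 * C) / k) + gam s * (1 - κ)) := by
  have hγ := gam_pos hs
  have hk' : (2 : ℝ) ≤ k := by exact_mod_cast hk
  have hk0 : (0 : ℝ) < k := by linarith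
  have hL0 : 0 < L := by linarith
  have hc := h.c_pos
  set δ := 2 * gam s / (k * L) with hδ
  have hδ0 : 0 < δ := by positivity
  have hδk : k * δ = 2 * gam s / L := by rw [hδ]; field_simp
  have hδ1 : δ ≤ 1 := by
    rw [hδ, div_le_one (by positivity)]
    nlinarith
  set θ := 1 + δ with hθ
  have hθ1 : 1 ≤ θ := by linarith
  have hθ0 : 0 ≤ θ := by linarith
  have hθz : θ * z s ≤ 1 := by linarith
  have hθk : 1 + 2 * gam s / L ≤ θ ^ k := by
    rw [← hδk]; exact one_add_mul_le_pow (by linarith) k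
  have hθk1 : 1 ≤ θ ^ k := one_le_pow₀ hθ1
  set A := 1 - (2 * gam s + 2 * C) / k with hA
  have hA0 : 0 < A := by rw [hA, sub_pos, div_lt_one hk0]; exact hk1
  have hA1 : A ≤ 1 := by
    have : 0 ≤ (2 * gam s + 2 * C) / k := by positivity
    linarith
  have hε : C / L ≤ 1 / 2 := by rw [div_le_iff₀ hL0]; linarith
  have hε0 : 0 ≤ C / L := by positivity
  have hm := scal_mono hs h hθ0 hθz
  have hW : L / (θ ^ k * z s ^ k) ≤ L / (θ ^ k * z s ^ k * A) :=
    div_le_div_of_nonneg_left hL0.le (by positivity) (mul_le_of_le_one_right (by positivity) hA1)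
  have hs' : (0 : ℝ) < s := by exact_mod_cast hs
  refine upper_general n hk hs scal_zero hm scal_top hε0 (by linarith)
    (hCs.imp id (fun h => by rw [h, zero_div])) (W0 := L / (θ ^ k * z s ^ k * A)) (W1 := 0)
    (W2 := gam s * (1 - κ)) (W3 := 0) (by positivity) le_rfl
    (mul_nonneg hγ.le (by linarith)) le_rfl ?_ (fun r hr1 hrk => ?_) ?_ ?_ ?_
  · have h1 : C / L * TT k 1 1 (scal s θ z) ≤ C / L * (θ ^ k * z s ^ k * (2 / k)) := by
      rcases hCs with h2 | h2
      · apply mul_le_mul_of_nonneg_left _ hε0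
        simp only [TT, range_one, sum_singleton, zero_add, pow_one]
        rw [scal_mid le_rfl hs, scal_mid (by omega) h2, ← mul_pow]
        have h3 := h.gap 0
        have h4 := h.le_one (j := 1) (by omega)
        have h5 := h.mono 1
        simp only [zero_add] at h3
        apply mul_le_mul
        · exact pow_le_pow_left₀ (mul_nonneg hθ0 (h.pos _).le)
            (mul_le_mul_of_nonneg_left (h.monotone hs) hθ0) k
        · rw [le_div_iff₀ hk0]
          nlinarith
        · nlinarith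
        · exact pow_nonneg (mul_nonneg hθ0 (h.pos _).le) k
      · simp [h2]
    rw [TT_scal hs h, div_mul_eq_mul_div, le_div_iff₀ (by positivity), one_mul]
    have h2 : L * (θ ^ k * z s ^ k * (θ * (z 0 ^ k + (1 - z (s + 1))) - (θ - 1))
        - C / L * (θ ^ k * z s ^ k * (2 / k))) = θ ^ k * z s ^ k * (A + δ) := by
      have e1 : z 0 ^ k + (1 - z (s + 1)) = 1 / L := by
        rw [eq_div_iff hL0.ne']; linarith
      rw [e1, hA, hθ, hδ]
      field_simp
      ring
    have h3 := mul_le_mul_of_nonneg_left h1 hL0.le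
    have h4 : 0 ≤ θ ^ k * z s ^ k * δ := by positivity
    nlinarith
  · rw [zero_add, mul_div_cancel_left₀ _ hγ.ne']
    have hT := TT_nonneg (k := k) scal_zero hm r (s - 1) (Nat.sub_le s 1)
    have hx1 : scal s θ z 1 = θ * z 1 := scal_mid le_rfl hs
    have hz1 := h.pos 1
    have hε1 : 0 ≤ 1 - C / L := by linarith
    rw [hx1]
    suffices hh : κ ≤ L / (θ ^ k * z s ^ k) * ((1 - C / L) * (TT k r (s - 1) (scal s θ z)
        + C / L * ((θ * z 1) ^ k * (θ * z 1) ^ r))) by
      have := mul_le_mul_of_nonneg_right hW (show 0 ≤ (1 - C / L) * (TT k r (s - 1) (scal s θ z)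
        + C / L * ((θ * z 1) ^ k * (θ * z 1) ^ r)) by positivity)
      linarith
    rcases le_total 1 (r * (1 - θ * z s)) with h1 | h1
    · have h2 := TT_scal_ge h hθ0 hθz hrk h1
      set S := ∑ l ∈ range (s - 1),
        z (l + 1) ^ k / z s ^ k * (z (l + 2) ^ k / z s ^ k - z (l + 1) ^ k / z s ^ k) with hS
      have hS0 : 0 ≤ S := sum_nonneg (fun l _ => mul_nonneg (div_nonneg (pow_pos (h.pos _) k).le
        hc.le) (sub_nonneg.mpr (div_le_div_of_nonneg_right
          (pow_le_pow_left₀ (h.pos _).le (h.mono (l + 1)) k) hc.le)))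
      calc κ ≤ (1 - C / L) * (L * z s ^ k) * S := hb1
        _ ≤ (1 - C / L) * (L * z s ^ k) * S * θ ^ k := le_mul_of_one_le_right (by positivity) hθk1
        _ = L / (θ ^ k * z s ^ k) * ((1 - C / L) * ((θ ^ k * z s ^ k) ^ 2 * S + 0)) := by
            field_simp
            ring
        _ ≤ _ := by gcongr; positivity
    · have h2 : Real.exp (-4) ≤ (θ * z 1) ^ r := by
        have h3 : Real.exp (-(2 * z s ^ k)) ≤ z 1 := by
          rw [Real.exp_neg, inv_le_comm₀ (Real.exp_pos _) hz1]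
          refine le_trans ?_ (Real.add_one_le_exp _)
          rw [inv_le_iff_one_le_mul₀ hz1]
          have : z 1 = 1 - z s ^ k := by linarith [h.bal]
          rw [this]
          nlinarith
        have h4 := pow_le_pow_left₀ (Real.exp_pos _).le
          (le_trans h3 (le_mul_of_one_le_left hz1.le hθ1)) r
        rw [← Real.exp_nat_mul] at h4
        refine le_trans (Real.exp_le_exp.mpr ?_) h4
        nlinarith [Nat.cast_nonneg (α := ℝ) r]
      calc κ ≤ C * (z 1 ^ k / z s ^ k) * Real.exp (-4) / 2 := hb2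
        _ = L / (θ ^ k * z s ^ k) * ((1 / 2) * (0 + C / L * ((θ * z 1) ^ k * Real.exp (-4)))) := by
            rw [mul_pow]
            field_simp
            ring
        _ ≤ _ := by
            gcongr
            linarith
  · have : gam s * (1 - κ) * (s / ((s : ℝ) + 1)) = 2 * (1 - κ) := by
      rw [gam]; field_simp
    rw [this]
    linarith
  · rw [scal_mid le_rfl hs]
    have h1 : 1 - θ * z 1 ≤ z s ^ k := by
      have := le_mul_of_one_le_left (h.pos 1).le hθ1
      linarith [h.bal]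
    have h2 : L / (θ ^ k * z s ^ k * A) * (1 - θ * z 1) ≤ L / A / θ ^ k := by
      refine le_trans (mul_le_mul_of_nonneg_left h1 (by positivity)) (le_of_eq ?_)
      field_simp
    have h3 : L / A / θ ^ k ≤ L / A / (1 + 2 * gam s / L) :=
      div_le_div_of_nonneg_left (by positivity) (by positivity) hθk
    have h4 : L ≤ L / A := le_div_self hL0.le hA0 hA1
    have h5 : L / A / (1 + 2 * gam s / L) ≤ L / A - gam s := by
      rw [div_le_iff₀ (by positivity)]
      have h6 : (L / A - gam s) * (2 * gam s / L) ≥ (L / 2) * (2 * gam s / L) :=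
        mul_le_mul_of_nonneg_right (by linarith) (by positivity)
      have h7 : (L / 2) * (2 * gam s / L) = gam s := by field_simp
      nlinarith
    linarith
  · rw [scal_mid hs le_rfl, mul_pow]
    apply le_of_eq
    field_simp
    ring

end

lemma sharp_upper {s : ℕ} (hs : 1 ≤ s) {a : ℝ} (ha : gam s * (1 - kappaSeq (s - 1)) < a) :
    ∀ᶠ k in atTop, FF s k - ellValue (s + 1) k < a := by
  obtain ⟨Z, H⟩ := exists_crits hs
  have hγ := gam_pos hs
  obtain ⟨hκ0, hκ1⟩ := kappa_bounds (s - 1)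
  obtain ⟨κ, hκ2, hκ3⟩ : ∃ κ, κ < kappaSeq (s - 1) ∧ gam s * (1 - κ) < a := by
    refine ⟨kappaSeq (s - 1) - (a - gam s * (1 - kappaSeq (s - 1))) / (2 * gam s), ?_, ?_⟩
    · have : 0 < (a - gam s * (1 - kappaSeq (s - 1))) / (2 * gam s) :=
        div_pos (by linarith) (by positivity)
      linarith
    · have : gam s * ((a - gam s * (1 - kappaSeq (s - 1))) / (2 * gam s))
          = (a - gam s * (1 - kappaSeq (s - 1))) / 2 := by field_simp
      nlinarith
  have hp := pp_pos s 0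
  obtain ⟨C, hC, hCs, hCκ⟩ : ∃ C : ℝ, 0 ≤ C ∧ (2 ≤ s ∨ C = 0) ∧
      κ < C * pp s 1 * Real.exp (-4) / 2 := by
    rcases lt_or_ge s 2 with h | h
    · refine ⟨0, le_rfl, Or.inr rfl, ?_⟩
      have : s - 1 = 0 := by omega
      rw [this] at hκ2
      simpa [kappaSeq] using hκ2
    · refine ⟨1 / (pp s 1 * Real.exp (-4)), by positivity, Or.inl h, ?_⟩
      have : 1 / (pp s 1 * Real.exp (-4)) * pp s 1 * Real.exp (-4) = 1 := by
        simp only [zero_add] at hp
        field_simp
      rw [this]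
      linarith
  have hLtop : Tendsto (fun k => ellValue (s + 1) k) atTop atTop := by
    have h1 : Tendsto (fun k => (Z k s ^ k)⁻¹) atTop atTop :=
      tendsto_inv_nhdsGT_zero.comp
        (tendsto_nhdsWithin_iff.mpr ⟨H.c_zero, H.ev.mono (fun k hk => hk.2.2.c_pos)⟩)
    apply (h1.atTop_mul_pos zero_lt_one H.ell_c).congr'
    filter_upwards [H.ev] with k ⟨_, _, h⟩
    have := h.c_pos
    field_simp
  have hLk : Tendsto (fun k : ℕ => ellValue (s + 1) k / k) atTop (𝓝 0) := by
    apply (H.ell_c.div_atTop H.kc_top).congr'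
    filter_upwards [H.ev] with k ⟨_, _, h⟩
    have := h.c_pos
    field_simp
  have hN : Tendsto (fun k : ℕ => (k : ℝ)) atTop atTop := tendsto_natCast_atTop_atTop
  have e1 : ∀ᶠ k : ℕ in atTop, 1 / 2 < (1 - Z k (s + 1)) / Z k s ^ k
      - 2 * gam s / k / (ellValue (s + 1) k * Z k s ^ k) := by
    have := H.mu_div.sub ((hN.const_div_atTop (2 * gam s)).div H.ell_c one_ne_zero)
    exact this.eventually (lt_mem_nhds (by norm_num))
  have e2 : ∀ᶠ k : ℕ in atTop, κ < (1 - C / ellValue (s + 1) k) * (ellValue (s + 1) k * Z k s ^ k)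
      * ∑ l ∈ range (s - 1), Z k (l + 1) ^ k / Z k s ^ k
        * (Z k (l + 2) ^ k / Z k s ^ k - Z k (l + 1) ^ k / Z k s ^ k) := by
    have := (((hLtop.const_div_atTop C).const_sub 1).mul H.ell_c).mul
      (tendsto_finsetSum (range (s - 1)) (fun l hl =>
        (H.pi_lim (j := l + 1) (by have := mem_range.mp hl; omega)).mul
          ((H.pi_lim (j := l + 2) (by have := mem_range.mp hl; omega)).sub
            (H.pi_lim (j := l + 1) (by have := mem_range.mp hl; omega)))))
    apply this.eventually (lt_mem_nhds _)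
    have h2 := kappa_eq (s - 1)
    rw [Nat.sub_add_cancel hs] at h2
    rw [← h2]
    simpa using hκ2
  have e3 : ∀ᶠ k : ℕ in atTop, κ < C * (Z k 1 ^ k / Z k s ^ k) * Real.exp (-4) / 2 :=
    ((((H.pi_lim hs).const_mul C).mul_const _).div_const 2).eventually (lt_mem_nhds hCκ)
  have e4 : ∀ᶠ k : ℕ in atTop, (2 * gam s + 2 * C) * (ellValue (s + 1) k / k)
      / (1 - (2 * gam s + 2 * C) / k) + gam s * (1 - κ) < a := by
    have := (((hLk.const_mul (2 * gam s + 2 * C)).div
      ((hN.const_div_atTop (2 * gam s + 2 * C)).const_sub 1) (by simp))).add_const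
        (gam s * (1 - κ))
    exact this.eventually (gt_mem_nhds (by simpa using hκ3))
  filter_upwards [H.ev, eventually_ge_atTop 2, hLtop.eventually (eventually_ge_atTop (2 * gam s)),
    hLtop.eventually (eventually_ge_atTop (2 * C)),
    hN.eventually (eventually_gt_atTop (2 * gam s + 2 * C)),
    H.c_zero.eventually (gt_mem_nhds one_half_pos), e1, e2, e3, e4]
    with k ⟨hk, hk', h⟩ hk2 h1 h2 h3 h4 h5 h6 h7 h8
  have hL0 : 0 < ellValue (s + 1) k := by linarith
  have hc := h.c_pos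
  have hL : ellValue (s + 1) k * (Z k 0 ^ k + (1 - Z k (s + 1))) = 1 := by
    rw [h.ell hk hs, one_div_mul_cancel h.lam_pos.ne']
  have h9 := FF_le (fun n => feas_sharp n hk2 hs h hL hC hCs h1 h2 h3 (by linarith) h4.le (by
    have h10 : (1 - Z k (s + 1)) / Z k s ^ k - 2 * gam s / k / (ellValue (s + 1) k * Z k s ^ k)
        = (1 - Z k (s + 1) - 2 * gam s / (k * ellValue (s + 1) k)) / Z k s ^ k := by
      field_simp
    rw [h10, lt_div_iff₀ hc] at h5
    have h11 : 0 ≤ 2 * gam s / (k * ellValue (s + 1) k) := by positivity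
    have h12 := mul_le_of_le_one_right h11 (h.le_one (j := s) (by omega))
    linarith [h.mono s]) h6.le h7.le)
  refine lt_of_le_of_lt (le_trans (sub_le_sub_right h9 _) (le_of_eq ?_)) h8
  have : 0 < 1 - (2 * gam s + 2 * C) / k := by rw [sub_pos, div_lt_one hk']; exact h3
  have h13 : ∀ L K A : ℝ, 0 < A → A = 1 - K / k → L / A - L = K * (L / k) / A := by
    intro L K A h1 h2
    rw [eq_div_iff h1.ne', sub_mul, div_mul_cancel₀ _ h1.ne', h2]
    ring
  linarith [h13 (ellValue (s + 1) k) _ _ this rfl]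

theorem sharp_limit {s : ℕ} (hs : 1 ≤ s) :
    Tendsto (fun k => FF s k - ellValue (s + 1) k) atTop (𝓝 (gam s * (1 - kappaSeq (s - 1)))) :=
  tendsto_order.mpr ⟨fun _ ha => sharp_lower hs ha, fun _ ha => sharp_upper hs ha⟩

end Pool.Agent.P.MP_654fb7_co
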