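import Pool.Agent.P.MP_654fb7_co.LOpt

/-!
Abstract level types and the basic dual inequality.
-/

namespace Pool.Agent.P.MP_654fb7_co

open Finset

/-- Cumulative sums. -/
noncomputable def cumX (X : ℕ → ℝ) (a : ℕ) : ℝ := ∑ b ∈ range a, X b

/-- The density of separated pairs (set, point). -/
noncomputable def RR (s : ℕ) (X Y : ℕ → ℝ) : ℝ := ∑ a ∈ range (s + 1), X a * Y a

/-- The density of separated pairs (set, set). -/
noncomputable def PP (s : ℕ) (X : ℕ → ℝ) : ℝ := ∑ a ∈ range (s + 1), cumX X a * X a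

/-- An abstract type: `X a` is the density of sets on level `a`, `Y a` the density of points above
level `a`, and `c` bounds the density of points. -/
structure Ty (k s : ℕ) (X Y : ℕ → ℝ) (c : ℝ) : Prop where
  X0 : ∀ a, 0 ≤ X a
  Y0 : ∀ a, 0 ≤ Y a
  Y1 : ∀ a, Y a ≤ 1
  anti : ∀ a, Y (a + 1) ≤ Y a
  Ytop : Y s = 0
  Yc : Y 0 ≤ c
  cum : ∀ a, cumX X (a + 1) ≤ (1 - Y a) ^ k

lemma cumX_succ (X : ℕ → ℝ) (a : ℕ) : cumX X (a + 1) = cumX X a + X a := sum_range_succ _ _

lemma cumX_zero (X : ℕ → ℝ) : cumX X 0 = 0 := sum_range_zero _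

lemma cumX_nonneg {X : ℕ → ℝ} (h : ∀ a, 0 ≤ X a) (a : ℕ) : 0 ≤ cumX X a :=
  sum_nonneg (fun b _ => h b)

lemma cumX_mono {X : ℕ → ℝ} (h : ∀ a, 0 ≤ X a) : Monotone (cumX X) :=
  monotone_nat_of_le_succ (fun a => by rw [cumX_succ]; linarith [h a])

lemma cumX_sq (X : ℕ → ℝ) (m : ℕ) :
    cumX X m ^ 2 = ∑ a ∈ range m, X a ^ 2 + 2 * ∑ a ∈ range m, cumX X a * X a := by
  induction m with
  | zero => simp [cumX]
  | succ m ih => rw [sum_range_succ, sum_range_succ, cumX_succ]; nlinarith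

lemma PP_le (s : ℕ) (X : ℕ → ℝ) : 2 * ((s : ℝ) + 1) * PP s X ≤ s * cumX X (s + 1) ^ 2 := by
  have h1 := cumX_sq X (s + 1)
  have h2 : cumX X (s + 1) ^ 2 ≤ ((s : ℝ) + 1) * ∑ a ∈ range (s + 1), X a ^ 2 := by
    have := sq_sum_le_card_mul_sum_sq (s := range (s + 1)) (f := X)
    simpa [cumX] using this
  simp only [PP]
  nlinarith

lemma abel_cum (X V : ℕ → ℝ) (m : ℕ) :
    ∑ a ∈ range (m + 1), X a * (V a - V m)
      = ∑ a ∈ range m, cumX X (a + 1) * (V a - V (a + 1)) := by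
  induction m with
  | zero => simp
  | succ m ih =>
    rw [sum_range_succ (fun a => cumX X (a + 1) * (V a - V (a + 1))), ← ih, sum_range_succ]
    simp only [sub_self, mul_zero, add_zero, cumX]
    rw [sum_mul, ← sum_add_distrib]
    apply sum_congr rfl
    intro a _
    ring

/-- The truncated positions attached to a type. -/
noncomputable def zet (s : ℕ) (z Y : ℕ → ℝ) : ℕ → ℝ
  | 0 => z 0
  | a + 1 => 1 - max (Y a) (1 - z (s + 1))

/-- The deficit in the dual inequality. -/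
noncomputable def defi (k s : ℕ) (z X Y : ℕ → ℝ) (c : ℝ) : ℝ :=
  z 0 ^ k * c + (1 - z (s + 1)) * cumX X (s + 1) - RR s X Y

section
variable {k s : ℕ} {z X Y : ℕ → ℝ} {c : ℝ}

lemma zet_nonneg (h : Crit k s z) (hT : Ty k s X Y c) (j : ℕ) : 0 ≤ zet s z Y j := by
  cases j with
  | zero => exact (h.pos 0).le
  | succ a =>
    have := max_le (hT.Y1 a) (show 1 - z (s + 1) ≤ 1 by linarith [h.pos (s + 1)])
    simp only [zet]
    linarith

lemma zet_top (h : Crit k s z) (hT : Ty k s X Y c) : zet s z Y (s + 1) = z (s + 1) := by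
  simp only [zet]
  rw [hT.Ytop, max_eq_right (by linarith [h.top])]
  ring

lemma zet_term_nonneg (hT : Ty k s X Y c) (a : ℕ) :
    0 ≤ (zet s z Y (a + 1) ^ k - cumX X (a + 1)) * (zet s z Y (a + 2) - zet s z Y (a + 1)) := by
  simp only [zet]
  rcases le_total (Y a) (1 - z (s + 1)) with h1 | h1
  · rw [max_eq_right h1, max_eq_right (le_trans (hT.anti a) h1)]
    simp
  · rw [max_eq_left h1]
    have := max_le (hT.anti a) h1
    exact mul_nonneg (by linarith [hT.cum a]) (by linarith)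

lemma defi_eq (h : Crit k s z) (hT : Ty k s X Y c) :
    defi k s z X Y c = z 0 ^ k * (c - max (Y 0) (1 - z (s + 1)))
      + ∑ j ∈ range (s + 1), slack k z (zet s z Y) j
      + ∑ a ∈ range (s + 1), X a * (max (Y a) (1 - z (s + 1)) - Y a)
      + ∑ a ∈ range s, (zet s z Y (a + 1) ^ k - cumX X (a + 1))
          * (zet s z Y (a + 2) - zet s z Y (a + 1)) := by
  have h1 := h.dual (zet s z Y) rfl (zet_top h hT)
  have h2 := abel_cum X (fun a => max (Y a) (1 - z (s + 1))) s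
  have h3 : max (Y s) (1 - z (s + 1)) = 1 - z (s + 1) := by
    rw [hT.Ytop, max_eq_right (by linarith [h.top])]
  have h4 : ∑ a ∈ range s, (zet s z Y (a + 1) ^ k - cumX X (a + 1))
          * (zet s z Y (a + 2) - zet s z Y (a + 1))
      = ∑ j ∈ range s, (zet s z Y (j + 2) - zet s z Y (j + 1)) * zet s z Y (j + 1) ^ k
        - ∑ a ∈ range s, cumX X (a + 1)
          * (max (Y a) (1 - z (s + 1)) - max (Y (a + 1)) (1 - z (s + 1))) := by
    rw [← sum_sub_distrib]
    apply sum_congr rfl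
    intro a _
    simp only [zet]
    ring
  have h5 : ∑ a ∈ range (s + 1), X a * (max (Y a) (1 - z (s + 1)) - Y a)
      = ∑ a ∈ range (s + 1), X a * (max (Y a) (1 - z (s + 1)) - (1 - z (s + 1)))
        + (1 - z (s + 1)) * cumX X (s + 1) - RR s X Y := by
    simp only [cumX, RR]
    rw [mul_sum, ← sum_add_distrib, ← sum_sub_distrib]
    apply sum_congr rfl
    intro a _
    ring
  have h6 : zet s z Y 1 = 1 - max (Y 0) (1 - z (s + 1)) := rfl
  simp only [h3] at h2
  rw [h4, h5, ← h2, defi]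
  rw [h6] at h1
  linarith

lemma Ty.antitone (hT : Ty k s X Y c) : Antitone Y := antitone_nat_of_succ_le hT.anti

lemma defi_low (hT : Ty k s X Y c) :
    z 0 ^ k * c + (1 - z (s + 1) - Y 0) * cumX X (s + 1) ≤ defi k s z X Y c := by
  have : RR s X Y ≤ Y 0 * cumX X (s + 1) := by
    simp only [RR, cumX]
    rw [mul_sum]
    apply sum_le_sum
    intro a _
    have := hT.antitone (Nat.zero_le a)
    nlinarith [hT.X0 a]
  simp only [defi]
  linarith

lemma defi_nonneg (hk : 1 ≤ k) (h : Crit k s z) (hT : Ty k s X Y c) : 0 ≤ defi k s z X Y c := by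
  have hl : 0 ≤ z 0 ^ k := pow_nonneg (h.pos 0).le k
  rcases le_total (Y 0) (1 - z (s + 1)) with h1 | h1
  · refine le_trans ?_ (defi_low hT)
    have := cumX_nonneg hT.X0 (s + 1)
    have h2 : 0 ≤ c := le_trans (hT.Y0 0) hT.Yc
    have h3 : 0 ≤ 1 - z (s + 1) - Y 0 := by linarith
    positivity
  · rw [defi_eq h hT, max_eq_left h1]
    have h2 : 0 ≤ z 0 ^ k * (c - Y 0) := mul_nonneg hl (by linarith [hT.Yc])
    have h3 : 0 ≤ ∑ j ∈ range (s + 1), slack k z (zet s z Y) j :=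
      sum_nonneg (fun j _ => slack_nonneg hk (h.pos j) (h.pos (j + 1)) (zet_nonneg h hT j)
        (zet_nonneg h hT (j + 1)))
    have h4 : 0 ≤ ∑ a ∈ range (s + 1), X a * (max (Y a) (1 - z (s + 1)) - Y a) :=
      sum_nonneg (fun a _ => mul_nonneg (hT.X0 a) (by linarith [le_max_left (Y a) (1 - z (s + 1))]))
    have h5 := sum_nonneg (s := range s) (fun a _ => zet_term_nonneg (z := z) hT a)
    linarith

end

end Pool.Agent.P.MP_654fb7_co
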