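import Pool.Agent.P.MP_654fb7_co.LFam

/-!
The main family of random maps and the general upper bound.
-/

namespace Pool.Agent.P.MP_654fb7_co

open Finset

/-- Probability that the maximum over a `k`-set is below the maximum over a disjoint `r`-set,
the latter being at most `m`. -/
noncomputable def TT (k r m : ℕ) (x : ℕ → ℝ) : ℝ :=
  ∑ l ∈ range m, x (l + 1) ^ k * (x (l + 2) ^ r - x (l + 1) ^ r)

/-- Maximal label of a set. -/
def al {n t : ℕ} (g : Fin n → Fin t) (A : Finset (Fin n)) : ℕ := A.sup (fun a => (g a : ℕ))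

lemma al_lt {n t : ℕ} (g : Fin n → Fin t) (A : Finset (Fin n)) (l : ℕ) :
    al g A < l + 1 ↔ ∀ a ∈ A, (g a : ℕ) < l + 1 :=
  Finset.sup_lt_iff (Nat.succ_pos l)

lemma al_mono {n t : ℕ} (g : Fin n → Fin t) {A B : Finset (Fin n)} (h : A ⊆ B) :
    al g A ≤ al g B := sup_mono h

lemma al_le {n s : ℕ} (g : Fin n → Fin (s + 1)) (A : Finset (Fin n)) : al g A ≤ s :=
  Nat.lt_succ_iff.mp ((al_lt g A s).mpr (fun a _ => (g a).2))

lemma al_sdiff {n t : ℕ} (g : Fin n → Fin t) (A B : Finset (Fin n)) :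
    al g B ≤ max (al g A) (al g (B \ A)) := by
  refine le_trans (al_mono g (B := A ∪ (B \ A)) (by simp)) (le_of_eq ?_)
  exact sup_union

lemma sum_ind_levels (α β m : ℕ) :
    ∑ l ∈ range m, (ind (α < l + 1 ∧ β < l + 1 + 1) - ind (α < l + 1 ∧ β < l + 1))
      = ind (α < β ∧ β ≤ m) := by
  induction m with
  | zero => rw [ind_neg (by omega)]; simp
  | succ m ih =>
    rw [sum_range_succ, ih]
    by_cases h1 : α < β ∧ β ≤ m
    · rw [ind_pos h1, ind_pos (by omega), ind_pos (by omega), ind_pos (by omega)]; ring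
    · rw [ind_neg h1]
      by_cases h2 : α < β ∧ β ≤ m + 1
      · rw [ind_pos h2, ind_pos (by omega), ind_neg (by omega)]; ring
      · rw [ind_neg h2, ind_congr (show (α < m + 1 ∧ β < m + 1 + 1) ↔ (α < m + 1 ∧ β < m + 1) by
          omega)]
        ring

lemma prod_expect {α β : Type} [Fintype α] [Fintype β] (W F : α → ℝ) (V G : β → ℝ) :
    ∑ ω : α × β, (W ω.1 * V ω.2) * (F ω.1 * G ω.2) = (∑ a, W a * F a) * ∑ b, V b * G b := by
  rw [Fintype.sum_prod_type, sum_mul_sum]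
  refine sum_congr rfl (fun a _ => sum_congr rfl (fun b _ => by ring))

section
variable {n s : ℕ} {x : ℕ → ℝ}

lemma cum_prob (h0 : x 0 = 0) {l : ℕ} (hl : l ≤ s + 1) :
    ∑ r : Fin (s + 1), (x (r + 1) - x r) * ind ((r : ℕ) < l) = x l := by
  rw [Fin.sum_univ_eq_sum_range (fun r => (x (r + 1) - x r) * ind (r < l)) (s + 1),
    ← sum_range_add_sum_Ico _ hl, sum_eq_zero (s := Ico l (s + 1))
      (fun r hr => by rw [ind_neg (by have := (mem_Ico.mp hr).1; omega), mul_zero]), add_zero,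
    sum_congr rfl (fun r hr => by rw [ind_pos (mem_range.mp hr), mul_one]), sum_range_sub, h0,
    sub_zero]

lemma total_prob (h0 : x 0 = 0) (h1 : x (s + 1) = 1) :
    ∑ r : Fin (s + 1), (x (r + 1) - x r) = 1 := by
  rw [Fin.sum_univ_eq_sum_range (fun r => x (r + 1) - x r) (s + 1), sum_range_sub, h0, h1,
    sub_zero]

lemma prob_al (h0 : x 0 = 0) (h1 : x (s + 1) = 1) (A B : Finset (Fin n)) (hd : Disjoint A B)
    {a b : ℕ} (ha : a ≤ s) (hb : b ≤ s) :
    ∑ g : Fin n → Fin (s + 1), (∏ i, (x (g i + 1) - x (g i))) * ind (al g A < a + 1 ∧ al g B < b + 1)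
      = x (a + 1) ^ A.card * x (b + 1) ^ B.card := by
  have := prob_two (fun r : Fin (s + 1) => x (r + 1) - x r) (total_prob h0 h1) A B hd
    (fun r => (r : ℕ) < a + 1) (fun r => (r : ℕ) < b + 1)
  rw [cum_prob h0 (by omega), cum_prob h0 (by omega)] at this
  simp only [al_lt]
  exact this

lemma prob_TT (h0 : x 0 = 0) (h1 : x (s + 1) = 1) (A B : Finset (Fin n)) (hd : Disjoint A B)
    {m : ℕ} (hm : m ≤ s) :
    ∑ g : Fin n → Fin (s + 1), (∏ i, (x (g i + 1) - x (g i))) * ind (al g A < al g B ∧ al g B ≤ m)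
      = TT A.card B.card m x := by
  simp only [← sum_ind_levels, mul_sum, TT]
  rw [sum_comm]
  apply sum_congr rfl
  intro l hl
  have := mem_range.mp hl
  simp only [mul_sub, sum_sub_distrib]
  rw [prob_al h0 h1 A B hd (by omega) (by omega), prob_al h0 h1 A B hd (by omega) (by omega)]

end

/-- The level code of the main family. -/
def mainCode {n k s : ℕ} (ω : (Fin n → Fin (s + 1)) × (Q n k → Bool)) (A : Q n k) : ℕ :=
  if A.1.card = 1 then (if al ω.1 A.1 = 0 then 0 else al ω.1 A.1 + 1)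
  else if al ω.1 A.1 = 0 ∧ ω.2 A = true then (if 1 < s then 2 else 0)
  else if al ω.1 A.1 < s then al ω.1 A.1 + 1 else 0

lemma main_family (n : ℕ) {s k : ℕ} (hk : 2 ≤ k) (hs : 1 ≤ s) {x : ℕ → ℝ} (h0 : x 0 = 0)
    (hm : ∀ j, j ≤ s → x j ≤ x (j + 1)) (h1 : x (s + 1) = 1) {ε : ℝ} (hε0 : 0 ≤ ε) (hε1 : ε ≤ 1)
    (hε : 2 ≤ s ∨ ε = 0) :
    ∃ w : (Q n k → Option (Fin (s + 1))) → ℝ, Good w ∧
      (∀ (A : Q n k) i, A.1.card ≠ 1 → i ∉ A.1 → TT k 1 s x - ε * TT k 1 1 x ≤ cov w A (sing k i)) ∧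
      (∀ A B : Q n k, A ≠ B → A.1.card ≠ 1 → B.1.card ≠ 1 →
        (1 - ε) * (TT k (B.1 \ A.1).card (s - 1) x + ε * (x 1 ^ k * x 1 ^ (B.1 \ A.1).card))
          ≤ cov w A B) ∧
      (∀ i, cost w (sing k i) = 1 - x 1) ∧ ∀ A : Q n k, A.1.card ≠ 1 → cost w A ≤ x s ^ k := by
  let q : Bool → ℝ := fun b => if b then ε else 1 - ε
  have hq : ∑ b, q b = 1 := by simp [q]
  have hq0 : ∀ b, 0 ≤ q b := fun b => by cases b <;> simp [q, hε0, hε1]
  let W : (Fin n → Fin (s + 1)) → ℝ := fun g => ∏ i, (x (g i + 1) - x (g i))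
  let V : (Q n k → Bool) → ℝ := fun ρ => ∏ A, q (ρ A)
  have hW : ∀ g, 0 ≤ W g := fun g =>
    prod_nonneg (fun i _ => sub_nonneg.mpr (hm _ (by have := (g i).2; omega)))
  have hV : ∀ ρ, 0 ≤ V ρ := fun ρ => prod_nonneg (fun A _ => hq0 _)
  have hp : ∀ ω : (Fin n → Fin (s + 1)) × (Q n k → Bool), 0 ≤ W ω.1 * V ω.2 :=
    fun ω => mul_nonneg (hW _) (hV _)
  have hV1 : ∑ ρ, V ρ * 1 = 1 := by simpa using prob_total (ι := Q n k) q hq
  have hVt : ∀ A, ∑ ρ, V ρ * ind (ρ A = true) = ε := by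
    intro A
    have := prob_two q hq {A} ∅ (by simp) (fun b => b = true) (fun _ => True)
    simpa [q, ind] using this
  have hVf : ∀ A, ∑ ρ, V ρ * ind (ρ A = false) = 1 - ε := by
    intro A
    have := prob_two q hq {A} ∅ (by simp) (fun b => b = false) (fun _ => True)
    simpa [q, ind] using this
  have hVft : ∀ A B, A ≠ B → ∑ ρ, V ρ * ind (ρ A = false ∧ ρ B = true) = (1 - ε) * ε := by
    intro A B hne
    have := prob_two q hq {A} {B} (by simpa using hne) (fun b => b = false) (fun b => b = true)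
    simpa [q, ind] using this
  have hcardk : ∀ A : Q n k, A.1.card ≠ 1 → A.1.card = k := fun A h => A.2.resolve_left h
  obtain ⟨w, hw, hcov, hcost⟩ := push_code (t := s + 1) (P := Q n k) _ hp mainCode
    (fun ω A => by
      have := al_le ω.1 A.1
      unfold mainCode
      split_ifs <;> omega)
    (fun ω A B hxy h2 h3 => by
      rcases eq_or_ne A B with rfl | hne
      · exact le_rfl
      · obtain ⟨h4, h5⟩ := q_lt hk hxy hne
        have h6 : al ω.1 A.1 ≤ al ω.1 B.1 := al_mono ω.1 hxy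
        unfold mainCode at h2 h3 ⊢
        rw [if_pos h4] at h2 ⊢
        rw [if_neg h5] at h3 ⊢
        split_ifs at h2 h3 ⊢ <;> omega)
  refine ⟨w, hw, fun A i hA hi => ?_, fun A B hne hA hB => ?_, fun i => ?_, fun A hA => ?_⟩
  · have hd : Disjoint A.1 {i} := by simpa using hi
    have e1 := prob_TT h0 h1 A.1 {i} hd (le_refl s)
    have e2 := prob_TT h0 h1 A.1 {i} hd hs
    rw [hcardk A hA, card_singleton] at e1 e2
    have e3 := prod_expect W (fun g => ind (al g A.1 < al g {i} ∧ al g {i} ≤ s)) V (fun _ => 1)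
    have e4 := prod_expect W (fun g => ind (al g A.1 < al g {i} ∧ al g {i} ≤ 1)) V
      (fun ρ => ind (ρ A = true))
    rw [e1, hV1, mul_one] at e3
    rw [e2, hVt, mul_comm] at e4
    rw [hcov, ← e3, ← e4, ← sum_sub_distrib]
    apply sum_le_sum
    intro ω _
    rw [← mul_sub]
    apply mul_le_mul_of_nonneg_left _ (hp ω)
    rw [mul_one, ← ind_and]
    have hs1 : mainCode ω (sing k i) = if al ω.1 {i} = 0 then 0 else al ω.1 {i} + 1 := by
      unfold mainCode
      rw [if_pos (sing_card i)]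
      rfl
    by_cases h2 : al ω.1 A.1 < al ω.1 {i} ∧ al ω.1 {i} ≤ s
    · by_cases h3 : (al ω.1 A.1 < al ω.1 {i} ∧ al ω.1 {i} ≤ 1) ∧ ω.2 A = true
      · rw [ind_pos h2, ind_pos h3, sub_self]
        exact ind_nonneg _
      · rw [ind_neg h3, sub_zero]
        apply ind_mono
        intro _
        rw [hs1]
        unfold mainCode
        rw [if_neg hA]
        split_ifs with h4 h5 h6 h7 h8 h9 h10 <;> try omega
        all_goals (have := h4.2; simp only [this, and_true] at h3; omega)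
    · rw [ind_neg h2]
      linarith [ind_nonneg ((al ω.1 A.1 < al ω.1 {i} ∧ al ω.1 {i} ≤ 1) ∧ ω.2 A = true),
        ind_nonneg (0 < mainCode ω A ∧ mainCode ω A < mainCode ω (sing k i))]
  · rcases lt_or_ge s 2 with hs2 | hs2
    · have h2 : ε = 0 := hε.resolve_left (by omega)
      have h3 : s - 1 = 0 := by omega
      rw [h2, h3]
      simpa [TT] using hw.cov_nonneg A B
    have hd : Disjoint A.1 (B.1 \ A.1) := disjoint_sdiff
    have e1 := prob_TT h0 h1 A.1 _ hd (Nat.sub_le s 1)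
    have e2 := prob_al h0 h1 A.1 _ hd (Nat.zero_le s) (Nat.zero_le s)
    rw [hcardk A hA] at e1 e2
    have e3 := prod_expect W
      (fun g => ind (al g A.1 < al g (B.1 \ A.1) ∧ al g (B.1 \ A.1) ≤ s - 1)) V
      (fun ρ => ind (ρ A = false))
    have e4 := prod_expect W (fun g => ind (al g A.1 < 0 + 1 ∧ al g (B.1 \ A.1) < 0 + 1)) V
      (fun ρ => ind (ρ A = false ∧ ρ B = true))
    rw [e1, hVf] at e3
    rw [e2, hVft A B hne, zero_add] at e4
    rw [hcov]
    refine le_trans (le_of_eq (b := TT k (B.1 \ A.1).card (s - 1) x * (1 - ε)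
      + x 1 ^ k * x 1 ^ (B.1 \ A.1).card * ((1 - ε) * ε)) (by ring)) ?_
    rw [← e3, ← e4, ← sum_add_distrib]
    apply sum_le_sum
    intro ω _
    rw [← mul_add]
    apply mul_le_mul_of_nonneg_left _ (hp ω)
    rw [← ind_and, ← ind_and]
    have h4 := al_sdiff ω.1 A.1 B.1
    have h5 : al ω.1 (B.1 \ A.1) ≤ al ω.1 B.1 := al_mono ω.1 sdiff_subset
    by_cases h2 : (al ω.1 A.1 < al ω.1 (B.1 \ A.1) ∧ al ω.1 (B.1 \ A.1) ≤ s - 1) ∧ ω.2 A = false
    · rw [ind_pos h2, ind_neg (by omega), add_zero, ind_pos]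
      unfold mainCode
      rw [if_neg hA, if_neg hB, if_neg (by simp [h2.2]), if_pos (by omega), if_neg (by omega),
        if_pos (by omega)]
      omega
    · rw [ind_neg h2, zero_add]
      apply ind_mono
      rintro ⟨⟨h6, h7⟩, h8, h9⟩
      unfold mainCode
      rw [if_neg hA, if_neg hB, if_neg (by simp [h8]), if_pos (by omega),
        if_pos ⟨by omega, h9⟩, if_pos (by omega)]
      omega
  · have e1 := prob_al h0 h1 {i} ∅ (by simp) (Nat.zero_le s) (Nat.zero_le s)
    have e2 := prod_expect W (fun g => ind (al g {i} < 0 + 1 ∧ al g ∅ < 0 + 1)) V (fun _ => 1)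
    have e3 := prod_expect W (fun _ => 1) V (fun _ => 1)
    have e4 : ∑ g, W g * 1 = 1 := by
      simpa using prob_total (ι := Fin n) (fun r : Fin (s + 1) => x (r + 1) - x r)
        (total_prob h0 h1)
    rw [e1, hV1] at e2
    rw [e4, hV1] at e3
    simp only [card_singleton, card_empty, pow_zero, pow_one, mul_one, zero_add] at e2 e3
    rw [hcost, ← e2]
    nth_rewrite 1 [← e3]
    rw [← sum_sub_distrib]
    apply sum_congr rfl
    intro ω _
    have hs1 : mainCode ω (sing k i) = if al ω.1 {i} = 0 then 0 else al ω.1 {i} + 1 := by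
      unfold mainCode
      rw [if_pos (sing_card i)]
      rfl
    have h2 : al ω.1 ∅ = 0 := rfl
    rw [hs1, h2]
    split_ifs with h3
    · rw [ind_neg (by omega), ind_pos (by omega)]; ring
    · rw [ind_pos (by omega), ind_neg (by omega)]; ring
  · obtain ⟨m, rfl⟩ : ∃ m, s = m + 1 := ⟨s - 1, by omega⟩
    have e1 := prob_al h0 h1 A.1 ∅ (by simp) (Nat.le_succ m) (Nat.le_succ m)
    have e2 := prod_expect W (fun g => ind (al g A.1 < m + 1 ∧ al g ∅ < m + 1)) V (fun _ => 1)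
    rw [e1, hV1, hcardk A hA] at e2
    simp only [card_empty, pow_zero, mul_one] at e2
    rw [hcost, ← e2]
    apply sum_le_sum
    intro ω _
    apply mul_le_mul_of_nonneg_left _ (hp ω)
    apply ind_mono
    have h2 : al ω.1 ∅ = 0 := rfl
    unfold mainCode
    rw [if_neg hA, h2]
    split_ifs <;> omega

end Pool.Agent.P.MP_654fb7_co
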