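import Pool.Agent.P.MP_654fb7_co.Upper

/-!
Lower bound by averaging over the pairs `(A, i)` with `i ∉ A`, and the limit.
-/

namespace Pool.Agent.P.MP_654fb7_co

open Finset Filter Topology

lemma count_levels {k : ℕ} (hk : 1 ≤ k) {n j : ℕ} (g : Fin n → Fin (j + 1)) :
    ∑ i, (((univ.filter (fun a => g a < g i)).card : ℝ)) ^ k ≤ mval k j * (n : ℝ) ^ (k + 1) := by
  let c : ℕ → ℝ := fun s => ((univ.filter (fun a => (g a : ℕ) < s)).card : ℝ)
  have h := riemann_le hk c (by simp [c]) (fun s => by positivity) j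
  have hn : c (j + 1) = n := by
    have : univ.filter (fun a => (g a : ℕ) < j + 1) = univ := by
      apply filter_true_of_mem
      intro a _
      exact (g a).2
    simp only [c, this]
    simp
  rw [hn] at h
  refine le_trans (le_of_eq ?_) h
  rw [← sum_fiberwise (s := univ) (g := g),
    ← Fin.sum_univ_eq_sum_range (fun s => (c (s + 1) - c s) * c s ^ k) (j + 1)]
  apply sum_congr rfl
  intro s _
  have e : ∀ i ∈ univ.filter (fun i => g i = s),
      (((univ.filter (fun a => g a < g i)).card : ℝ)) ^ k = c s ^ k := by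
    intro i hi
    have hi' : g i = s := by simpa using hi
    simp only [c, hi', Fin.lt_def]
  rw [sum_congr rfl e, sum_const, nsmul_eq_mul]
  congr 1
  have : univ.filter (fun a => (g a : ℕ) < s + 1)
      = univ.filter (fun a => (g a : ℕ) < s) ∪ univ.filter (fun i => g i = s) := by
    ext a
    simp only [mem_filter, mem_univ, true_and, mem_union, Fin.ext_iff]
    omega
  simp only [c]
  rw [this, card_union_of_disjoint]
  · push_cast; ring
  · rw [disjoint_filter]
    intro a _ h1 h2
    rw [h2] at h1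
    exact lt_irrefl _ h1

lemma lower_bound {k : ℕ} (hk : 1 ≤ k) {j n : ℕ} (w : (Q n k → Fin (j + 1)) → ℝ)
    (hw : IsFracRealiser (j + 1) w) :
    (n : ℝ) * ((n - k : ℕ) : ℝ) ^ k ≤ (∑ f, w f) * (mval k j * (n : ℝ) ^ (k + 1)) := by
  obtain ⟨hw0, hwm, hwc⟩ := hw
  let sing : Fin n → Q n k := fun i => ⟨{i}, Or.inl (card_singleton i)⟩
  let S : Fin n → Finset (Q n k) := fun i => univ.filter (fun A => A.1.card = k ∧ i ∉ A.1)
  have hfac : (0 : ℝ) < (k.factorial : ℝ) := by exact_mod_cast k.factorial_pos
  have hS : ∀ i, ((n - k : ℕ) : ℝ) ^ k ≤ (k.factorial : ℝ) * ((S i).card : ℝ) := by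
    intro i
    have h1 : powersetCard k (univ.erase i) ⊆ (S i).image Subtype.val := by
      intro A hA
      rw [mem_powersetCard] at hA
      refine mem_image.mpr ⟨⟨A, Or.inr hA.2⟩, ?_, rfl⟩
      simp only [S, mem_filter, mem_univ, true_and]
      exact ⟨hA.2, fun h => by simpa using hA.1 h⟩
    have h2 := le_trans (card_le_card h1) card_image_le
    rw [card_powersetCard, card_erase_of_mem (mem_univ i), card_univ, Fintype.card_fin] at h2
    have h3 := Nat.pow_sub_le_descFactorial (n - 1) k
    rw [Nat.descFactorial_eq_factorial_mul_choose] at h3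
    have hn : 1 ≤ n := i.pos
    have h4 : n - 1 + 1 - k = n - k := by omega
    rw [h4] at h3
    exact_mod_cast le_trans h3 (Nat.mul_le_mul_left _ h2)
  have hcount : ∀ f : Q n k → Fin (j + 1), Monotone f →
      (k.factorial : ℝ) * ∑ i, (((S i).filter (fun A => f A < f (sing i))).card : ℝ)
        ≤ mval k j * (n : ℝ) ^ (k + 1) := by
    intro f hf
    refine le_trans ?_ (count_levels hk (fun i => f (sing i)))
    rw [mul_sum]
    apply sum_le_sum
    intro i _
    have h1 : ((S i).filter (fun A => f A < f (sing i))).image Subtype.val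
        ⊆ powersetCard k (univ.filter (fun a => f (sing a) < f (sing i))) := by
      intro A hA
      obtain ⟨B, hB, rfl⟩ := mem_image.mp hA
      simp only [S, mem_filter, mem_univ, true_and] at hB
      rw [mem_powersetCard]
      refine ⟨fun a ha => ?_, hB.1.1⟩
      simp only [mem_filter, mem_univ, true_and]
      refine lt_of_le_of_lt (hf ?_) hB.2
      show ({a} : Finset (Fin n)) ⊆ B.1
      simpa using ha
    have h2 := card_le_card h1
    rw [card_image_of_injective _ Subtype.val_injective, card_powersetCard] at h2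
    have h3 := Nat.descFactorial_le_pow (univ.filter (fun a => f (sing a) < f (sing i))).card k
    rw [Nat.descFactorial_eq_factorial_mul_choose] at h3
    exact_mod_cast le_trans (Nat.mul_le_mul_left _ h2) h3
  calc (n : ℝ) * ((n - k : ℕ) : ℝ) ^ k = ∑ _i : Fin n, ((n - k : ℕ) : ℝ) ^ k := by simp
    _ ≤ ∑ i, (k.factorial : ℝ) * ((S i).card : ℝ) := sum_le_sum (fun i _ => hS i)
    _ = (k.factorial : ℝ) * ∑ i, ∑ _A ∈ S i, (1 : ℝ) := by rw [mul_sum]; simp
    _ ≤ (k.factorial : ℝ) * ∑ i, ∑ A ∈ S i,
          ∑ f ∈ univ.filter (fun f : Q n k → Fin (j + 1) => f A < f (sing i)), w f := by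
        apply mul_le_mul_of_nonneg_left _ hfac.le
        apply sum_le_sum
        intro i _
        apply sum_le_sum
        intro A hA
        apply hwc
        simp only [S, mem_filter, mem_univ, true_and] at hA
        intro h
        have h' : ({i} : Finset (Fin n)) ⊆ A.1 := h
        exact hA.2 (by simpa using h')
    _ = ∑ f, w f * ((k.factorial : ℝ) *
          ∑ i, (((S i).filter (fun A => f A < f (sing i))).card : ℝ)) := by
        simp only [sum_filter, card_filter, mul_sum, Nat.cast_sum]
        conv_rhs => rw [sum_comm]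
        apply sum_congr rfl
        intro i _
        conv_rhs => rw [sum_comm]
        apply sum_congr rfl
        intro A _
        apply sum_congr rfl
        intro f _
        split_ifs <;> simp [mul_comm]
    _ ≤ ∑ f, w f * (mval k j * (n : ℝ) ^ (k + 1)) := by
        apply sum_le_sum
        intro f _
        by_cases hf : Monotone f
        · exact mul_le_mul_of_nonneg_left (hcount f hf) (hw0 f)
        · simp [hwm f hf]
    _ = (∑ f, w f) * (mval k j * (n : ℝ) ^ (k + 1)) := by rw [sum_mul]

lemma fdim_le {k : ℕ} (hk : 1 ≤ k) (j n : ℕ) : fdim (j + 2) (Q n k) ≤ 1 / mval k (j + 1) := by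
  obtain ⟨w, hw, hs⟩ := exists_realiser hk j n
  apply csInf_le
  · refine ⟨0, ?_⟩
    rintro c ⟨w', hw', rfl⟩
    exact sum_nonneg (fun f _ => hw'.1 f)
  · exact ⟨w, hw, hs.symm⟩

lemma le_fdim {k : ℕ} (hk : 1 ≤ k) (j n : ℕ) (hn : k < n) :
    (1 - (k : ℝ) / n) ^ k / mval k (j + 1) ≤ fdim (j + 2) (Q n k) := by
  have hM := mval_succ_pos hk j
  have hn0 : (0 : ℝ) < n := by exact_mod_cast (lt_of_le_of_lt (Nat.zero_le k) hn)
  apply le_csInf
  · obtain ⟨w, hw, _⟩ := exists_realiser hk j n
    exact ⟨_, w, hw, rfl⟩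
  · rintro c ⟨w, hw, rfl⟩
    have h := lower_bound hk w hw
    rw [Nat.cast_sub hn.le] at h
    rw [div_le_iff₀ hM]
    have e : (1 - (k : ℝ) / n) ^ k = (n : ℝ) * ((n : ℝ) - k) ^ k / (n : ℝ) ^ (k + 1) := by
      have : 1 - (k : ℝ) / n = ((n : ℝ) - k) / n := by field_simp
      rw [this, div_pow]
      field_simp
      ring
    rw [e, div_le_iff₀ (by positivity)]
    calc _ ≤ _ := h
      _ = _ := by ring

theorem tendsto_fdim {k : ℕ} (hk : 1 ≤ k) (j : ℕ) :
    Tendsto (fun n => fdim (j + 2) (Q n k)) atTop (𝓝 (fdValue k j)) := by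
  rw [fdValue_eq hk]
  have h1 : Tendsto (fun n : ℕ => (1 - (k : ℝ) / n) ^ k / mval k (j + 1)) atTop
      (𝓝 ((1 - 0) ^ k / mval k (j + 1))) :=
    ((tendsto_const_nhds.sub (tendsto_const_div_atTop_nhds_zero_nat (k : ℝ))).pow k).div_const _
  simp only [sub_zero, one_pow] at h1
  apply tendsto_of_tendsto_of_tendsto_of_le_of_le' h1 tendsto_const_nhds
  · filter_upwards [eventually_gt_atTop k] with n hn using le_fdim hk j n hn
  · exact Eventually.of_forall (fun n => fdim_le hk j n)

end Pool.Agent.P.MP_654fb7_co
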