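import Pool.Agent.P.MP_654fb7_co.Defs

/-!
The optimisation problem: the largest lower Riemann sum of `x ^ k` with a given number of pieces.
-/

namespace Pool.Agent.P.MP_654fb7_co

open Finset

/-- `mval k j` is the optimum for `j + 1` levels. -/
noncomputable def mval (k : ℕ) : ℕ → ℝ
  | 0 => 0
  | j + 1 => ((k : ℝ) / (((k : ℝ) + 1) * (1 - mval k j))) ^ k / ((k : ℝ) + 1)

lemma mval_bounds (k : ℕ) : ∀ j, 0 ≤ mval k j ∧ mval k j ≤ 1 / ((k : ℝ) + 1) := by
  intro j
  have hk1 : (0 : ℝ) < (k : ℝ) + 1 := by positivity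
  induction j with
  | zero => exact ⟨le_rfl, by simp only [mval]; positivity⟩
  | succ j ih =>
    obtain ⟨h0, h1⟩ := ih
    have h2 : (k : ℝ) ≤ ((k : ℝ) + 1) * (1 - mval k j) := by
      have : ((k : ℝ) + 1) * mval k j ≤ 1 := by
        rw [le_div_iff₀ hk1] at h1; linarith
      nlinarith
    have h3 : (0 : ℝ) ≤ ((k : ℝ) + 1) * (1 - mval k j) := le_trans (by positivity) h2
    have h4 : (0 : ℝ) ≤ (k : ℝ) / (((k : ℝ) + 1) * (1 - mval k j)) := by positivity
    have h5 : (k : ℝ) / (((k : ℝ) + 1) * (1 - mval k j)) ≤ 1 := div_le_one_of_le₀ h2 h3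
    refine ⟨by simp only [mval]; positivity, ?_⟩
    simp only [mval]
    exact div_le_div_of_nonneg_right (pow_le_one₀ h4 h5) hk1.le

lemma one_sub_mval_pos {k : ℕ} (hk : 1 ≤ k) (j : ℕ) : 0 < 1 - mval k j := by
  have h := (mval_bounds k j).2
  have hk' : (1 : ℝ) ≤ k := by exact_mod_cast hk
  have : 1 / ((k : ℝ) + 1) ≤ 1 / 2 := by
    apply one_div_le_one_div_of_le <;> linarith
  linarith

lemma mval_succ_pos {k : ℕ} (hk : 1 ≤ k) (j : ℕ) : 0 < mval k (j + 1) := by
  have h := one_sub_mval_pos hk j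
  have hk' : (0 : ℝ) < k := by exact_mod_cast hk
  simp only [mval]
  positivity

lemma fdValue_eq {k : ℕ} (hk : 1 ≤ k) : ∀ j, fdValue k j = 1 / mval k (j + 1) := by
  have hk' : (0 : ℝ) < k := by exact_mod_cast hk
  intro j
  induction j with
  | zero =>
    simp only [fdValue, mval, sub_zero, mul_one, div_pow]
    field_simp
    ring
  | succ j ih =>
    have h := one_sub_mval_pos hk (j + 1)
    rw [fdValue, ih, one_div_one_div]
    conv_rhs => rw [mval]
    rw [div_pow, mul_pow]
    field_simp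
    ring

/-- One step of the optimisation. -/
lemma step_le {k : ℕ} (hk : 1 ≤ k) {c x X : ℝ} (hc : 0 < c) (hx : 0 ≤ x) (hX : 0 ≤ X) :
    x ^ k * (X - c * x) ≤ ((k : ℝ) / (((k : ℝ) + 1) * c)) ^ k / ((k : ℝ) + 1) * X ^ (k + 1) := by
  have hk' : (0 : ℝ) < k := by exact_mod_cast hk
  set u := c * x / k with hu
  set v := X / ((k : ℝ) + 1) with hv
  have hu0 : 0 ≤ u := by positivity
  have hv0 : 0 ≤ v := by positivity
  have key := pow_add_mul_le_add_pow (a := u) (b := v - u) hu0 (by linarith) (k + 1)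
  simp only [Nat.add_sub_cancel, add_sub_cancel] at key
  have hxu : x = (k : ℝ) / c * u := by rw [hu]; field_simp
  have hXv : X = ((k : ℝ) + 1) * v := by rw [hv]; field_simp
  have e1 : x ^ k * (X - c * x) = ((k : ℝ) / c) ^ k * (u ^ (k + 1) + ((k + 1 : ℕ) : ℝ) * u ^ k * (v - u)) := by
    have : c * x = k * u := by rw [hu]; field_simp
    rw [this, hXv]
    conv_lhs => rw [hxu, mul_pow]
    push_cast
    ring
  have e2 : ((k : ℝ) / (((k : ℝ) + 1) * c)) ^ k / ((k : ℝ) + 1) * X ^ (k + 1)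
      = ((k : ℝ) / c) ^ k * v ^ (k + 1) := by
    rw [hXv, div_pow, div_pow, mul_pow, mul_pow]
    field_simp
    ring
  rw [e1, e2]
  exact mul_le_mul_of_nonneg_left key (by positivity)

/-- Upper bound for lower Riemann sums. -/
lemma riemann_le {k : ℕ} (hk : 1 ≤ k) (x : ℕ → ℝ) (hx0 : x 0 = 0) (hx : ∀ s, 0 ≤ x s) :
    ∀ j, ∑ s ∈ range (j + 1), (x (s + 1) - x s) * x s ^ k ≤ mval k j * x (j + 1) ^ (k + 1) := by
  intro j
  induction j with
  | zero =>
    have : k ≠ 0 := by omega
    simp [mval, hx0, this]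
  | succ j ih =>
    rw [sum_range_succ]
    have h := step_le hk (one_sub_mval_pos hk j) (hx (j + 1)) (hx (j + 1 + 1))
    have e : mval k j * x (j + 1) ^ (k + 1) + (x (j + 1 + 1) - x (j + 1)) * x (j + 1) ^ k
        = x (j + 1) ^ k * (x (j + 1 + 1) - (1 - mval k j) * x (j + 1)) := by ring
    have : mval k (j + 1) = ((k : ℝ) / (((k : ℝ) + 1) * (1 - mval k j))) ^ k / ((k : ℝ) + 1) := rfl
    rw [this]
    linarith

/-- The optimum is attained. -/
lemma riemann_exists {k : ℕ} (hk : 1 ≤ k) : ∀ j, ∃ x : ℕ → ℝ, x 0 = 0 ∧ x (j + 1) = 1 ∧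
    (∀ s, s ≤ j → x s ≤ x (s + 1)) ∧
    ∑ s ∈ range (j + 1), (x (s + 1) - x s) * x s ^ k = mval k j := by
  have hk' : (0 : ℝ) < k := by exact_mod_cast hk
  have hk1 : (0 : ℝ) < (k : ℝ) + 1 := by positivity
  intro j
  induction j with
  | zero =>
    refine ⟨fun s => s, by simp, by simp, fun s _ => by simp, ?_⟩
    have : k ≠ 0 := by omega
    simp [mval, this]
  | succ j ih =>
    obtain ⟨x, h0, h1, hm, hs⟩ := ih
    have hc := one_sub_mval_pos hk j
    set a : ℝ := (k : ℝ) / (((k : ℝ) + 1) * (1 - mval k j)) with ha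
    have ha0 : 0 ≤ a := by positivity
    have ha1 : a ≤ 1 := by
      have h1 := (mval_bounds k j).2
      have h2 : (k : ℝ) ≤ ((k : ℝ) + 1) * (1 - mval k j) := by
        have : ((k : ℝ) + 1) * mval k j ≤ 1 := by
          rw [le_div_iff₀ hk1] at h1; linarith
        nlinarith
      exact div_le_one_of_le₀ h2 (by positivity)
    refine ⟨fun s => if s ≤ j + 1 then a * x s else 1, by simp [h0], by simp, ?_, ?_⟩
    · intro s hs
      by_cases h : s ≤ j
      · have h' : s + 1 ≤ j + 1 := by omega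
        simp only [hs, h', if_true]
        exact mul_le_mul_of_nonneg_left (hm s h) ha0
      · have : s = j + 1 := by omega
        subst this
        simp [h1, ha1]
    · rw [sum_range_succ]
      have e : ∑ s ∈ range (j + 1), ((if s + 1 ≤ j + 1 then a * x (s + 1) else 1)
            - (if s ≤ j + 1 then a * x s else 1)) * (if s ≤ j + 1 then a * x s else 1) ^ k
          = a ^ (k + 1) * mval k j := by
        rw [← hs, mul_sum]
        apply sum_congr rfl
        intro s hs
        have h' : s + 1 ≤ j + 1 := by simpa using hs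
        have h'' : s ≤ j + 1 := by omega
        simp only [h', h'', if_true]
        ring
      rw [e]
      have h3 : ¬ (j + 1 + 1 ≤ j + 1) := by omega
      simp only [h3, le_refl, if_true, if_false, h1, mul_one]
      have : mval k (j + 1) = a ^ k / ((k : ℝ) + 1) := rfl
      rw [this]
      have h4 : a * (1 - mval k j) = k / ((k : ℝ) + 1) := by rw [ha]; field_simp
      have h5 : a ^ (k + 1) * mval k j + (1 - a) * a ^ k = a ^ k * (1 - a * (1 - mval k j)) := by ring
      rw [h5, h4]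
      field_simp
      ring

end Pool.Agent.P.MP_654fb7_co
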