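import Pool.Agent.P.MP_654fb7_co.Opt

/-!
Upper bound: a product weighting is a fractional realiser.
-/

namespace Pool.Agent.P.MP_654fb7_co

open Finset

lemma prob_lemma {n t : ℕ} (p : Fin t → ℝ) (hp : ∑ r, p r = 1) (A : Finset (Fin n)) (i : Fin n)
    (hi : i ∉ A) :
    ∑ g ∈ univ.filter (fun g : Fin n → Fin t => ∀ a ∈ A, g a < g i), ∏ a, p (g a)
      = ∑ s, p s * (∑ r ∈ univ.filter (fun r => r < s), p r) ^ A.card := by
  classical
  rw [← sum_fiberwise (s := univ.filter (fun g : Fin n → Fin t => ∀ a ∈ A, g a < g i))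
    (g := fun g => g i)]
  apply sum_congr rfl
  intro s _
  let T : Fin n → Finset (Fin t) := fun a =>
    if a = i then {s} else if a ∈ A then univ.filter (fun r => r < s) else univ
  have e : (univ.filter (fun g : Fin n → Fin t => ∀ a ∈ A, g a < g i)).filter (fun g => g i = s)
      = Fintype.piFinset T := by
    ext g
    simp only [mem_filter, mem_univ, true_and, Fintype.mem_piFinset, T]
    constructor
    · rintro ⟨h1, h2⟩ a
      by_cases ha : a = i
      · simp [ha, h2]
      · by_cases ha' : a ∈ A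
        · simp [ha, ha', ← h2, h1 a ha']
        · simp [ha, ha']
    · intro h
      have h2 : g i = s := by simpa using h i
      refine ⟨fun a ha => ?_, h2⟩
      have hne : a ≠ i := fun h' => hi (h' ▸ ha)
      have := h a
      simpa [hne, ha, h2] using this
  rw [e, ← prod_univ_sum T (fun _ r => p r)]
  rw [← mul_prod_erase univ _ (mem_univ i)]
  have e1 : ∑ r ∈ T i, p r = p s := by simp [T]
  rw [e1]
  congr 1
  rw [← prod_const, ← prod_subset (s₁ := A)]
  · apply prod_congr rfl
    intro a ha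
    have hne : a ≠ i := fun h' => hi (h' ▸ ha)
    simp [T, hne, ha]
  · intro a ha
    have hne : a ≠ i := fun h' => hi (h' ▸ ha)
    simp [hne]
  · intro a ha ha'
    have hne : a ≠ i := (mem_erase.mp ha).1
    simp [T, hne, ha', hp]

lemma telescope_lt {j : ℕ} (x : ℕ → ℝ) (h0 : x 0 = 0) (s : Fin (j + 1)) :
    ∑ r ∈ univ.filter (fun r : Fin (j + 1) => r < s), (x (r + 1) - x r) = x s := by
  have e : ∑ r ∈ univ.filter (fun r : Fin (j + 1) => r < s), (x (r + 1) - x r)
      = ∑ r ∈ range s, (x (r + 1) - x r) := by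
    apply sum_bij (fun (r : Fin (j + 1)) _ => (r : ℕ))
    · intro r hr
      simpa using hr
    · intro a _ b _ h
      exact Fin.ext h
    · intro b hb
      have hb' : b < s := by simpa using hb
      exact ⟨⟨b, lt_trans hb' s.2⟩, mem_filter.mpr ⟨mem_univ _, Fin.lt_def.mpr hb'⟩, rfl⟩
    · intro a _
      rfl
  rw [e, sum_range_sub, h0, sub_zero]

lemma exists_realiser {k : ℕ} (hk : 1 ≤ k) (j n : ℕ) :
    ∃ w : (Q n k → Fin (j + 2)) → ℝ, IsFracRealiser (j + 2) w ∧ ∑ f, w f = 1 / mval k (j + 1) := by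
  obtain ⟨x, h0, h1, hm, hs⟩ := riemann_exists hk (j + 1)
  have hM := mval_succ_pos hk j
  let p : Fin (j + 2) → ℝ := fun r => x (r + 1) - x r
  have hp0 : ∀ r, 0 ≤ p r := fun r => sub_nonneg.mpr (hm r (by have := r.2; omega))
  have hp1 : ∑ r, p r = 1 := by
    rw [Fin.sum_univ_eq_sum_range (fun r => x (r + 1) - x r) (j + 2), sum_range_sub, h0, h1]
    simp
  have hcum : ∀ s : Fin (j + 2), ∑ r ∈ univ.filter (fun r => r < s), p r = x s :=
    fun s => telescope_lt x h0 s
  have hx0 : ∀ s : Fin (j + 2), 0 ≤ x s := fun s => by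
    rw [← hcum]; exact sum_nonneg (fun r _ => hp0 r)
  have hx1 : ∀ s : Fin (j + 2), x s ≤ 1 := fun s => by
    rw [← hcum, ← hp1]
    exact sum_le_sum_of_subset_of_nonneg (filter_subset _ _) (fun r _ _ => hp0 r)
  have hsum : ∑ s, p s * x s ^ k = mval k (j + 1) := by
    rw [← hs, ← Fin.sum_univ_eq_sum_range (fun s => (x (s + 1) - x s) * x s ^ k) (j + 2)]
  let F : (Fin n → Fin (j + 2)) → Q n k → Fin (j + 2) := fun g A => A.1.sup g
  let W : (Fin n → Fin (j + 2)) → ℝ := fun g => ∏ a, p (g a)
  have hW : ∀ g, 0 ≤ W g := fun g => prod_nonneg (fun a _ => hp0 _)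
  have hWsum : ∑ g, W g = 1 := by
    have := prod_univ_sum (fun _ : Fin n => (univ : Finset (Fin (j + 2)))) (fun _ r => p r)
    simp only [Fintype.piFinset_univ, hp1, prod_const_one] at this
    exact this.symm
  refine ⟨fun f => (∑ g ∈ univ.filter (fun g => F g = f), W g) / mval k (j + 1), ⟨?_, ?_, ?_⟩, ?_⟩
  · intro f
    exact div_nonneg (sum_nonneg (fun g _ => hW g)) hM.le
  · intro f hf
    have : univ.filter (fun g => F g = f) = ∅ := by
      apply filter_eq_empty_iff.mpr
      intro g _ hg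
      apply hf
      rw [← hg]
      intro A B hAB
      exact sup_mono hAB
    simp [this]
  · intro A B hAB
    rw [← sum_div, le_div_iff₀ hM, one_mul]
    have hAB' : ¬ B.1 ⊆ A.1 := hAB
    obtain ⟨i, hiB, hiA⟩ := not_subset.mp hAB'
    have hcard : 1 ≤ A.1.card ∧ A.1.card ≤ k := by rcases A.2 with h | h <;> omega
    have e : ∑ f ∈ univ.filter (fun f : Q n k → Fin (j + 2) => f A < f B),
          ∑ g ∈ univ.filter (fun g => F g = f), W g
        = ∑ g ∈ univ.filter (fun g => F g A < F g B), W g := by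
      rw [sum_fiberwise_eq_sum_filter]
      apply sum_congr _ (fun _ _ => rfl)
      ext g
      simp
    rw [e]
    calc mval k (j + 1) = ∑ s, p s * x s ^ k := hsum.symm
      _ ≤ ∑ s, p s * x s ^ A.1.card := by
          apply sum_le_sum
          intro s _
          exact mul_le_mul_of_nonneg_left (pow_le_pow_of_le_one (hx0 s) (hx1 s) hcard.2) (hp0 s)
      _ = ∑ g ∈ univ.filter (fun g : Fin n → Fin (j + 2) => ∀ a ∈ A.1, g a < g i), W g := by
          rw [prob_lemma p hp1 A.1 i hiA]
          simp only [hcum]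
      _ ≤ ∑ g ∈ univ.filter (fun g => F g A < F g B), W g := by
          apply sum_le_sum_of_subset_of_nonneg _ (fun g _ _ => hW g)
          intro g hg
          simp only [mem_filter, mem_univ, true_and] at hg ⊢
          obtain ⟨a, ha⟩ := card_pos.mp hcard.1
          have hbot : ⊥ < g i := lt_of_le_of_lt bot_le (hg a ha)
          exact lt_of_lt_of_le ((Finset.sup_lt_iff hbot).mpr hg) (le_sup hiB)
  · rw [← sum_div, sum_fiberwise, hWsum]

end Pool.Agent.P.MP_654fb7_co
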